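import Mathlib

set_option autoImplicit false

/-!
# [H74 GR Cmb] A totally singular space misses a coordinate Lagrangian

`W` a subgroup of `(F_2 ^ 2) ^ ι` (`(x_i, y_i)`), `∑ x_i y_i = 0` for all its elements.  Then there is `I ⊆ ι` such that the only `w ∈ W` with `x_i = 0` for `i ∈ I`, `y_i = 0` for `i ∉ I` is `0`.
PROOF by induction on the cardinality of `ι` (state it for finite sets: for `S : Finset ι` and `W` such that all `w ∈ W` vanish outside `S`; induction on `S` with `Finset.induction_on`).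
`S = ∅`: `W = 0`.  `insert a S`: choose the line `ℓ ∈ {x = 0, y = 0}` of the plane at `a` with: no nonzero `w ∈ W` vanishes outside `a` and has `w a ∈ ℓ`.  It exists: if `w, w'` are nonzero elements of `W`
vanishing outside `a` with `w a = (0, 1)` and `w' a = (1, 0)`, then `(w + w') a = (1, 1)` and the form of `w + w'` is `1`.
`W' = {w' | w' a = 0 and there is w ∈ W with w a ∈ ℓ and w = w' outside a}` is a subgroup, its elements vanish outside `S`, and the form of `w'` is that of `w` (`x_a y_a = 0` for `w a ∈ ℓ`).  Induction: `I'` for `W'`, `I' ⊆ ι`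
arbitrary; `I = (I' \ {a}) ∪ {a}` if `ℓ` is `x = 0` and `I' \ {a}` if `ℓ` is `y = 0`.  If `w ∈ W` is in the Lagrangian of `I`, then `w a ∈ ℓ`, `w' = w` with `w' a = 0` is in `W'` and in the Lagrangian of `I'`
so `w' = 0`: `w` vanishes outside `a` and `w a ∈ ℓ`, so `w = 0`.
-/

namespace Pool.Agent.H74.GR

/-- The step of the induction, for one choice of the line `ℓ` (given by a predicate). -/
private theorem coord_step {ι : Type*} [Fintype ι] [DecidableEq ι] (S : Finset ι) (a : ι) (haS : a ∉ S)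
    (ℓ : AddSubgroup (ZMod 2 × ZMod 2)) (hℓ : ∀ v ∈ ℓ, v.1 * v.2 = 0)
    (ih : ∀ W : AddSubgroup (ι → ZMod 2 × ZMod 2), (∀ w ∈ W, ∀ i, i ∉ S → w i = 0) →
      (∀ w ∈ W, ∑ i, (w i).1 * (w i).2 = 0) →
      ∃ I : Set ι, ∀ w ∈ W, (∀ i, (i ∈ I → (w i).1 = 0) ∧ (i ∉ I → (w i).2 = 0)) → w = 0)
    (W : AddSubgroup (ι → ZMod 2 × ZMod 2)) (hW : ∀ w ∈ W, ∀ i, i ∉ insert a S → w i = 0)
    (h : ∀ w ∈ W, ∑ i, (w i).1 * (w i).2 = 0)
    (hl : ∀ w ∈ W, (∀ i, i ≠ a → w i = 0) → w a ∈ ℓ → w = 0) :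
    ∃ I : Set ι, ∀ w ∈ W, w a ∈ ℓ →
      (∀ i, i ≠ a → (i ∈ I → (w i).1 = 0) ∧ (i ∉ I → (w i).2 = 0)) → w = 0 := by
  let W' : AddSubgroup (ι → ZMod 2 × ZMod 2) :=
    { carrier := {w' | w' a = 0 ∧ ∃ w ∈ W, w a ∈ ℓ ∧ ∀ i, i ≠ a → w i = w' i}
      zero_mem' := ⟨rfl, 0, W.zero_mem, ℓ.zero_mem, fun _ _ => rfl⟩
      add_mem' := by
        rintro x y ⟨hx, wx, hwx, hxl, hxe⟩ ⟨hy, wy, hwy, hyl, hye⟩
        refine ⟨?_, wx + wy, W.add_mem hwx hwy, ?_, ?_⟩
        · simp [hx, hy]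
        · exact ℓ.add_mem hxl hyl
        · intro i hi
          simp only [Pi.add_apply, hxe i hi, hye i hi]
      neg_mem' := by
        rintro x ⟨hx, wx, hwx, hxl, hxe⟩
        refine ⟨?_, -wx, W.neg_mem hwx, ?_, ?_⟩
        · simp [hx]
        · exact ℓ.neg_mem hxl
        · intro i hi
          simp only [Pi.neg_apply, hxe i hi] }
  have hW'0 : ∀ w' ∈ W', ∀ i, i ∉ S → w' i = 0 := by
    rintro w' ⟨h0, w, hw, hwl, he⟩ i hi
    by_cases hia : i = a
    · rw [hia]; exact h0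
    · rw [← he i hia]
      exact hW w hw i (by simp [hia, hi])
  have hW'1 : ∀ w' ∈ W', ∑ i, (w' i).1 * (w' i).2 = 0 := by
    rintro w' ⟨h0, w, hw, hwl, he⟩
    rw [← h w hw]
    refine Finset.sum_congr rfl fun i _ => ?_
    by_cases hia : i = a
    · rw [hia, h0, hℓ _ hwl]; simp
    · rw [he i hia]
  obtain ⟨I, hI⟩ := ih W' hW'0 hW'1
  refine ⟨I, fun w hw hwl hwI => ?_⟩
  have h1 : Function.update w a 0 ∈ W' := by
    refine ⟨by simp, w, hw, hwl, fun i hi => ?_⟩
    simp [Function.update_of_ne hi]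
  have h2 : Function.update w a 0 = 0 := by
    refine hI _ h1 fun i => ?_
    by_cases hia : i = a
    · subst hia
      simp
    · rw [Function.update_of_ne hia]
      exact hwI i hia
  refine hl w hw (fun i hi => ?_) hwl
  have h3 := congrFun h2 i
  rw [Function.update_of_ne hi] at h3
  exact h3

private theorem coord_aux {ι : Type*} [Fintype ι] [DecidableEq ι] (S : Finset ι) :
    ∀ W : AddSubgroup (ι → ZMod 2 × ZMod 2), (∀ w ∈ W, ∀ i, i ∉ S → w i = 0) →
      (∀ w ∈ W, ∑ i, (w i).1 * (w i).2 = 0) →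
      ∃ I : Set ι, ∀ w ∈ W, (∀ i, (i ∈ I → (w i).1 = 0) ∧ (i ∉ I → (w i).2 = 0)) → w = 0 := by
  induction S using Finset.induction_on with
  | empty =>
    intro W hW _
    exact ⟨∅, fun w hw _ => funext fun i => hW w hw i (by simp)⟩
  | insert a S haS ih =>
    intro W hW h
    let ℓ1 : AddSubgroup (ZMod 2 × ZMod 2) := (AddMonoidHom.fst (ZMod 2) (ZMod 2)).ker
    let ℓ2 : AddSubgroup (ZMod 2 × ZMod 2) := (AddMonoidHom.snd (ZMod 2) (ZMod 2)).ker
    have m1 : ∀ v : ZMod 2 × ZMod 2, v ∈ ℓ1 ↔ v.1 = 0 := fun v => Iff.rfl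
    have m2 : ∀ v : ZMod 2 × ZMod 2, v ∈ ℓ2 ↔ v.2 = 0 := fun v => Iff.rfl
    by_cases hc : ∀ w ∈ W, (∀ i, i ≠ a → w i = 0) → w a ∈ ℓ1 → w = 0
    · obtain ⟨I, hI⟩ := coord_step S a haS ℓ1 (fun v hv => by rw [(m1 v).mp hv, zero_mul]) ih W hW h hc
      refine ⟨insert a I, fun w hw hwI => hI w hw ((m1 _).mpr ((hwI a).1 (by simp))) fun i hi => ?_⟩
      refine ⟨fun h1 => (hwI i).1 (by simp [h1]), fun h1 => (hwI i).2 ?_⟩
      simp [hi, h1]
    · have hc2 : ∀ w ∈ W, (∀ i, i ≠ a → w i = 0) → w a ∈ ℓ2 → w = 0 := by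
        by_contra hc2
        push Not at hc hc2
        obtain ⟨u, hu, hu0, hul, hun⟩ := hc
        obtain ⟨v, hv, hv0, hvl, hvn⟩ := hc2
        have hul' : (u a).1 = 0 := (m1 _).mp hul
        have hvl' : (v a).2 = 0 := (m2 _).mp hvl
        have z : ∀ t : ZMod 2, t = 0 ∨ t = 1 := by decide
        have hu1 : (u a).2 = 1 := by
          rcases z (u a).2 with h0 | h0
          · exfalso
            apply hun
            funext i
            by_cases hia : i = a
            · rw [hia]; exact Prod.ext hul' h0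
            · exact hu0 i hia
          · exact h0
        have hv1 : (v a).1 = 1 := by
          rcases z (v a).1 with h0 | h0
          · exfalso
            apply hvn
            funext i
            by_cases hia : i = a
            · rw [hia]; exact Prod.ext h0 hvl'
            · exact hv0 i hia
          · exact h0
        have h3 := h (u + v) (W.add_mem hu hv)
        rw [Finset.sum_eq_single a] at h3
        · simp only [Pi.add_apply, Prod.fst_add, Prod.snd_add, hul', hvl', hu1, hv1] at h3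
          revert h3
          decide
        · intro i _ hi
          simp [hu0 i hi, hv0 i hi]
        · intro hn
          exact absurd (Finset.mem_univ a) hn
      obtain ⟨I, hI⟩ := coord_step S a haS ℓ2 (fun v hv => by rw [(m2 v).mp hv, mul_zero]) ih W hW h hc2
      refine ⟨I \ {a}, fun w hw hwI => hI w hw ((m2 _).mpr ((hwI a).2 (by simp))) fun i hi => ?_⟩
      refine ⟨fun h1 => (hwI i).1 (by simp [h1, hi]), fun h1 => (hwI i).2 ?_⟩
      simp [h1]

theorem coord_lagrangian {ι : Type*} [Fintype ι] (W : AddSubgroup (ι → ZMod 2 × ZMod 2))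
    (h : ∀ w ∈ W, ∑ i, (w i).1 * (w i).2 = 0) :
    ∃ I : Set ι, ∀ w ∈ W, (∀ i, (i ∈ I → (w i).1 = 0) ∧ (i ∉ I → (w i).2 = 0)) → w = 0 := by
  classical
  exact coord_aux Finset.univ W (fun w _ i hi => absurd (Finset.mem_univ i) hi) h

end Pool.Agent.H74.GR
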