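import Pool.Agent.H94.GG.Defs
import Pool.Agent.H74.FS.PlB

set_option autoImplicit false

/-!
# [H74 GR InfA] Reduction at infinity

`vI` is the valuation of `F(t)` at infinity, `vI (algebraMap p) = exp (natDegree p)` for `p ≠ 0` (see `ev_none`, `vl_inf_poly'` in `H74/FS/PlB` and the lemmas of `H94/PM` used there, `RatFunc.inftyValuation`), `vI X = exp 1`, constants
`≠ 0` have value one.
* `vI_coeff`: `p : F[X]`, `natDegree p ≤ N`: `vI (p / X ^ N - C (p.coeff N)) < 1`: `p - C (p.coeff N) * X ^ N` has degree `< N` (or is zero; for `N = 0` it is zero), divide by `X ^ N`.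
* `res_inf`: `x = p / q`, `vI x ≤ 1` means `deg p ≤ deg q`: `r = p.coeff (deg q) / leadingCoeff q`: `x - r = (p - r q) / q`, `deg (p - r q) < deg q` or `p = r q`.
* `scale_coeff`: the coefficient of `X ^ i` of `g' = (overK f).scaleRoots (X ^ h)⁻¹` is `f.coeff i / X ^ ((m - i) h)` (`Polynomial.coeff_scaleRoots`, `natDegree (overK f) = m`), so by `vI_coeff` (`Fam.coeff` for `i < m`, for
  `i = m` it is `1`, for `i > m` zero) it differs from the constant `(lead m h f).coeff i` by an element of value `< 1`, and it has value `≤ 1`.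
* `inf_bezout`: `ℓ = lead m h f` is monic of degree `m` (the coefficient `m` is `(f.coeff m).coeff 0 = 1`).  Let `Ub : F[X]`, `Ub = ∑ i ∈ range m, C (r i) X ^ i` with `r i` from `res_inf` for `U.coeff i` (all coefficients of
  index `≥ m` of `U` are zero).  `Ub ≠ 0`: for the `i` with `vI (U.coeff i) = 1` the residue is not zero.  `ℓ` is irreducible and does not divide `Ub` (degree), so `IsCoprime`: `a * Ub + b * ℓ = 1`.
  Let `'` denote the map `F[X] → (RatFunc F)[X]` (`Polynomial.map (algebraMap F (RatFunc F))` or `RatFunc.C`).  `u' = a'`, `E = a' * (U - Ub') + b' * (g' - ℓ')`: all coefficients of `U - Ub'`, `g' - ℓ'` have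
  value `< 1`, those of `a'`, `b'` have value `≤ 1` (constants), so those of `E` have value `< 1` (`Polynomial.coeff_mul`, `Valuation.map_sum_lt`).  `U a' - (1 + E) = U a' - 1 - a' U + a' Ub' - b' g' + b' ℓ' = - b' g'`.
-/

namespace Pool.Agent.H74.GR

open Polynomial Matrix IsDedekindDomain WithZero
open Pool.Agent.H94.GG (Fam lead)
open Pool.Agent.H80.CC.Plane (overK)
open Pool.Agent.H74.FS

variable {F : Type} [Field F] [DecidableEq (RatFunc F)]

/-- the valuation at infinity of `F(t)` -/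
noncomputable def vI (F : Type) [Field F] [DecidableEq (RatFunc F)] : Valuation (RatFunc F) ℤᵐ⁰ :=
  (vw (none : Pl F)).comap (iw none)

private lemma vI_poly {p : F[X]} (hp : p ≠ 0) :
    vI F (algebraMap F[X] (RatFunc F) p) = exp (p.natDegree : ℤ) := H94.LT.val_inf_poly hp

theorem vI_X : vI F RatFunc.X = exp (1 : ℤ) := by
  rw [← RatFunc.algebraMap_X, vI_poly X_ne_zero, natDegree_X]
  rfl

private lemma vI_C {c : F} (hc : c ≠ 0) : vI F (RatFunc.C c) = 1 := by
  rw [← RatFunc.algebraMap_C, vI_poly (C_ne_zero.2 hc), natDegree_C]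
  rfl

private lemma vI_C_le (c : F) : vI F (RatFunc.C c) ≤ 1 := by
  by_cases hc : c = 0
  · rw [hc, map_zero, map_zero]
    exact zero_le'
  · rw [vI_C hc]

private lemma small_div {q d : F[X]} (hd : d ≠ 0) (h : q.natDegree ≤ d.natDegree) (h0 : q.coeff d.natDegree = 0) :
    vI F (algebraMap F[X] (RatFunc F) q * (algebraMap F[X] (RatFunc F) d)⁻¹) < 1 := by
  by_cases hq : q = 0
  · rw [hq, map_zero, zero_mul, map_zero]
    exact zero_lt_one
  have hlt : q.natDegree < d.natDegree := by
    refine lt_of_le_of_ne h fun he => hq ?_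
    rw [← leadingCoeff_eq_zero, leadingCoeff, he, h0]
  rw [map_mul, map_inv₀, vI_poly hq, vI_poly hd, ← WithZero.exp_neg, ← WithZero.exp_add, ← WithZero.exp_zero, exp_lt_exp]
  omega

theorem vI_coeff (p : F[X]) {N : ℕ} (hp : p.natDegree ≤ N) :
    vI F (algebraMap F[X] (RatFunc F) p * (RatFunc.X ^ N)⁻¹ - RatFunc.C (p.coeff N)) < 1 := by
  have hX : (RatFunc.X : RatFunc F) ^ N ≠ 0 := pow_ne_zero _ RatFunc.X_ne_zero
  have e : algebraMap F[X] (RatFunc F) p * (RatFunc.X ^ N)⁻¹ - RatFunc.C (p.coeff N) =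
      algebraMap F[X] (RatFunc F) (p - C (p.coeff N) * X ^ N) * (algebraMap F[X] (RatFunc F) (X ^ N))⁻¹ := by
    rw [map_sub, map_mul, map_pow, RatFunc.algebraMap_X, RatFunc.algebraMap_C, sub_mul, mul_assoc,
      mul_inv_cancel₀ hX, mul_one]
  rw [e]
  refine small_div (pow_ne_zero _ X_ne_zero) ?_ ?_
  · rw [natDegree_X_pow]
    refine (natDegree_sub_le _ _).trans (max_le hp ?_)
    exact natDegree_C_mul_X_pow_le _ _
  · rw [natDegree_X_pow, coeff_sub, coeff_C_mul, coeff_X_pow_self, mul_one, sub_self]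

theorem res_inf (x : RatFunc F) (hx : vI F x ≤ 1) : ∃ r : F, vI F (x - RatFunc.C r) < 1 := by
  by_cases hx0 : x = 0
  · refine ⟨0, ?_⟩
    rw [hx0, map_zero, sub_zero, map_zero]
    exact zero_lt_one
  have hn : x.num ≠ 0 := RatFunc.num_ne_zero hx0
  have hd : x.denom ≠ 0 := RatFunc.denom_ne_zero x
  have hd' : algebraMap F[X] (RatFunc F) x.denom ≠ 0 := RatFunc.algebraMap_ne_zero hd
  have hx1 : x = algebraMap F[X] (RatFunc F) x.num * (algebraMap F[X] (RatFunc F) x.denom)⁻¹ := by
    rw [← div_eq_mul_inv, RatFunc.num_div_denom]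
  have hdeg : x.num.natDegree ≤ x.denom.natDegree := by
    rw [hx1, map_mul, map_inv₀, vI_poly hn, vI_poly hd, ← WithZero.exp_neg, ← WithZero.exp_add, ← WithZero.exp_zero, exp_le_exp] at hx
    omega
  have hl : x.denom.leadingCoeff ≠ 0 := leadingCoeff_ne_zero.2 hd
  refine ⟨x.num.coeff x.denom.natDegree / x.denom.leadingCoeff, ?_⟩
  set r := x.num.coeff x.denom.natDegree / x.denom.leadingCoeff with hr
  have e : x - RatFunc.C r = algebraMap F[X] (RatFunc F) (x.num - C r * x.denom) *
      (algebraMap F[X] (RatFunc F) x.denom)⁻¹ := by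
    rw [map_sub, map_mul, RatFunc.algebraMap_C, sub_mul, mul_assoc, mul_inv_cancel₀ hd', mul_one, ← hx1]
  rw [e]
  refine small_div hd ?_ ?_
  · exact (natDegree_sub_le _ _).trans (max_le hdeg (natDegree_C_mul_le _ _))
  · rw [coeff_sub, coeff_C_mul, coeff_natDegree, hr, div_mul_cancel₀ _ hl, sub_self]

private lemma lead_coeff (m h : ℕ) (f : F[X][X]) (i : ℕ) :
    (lead m h f).coeff i = if i ≤ m then (f.coeff i).coeff ((m - i) * h) else 0 := by
  unfold lead
  rw [finset_sum_coeff]
  simp only [coeff_C_mul, coeff_X_pow, mul_ite, mul_one, mul_zero]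
  by_cases hi : i ≤ m
  · rw [if_pos hi, Finset.sum_eq_single i]
    · rw [if_pos rfl]
    · intro j _ hj
      rw [if_neg hj.symm]
    · intro h1
      exact absurd (Finset.mem_range.2 (by omega)) h1
  · rw [if_neg hi]
    refine Finset.sum_eq_zero fun j hj => ?_
    rw [Finset.mem_range] at hj
    rw [if_neg (by omega)]

omit [DecidableEq (RatFunc F)] in
private lemma overK_deg {m h : ℕ} {f : F[X][X]} (hfam : Fam m h f) : (overK f).natDegree = m := by
  unfold overK
  rw [hfam.monic.natDegree_map, hfam.deg]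

private lemma scale_eq {m h : ℕ} {f : F[X][X]} (hfam : Fam m h f) (i : ℕ) :
    ((overK f).scaleRoots (RatFunc.X ^ h)⁻¹).coeff i =
      algebraMap F[X] (RatFunc F) (f.coeff i) * (RatFunc.X ^ ((m - i) * h))⁻¹ := by
  rw [coeff_scaleRoots, overK_deg hfam]
  unfold overK
  rw [coeff_map, inv_pow, ← pow_mul, mul_comm h]

theorem scale_coeff {m h : ℕ} {f : F[X][X]} (hfam : Fam m h f) (i : ℕ) :
    vI F (((overK f).scaleRoots (RatFunc.X ^ h)⁻¹).coeff i -
      RatFunc.C ((lead m h f).coeff i)) < 1 ∧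
    vI F (((overK f).scaleRoots (RatFunc.X ^ h)⁻¹).coeff i) ≤ 1 := by
  have h1 : vI F (((overK f).scaleRoots (RatFunc.X ^ h)⁻¹).coeff i -
      RatFunc.C ((lead m h f).coeff i)) < 1 := by
    rw [scale_eq hfam, lead_coeff]
    by_cases hi : i ≤ m
    · rw [if_pos hi]
      refine vI_coeff _ ?_
      rcases hi.lt_or_eq with h2 | h2
      · exact hfam.coeff i h2
      · have h3 : f.coeff i = 1 := by
          rw [h2, ← hfam.deg]
          exact hfam.monic
        rw [h3, natDegree_one]
        exact Nat.zero_le _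
    · rw [if_neg hi, coeff_eq_zero_of_natDegree_lt (by rw [hfam.deg]; omega), map_zero, zero_mul, map_zero,
        sub_zero, map_zero]
      exact zero_lt_one
  refine ⟨h1, ?_⟩
  have h2 := (vI F).map_add (((overK f).scaleRoots (RatFunc.X ^ h)⁻¹).coeff i -
      RatFunc.C ((lead m h f).coeff i)) (RatFunc.C ((lead m h f).coeff i))
  rw [sub_add_cancel] at h2
  exact h2.trans (max_le h1.le (vI_C_le _))

private lemma mul_small {a b : (RatFunc F)[X]} (ha : ∀ i, vI F (a.coeff i) ≤ 1) (hb : ∀ i, vI F (b.coeff i) < 1)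
    (i : ℕ) : vI F ((a * b).coeff i) < 1 := by
  rw [coeff_mul]
  refine Valuation.map_sum_lt _ one_ne_zero fun p _ => ?_
  rw [map_mul]
  exact mul_lt_one_of_nonneg_of_lt_one_right (ha _) zero_le' (hb _)

theorem inf_bezout {m h : ℕ} {f : F[X][X]} (hfam : Fam m h f) (hl : Irreducible (lead m h f))
    (U : (RatFunc F)[X]) (hdeg : ∀ i, m ≤ i → U.coeff i = 0) (hU : ∀ i, vI F (U.coeff i) ≤ 1)
    (hU1 : ∃ i, vI F (U.coeff i) = 1) :
    ∃ u' E : (RatFunc F)[X], (∀ i, vI F (u'.coeff i) ≤ 1) ∧ (∀ i, vI F (E.coeff i) < 1) ∧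
      (overK f).scaleRoots (RatFunc.X ^ h)⁻¹ ∣ U * u' - (C 1 + E) := by
  have hr := fun i => res_inf (U.coeff i) (hU i)
  choose r hr using hr
  set Ub : F[X] := ∑ i ∈ Finset.range m, C (r i) * X ^ i with hUb
  have hUbc : ∀ i, Ub.coeff i = if i < m then r i else 0 := by
    intro i
    rw [hUb, finset_sum_coeff]
    simp only [coeff_C_mul, coeff_X_pow, mul_ite, mul_one, mul_zero]
    by_cases hi : i < m
    · rw [if_pos hi, Finset.sum_eq_single i]
      · rw [if_pos rfl]
      · intro j _ hj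
        rw [if_neg hj.symm]
      · intro h1
        exact absurd (Finset.mem_range.2 hi) h1
    · rw [if_neg hi]
      refine Finset.sum_eq_zero fun j hj => ?_
      rw [Finset.mem_range] at hj
      rw [if_neg (by omega)]
  have hUb0 : Ub ≠ 0 := by
    intro h0
    obtain ⟨i, hi⟩ := hU1
    have him : i < m := by
      by_contra h1
      rw [hdeg i (by omega), map_zero] at hi
      exact zero_ne_one hi
    have h2 : r i = 0 := by
      have h3 := hUbc i
      rw [h0, coeff_zero, if_pos him] at h3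
      exact h3.symm
    have h4 := hr i
    rw [h2, map_zero, sub_zero, hi] at h4
    exact lt_irrefl _ h4
  have hlm : (lead m h f).coeff m = 1 := by
    rw [lead_coeff, if_pos le_rfl, Nat.sub_self, zero_mul]
    have h3 : f.coeff m = 1 := by
      rw [← hfam.deg]
      exact hfam.monic
    rw [h3, coeff_one_zero]
  have hcop : IsCoprime Ub (lead m h f) := by
    refine (hl.coprime_iff_not_dvd.2 ?_).symm
    refine not_dvd_of_degree_lt hUb0 ?_
    have h5 : Ub.degree < (m : WithBot ℕ) := by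
      rw [degree_lt_iff_coeff_zero]
      intro i hi
      rw [hUbc, if_neg (by omega)]
    refine h5.trans_le ?_
    exact le_degree_of_ne_zero (by rw [hlm]; exact one_ne_zero)
  obtain ⟨a, b, hab⟩ := hcop
  set φ : F[X] →+* (RatFunc F)[X] := mapRingHom RatFunc.C with hφ
  have hφc : ∀ (p : F[X]) i, (φ p).coeff i = RatFunc.C (p.coeff i) := fun p i => coeff_map _ _
  have hφle : ∀ (p : F[X]) i, vI F ((φ p).coeff i) ≤ 1 := fun p i => by
    rw [hφc]
    exact vI_C_le _
  have hab' : φ a * φ Ub + φ b * φ (lead m h f) = 1 := by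
    rw [← map_mul, ← map_mul, ← map_add, hab, map_one]
  have hs1 : ∀ i, vI F ((U - φ Ub).coeff i) < 1 := by
    intro i
    rw [coeff_sub, hφc, hUbc]
    by_cases hi : i < m
    · rw [if_pos hi]
      exact hr i
    · rw [if_neg hi, hdeg i (by omega), map_zero, sub_zero, map_zero]
      exact zero_lt_one
  have hs2 : ∀ i, vI F (((overK f).scaleRoots (RatFunc.X ^ h)⁻¹ - φ (lead m h f)).coeff i) < 1 := by
    intro i
    rw [coeff_sub, hφc]
    exact (scale_coeff hfam i).1
  refine ⟨φ a, φ a * (U - φ Ub) + φ b * ((overK f).scaleRoots (RatFunc.X ^ h)⁻¹ - φ (lead m h f)), hφle a, ?_, ?_⟩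
  · intro i
    rw [coeff_add]
    exact Valuation.map_add_lt _ (mul_small (hφle a) hs1 i) (mul_small (hφle b) hs2 i)
  · refine ⟨- φ b, ?_⟩
    rw [C_1, ← hab']
    ring

end Pool.Agent.H74.GR
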