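import Pool.Agent.H74.GR.Gra

/-!
# [H74 GR Loc] A criterion for the Gram matrix to be unimodular

`v` a valuation of the field `k`, `R = {v ≤ 1}`; `g` monic of degree `2 n + 1` with coefficients in `R`, `u`, `u'`, `E`, with coefficients in `R`, those of `E` of value `< 1`, `v c = 1`, and `u u' = c + E` modulo `g`.
Then the Gram matrix of `u` has entries in `R` and a determinant of value one.
PROOF.  (1) Polynomials with coefficients in `R` are closed under sums, products and `%ₘ g` (division by a monic polynomial; e.g. they are the range of `Polynomial.map (v.integer).subtype`, `Polynomial.map_modByMonic`, or the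
predicate `∀ i, v (p.coeff i) ≤ 1` and strong induction on the degree; the same with `< 1` for the ideal: a product of a polynomial with values `≤ 1` and one with values `< 1`, and its remainder modulo `g`, has values `< 1`).
So by `tau_mk` the entries of `gram (mk g u)` (`mk g (u * X ^ i * X ^ j)`) have value `≤ 1`, and so the determinant has value `≤ 1` (a sum of products, `Matrix.det_apply`, `Valuation.map_sum_le`).
(2) By `gram_det` `v (det gram u) = v (norm u)` (`v (-1) = 1`), so `v (norm u) ≤ 1`, the same for `u'`.  `norm u * norm u' = norm (mk g (C c + E))` (`Algebra.norm` is multiplicative, `AdjoinRoot.mk_eq_mk`).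
(3) `v (norm (c + E)) = 1`: `norm (c + E) = det (c • 1 + M)`, `M = leftMulMatrix` of `mk g E` in the power basis (`AdjoinRoot.powerBasis'`), the entries of `M` are the coefficients of `E * X ^ j %ₘ g`, of value `< 1`.
`det (c • 1 + M)`: let `ρ : R → R/𝔪` be the residue map of the valuation ring (`v.valuationSubring`, `IsLocalRing.residue`); the determinant of the matrix over `R` maps to `det (ρ c • 1) = (ρ c) ^ m ≠ 0`, so its value is `1`.
(Alternative without the residue field: `det (c • 1 + M) - c ^ m` has value `< 1`, by `Matrix.det_apply`: every permutation other than `1` has a factor in `M`, and the product over the diagonal `∏ (c + M i i)`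
differs from `c ^ m` by an element of value `< 1`.)
(4) `v (norm u) * v (norm u') = 1` with both `≤ 1` gives `v (norm u) = 1`.
-/

set_option autoImplicit false

namespace Pool.Agent.H74.GR

open Polynomial Matrix

section lift

variable {k Γ : Type} [Field k] [LinearOrderedCommGroupWithZero Γ] (v : Valuation k Γ)

private theorem lift_poly (p : k[X]) (hp : ∀ i, v (p.coeff i) ≤ 1) :
    ∃ q : (v.integer)[X], q.map v.integer.subtype = p := by
  refine ⟨p.toSubring v.integer ?_, map_toSubring _ _ _⟩
  intro c hc
  rw [Finset.mem_coe, mem_coeffs_iff] at hc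
  obtain ⟨n, -, rfl⟩ := hc
  exact hp n

private theorem coeff_val {p : k[X]} {q : (v.integer)[X]} (h : q.map v.integer.subtype = p) (i : ℕ) :
    ((q.coeff i : v.integer) : k) = p.coeff i := by
  rw [← h, coeff_map]
  rfl

private theorem monic_lift {p : k[X]} {q : (v.integer)[X]} (h : q.map v.integer.subtype = p)
    (hp : p.Monic) : q.Monic := by
  have hinj : Function.Injective v.integer.subtype := Subtype.coe_injective
  rw [← h] at hp
  exact Polynomial.monic_of_injective hinj hp

private theorem deg_lift {p : k[X]} {q : (v.integer)[X]} (h : q.map v.integer.subtype = p) :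
    q.natDegree = p.natDegree := by
  have hinj : Function.Injective v.integer.subtype := Subtype.coe_injective
  rw [← h, natDegree_map_eq_of_injective hinj]

/-- matrix of the multiplication with `p` -/
private noncomputable def MR (q p : (v.integer)[X]) (d : ℕ) : Matrix (Fin d) (Fin d) v.integer :=
  Matrix.of fun l j => ((p * X ^ (j : ℕ)) %ₘ q).coeff l

private theorem normR {g : k[X]} (hg : g.Monic) {q : (v.integer)[X]} (hq : q.map v.integer.subtype = g)
    (p : (v.integer)[X]) :
    Algebra.norm k (AdjoinRoot.mk g (p.map v.integer.subtype)) =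
      v.integer.subtype (MR v q p g.natDegree).det := by
  rw [Algebra.norm_eq_matrix_det (AdjoinRoot.powerBasisAux' hg), RingHom.map_det]
  congr 1
  ext l j
  rw [Algebra.leftMulMatrix_eq_repr_mul, AdjoinRoot.powerBasisAux'_repr_apply_to_fun]
  have h1 : (AdjoinRoot.powerBasisAux' hg) j = AdjoinRoot.root g ^ (j : ℕ) :=
    (AdjoinRoot.powerBasis' hg).basis_eq_pow j
  have h2 : AdjoinRoot.mk g (p.map v.integer.subtype) * AdjoinRoot.root g ^ (j : ℕ) =
      AdjoinRoot.mk g ((p * X ^ (j : ℕ)).map v.integer.subtype) := by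
    rw [Polynomial.map_mul, Polynomial.map_pow, Polynomial.map_X, map_mul, map_pow, AdjoinRoot.mk_X]
  rw [h1, h2, AdjoinRoot.modByMonicHom_mk, RingHom.mapMatrix_apply, Matrix.map_apply]
  have h3 := Polynomial.map_modByMonic (p := p * X ^ (j : ℕ)) v.integer.subtype (monic_lift v hq hg)
  rw [hq] at h3
  rw [← h3, coeff_map]
  rfl

/-- the ideal of the elements of value `< 1` -/
private def mI : Ideal v.integer where
  carrier := {x | v (x : k) < 1}
  add_mem' := by
    intro a b ha hb
    exact lt_of_le_of_lt (v.map_add _ _) (max_lt ha hb)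
  zero_mem' := by
    show v ((0 : v.integer) : k) < 1
    rw [ZeroMemClass.coe_zero, map_zero]
    exact zero_lt_one
  smul_mem' := by
    intro c x hx
    show v ((c • x : v.integer) : k) < 1
    rw [smul_eq_mul, MulMemClass.coe_mul, map_mul]
    calc v (c : k) * v (x : k) ≤ 1 * v (x : k) := mul_le_mul_left c.2 _
      _ = v (x : k) := one_mul _
      _ < 1 := hx

private theorem mem_mI (x : v.integer) : x ∈ mI v ↔ v (x : k) < 1 := Iff.rfl

/-- the determinant of `c + E` has value one -/
private theorem det_val {g : k[X]} (hg : g.Monic) {q : (v.integer)[X]} (hq : q.map v.integer.subtype = g)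
    (c : v.integer) (hc : v (c : k) = 1) (E : (v.integer)[X]) (hE : ∀ i, v ((E.coeff i : v.integer) : k) < 1) :
    v (((MR v q (C c + E) g.natDegree).det : v.integer) : k) = 1 := by
  have hqm := monic_lift v hq hg
  have hM : (Ideal.Quotient.mk (mI v)).mapMatrix (MR v q (C c + E) g.natDegree) =
      (Ideal.Quotient.mk (mI v) c) • (1 : Matrix (Fin g.natDegree) (Fin g.natDegree) (v.integer ⧸ mI v)) := by
    ext l j
    rw [RingHom.mapMatrix_apply, Matrix.map_apply, Matrix.smul_apply, Matrix.one_apply]
    have h1 : MR v q (C c + E) g.natDegree l j = (C c * X ^ (j : ℕ) : (v.integer)[X]).coeff l +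
        ((E * X ^ (j : ℕ)) %ₘ q).coeff l := by
      show (((C c + E) * X ^ (j : ℕ)) %ₘ q).coeff l = _
      rw [add_mul, add_modByMonic, coeff_add]
      congr 2
      rw [modByMonic_eq_self_iff hqm]
      refine lt_of_le_of_lt (degree_C_mul_X_pow_le _ _) ?_
      rw [degree_eq_natDegree hqm.ne_zero, deg_lift v hq]
      exact_mod_cast j.2
    have h2 : Ideal.Quotient.mk (mI v) (((E * X ^ (j : ℕ)) %ₘ q).coeff l) = 0 := by
      rw [← coeff_map, Polynomial.map_modByMonic _ hqm, Polynomial.map_mul]
      have h3 : E.map (Ideal.Quotient.mk (mI v)) = 0 := by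
        ext i
        rw [coeff_map, coeff_zero, Ideal.Quotient.eq_zero_iff_mem, mem_mI]
        exact hE i
      rw [h3, zero_mul, zero_modByMonic, coeff_zero]
    rw [h1, map_add, h2, add_zero, coeff_C_mul_X_pow]
    by_cases hlj : l = j
    · subst hlj
      rw [if_pos rfl, if_pos rfl, smul_eq_mul, mul_one]
    · rw [if_neg (fun h => hlj (Fin.ext h)), if_neg hlj, map_zero, smul_zero]
  have hdet : Ideal.Quotient.mk (mI v) (MR v q (C c + E) g.natDegree).det =
      Ideal.Quotient.mk (mI v) (c ^ g.natDegree) := by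
    rw [RingHom.map_det, hM, Matrix.det_smul, Matrix.det_one, mul_one, Fintype.card_fin, map_pow]
  rw [Ideal.Quotient.eq, mem_mI] at hdet
  have h4 : v ((c ^ g.natDegree : v.integer) : k) = 1 := by
    rw [SubmonoidClass.coe_pow, map_pow, hc, one_pow]
  have h5 : (((MR v q (C c + E) g.natDegree).det : v.integer) : k) =
      (((MR v q (C c + E) g.natDegree).det - c ^ g.natDegree : v.integer) : k) +
        ((c ^ g.natDegree : v.integer) : k) := by
    rw [AddSubgroupClass.coe_sub]
    ring
  rw [h5, v.map_add_eq_of_lt_right (by rw [h4]; exact hdet), h4]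

end lift

theorem loc_unim {k Γ : Type} [Field k] [LinearOrderedCommGroupWithZero Γ] (v : Valuation k Γ)
    {g : k[X]} (hg : g.Monic) {n : ℕ} (hm : g.natDegree = 2 * n + 1)
    (hgi : ∀ i, v (g.coeff i) ≤ 1) (u u' E : k[X]) (c : k) (hu : ∀ i, v (u.coeff i) ≤ 1)
    (hu' : ∀ i, v (u'.coeff i) ≤ 1) (hE : ∀ i, v (E.coeff i) < 1) (hc : v c = 1)
    (h : g ∣ u * u' - (C c + E)) :
    (∀ i j, v (gram hg n (AdjoinRoot.mk g u) i j) ≤ 1) ∧
      v (gram hg n (AdjoinRoot.mk g u)).det = 1 := by
  obtain ⟨q, hq⟩ := lift_poly v g hgi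
  obtain ⟨U, hU⟩ := lift_poly v u hu
  obtain ⟨U', hU'⟩ := lift_poly v u' hu'
  obtain ⟨F, hF⟩ := lift_poly v E (fun i => (hE i).le)
  have hqm := monic_lift v hq hg
  refine ⟨fun i j => ?_, ?_⟩
  · have h1 : gram hg n (AdjoinRoot.mk g u) i j =
        (((((U * X ^ (i : ℕ) * X ^ (j : ℕ)) %ₘ q).coeff (g.natDegree - 1) : v.integer)) : k) := by
      show Pool.Agent.H94.GG.tau hg (AdjoinRoot.mk g u * AdjoinRoot.root g ^ (i : ℕ) *
        AdjoinRoot.root g ^ (j : ℕ)) = _
      rw [← AdjoinRoot.mk_X, ← map_pow, ← map_pow, ← map_mul, ← map_mul, tau_mk]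
      have h2 := Polynomial.map_modByMonic (p := U * X ^ (i : ℕ) * X ^ (j : ℕ)) v.integer.subtype hqm
      rw [hq, Polynomial.map_mul, Polynomial.map_mul, Polynomial.map_pow, Polynomial.map_pow,
        Polynomial.map_X, hU] at h2
      exact (coeff_val v h2 _).symm
    rw [h1]
    exact (((U * X ^ (i : ℕ) * X ^ (j : ℕ)) %ₘ q).coeff (g.natDegree - 1)).2
  · have hv1 : v ((-1 : k) ^ n) = 1 := by
      rw [map_pow, Valuation.map_neg, map_one, one_pow]
    have hN : ∀ P : (v.integer)[X], v (Algebra.norm k (AdjoinRoot.mk g (P.map v.integer.subtype))) ≤ 1 := by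
      intro P
      rw [normR v hg hq P]
      exact ((MR v q P g.natDegree).det).2
    have h1 := hN U
    have h2 := hN U'
    rw [hU] at h1
    rw [hU'] at h2
    obtain ⟨c', hc'⟩ : ∃ c' : v.integer, (c' : k) = c := ⟨⟨c, hc.le⟩, rfl⟩
    have h3 : AdjoinRoot.mk g u * AdjoinRoot.mk g u' =
        AdjoinRoot.mk g ((C c' + F : (v.integer)[X]).map v.integer.subtype) := by
      rw [← map_mul, AdjoinRoot.mk_eq_mk, Polynomial.map_add, Polynomial.map_C, hF]
      have : (v.integer.subtype c' : k) = c := hc'
      rw [this]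
      exact h
    have h4 : v (Algebra.norm k (AdjoinRoot.mk g u)) * v (Algebra.norm k (AdjoinRoot.mk g u')) = 1 := by
      rw [← map_mul, ← map_mul, h3, normR v hg hq]
      refine det_val v hg hq c' (by rw [hc']; exact hc) F fun i => ?_
      rw [coeff_val v hF]
      exact hE i
    rw [gram_det hg hm, map_mul, hv1, one_mul]
    refine le_antisymm h1 ?_
    rw [← h4]
    calc v (Algebra.norm k (AdjoinRoot.mk g u)) * v (Algebra.norm k (AdjoinRoot.mk g u'))
        ≤ v (Algebra.norm k (AdjoinRoot.mk g u)) * 1 := mul_le_mul_right h2 _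
      _ = v (Algebra.norm k (AdjoinRoot.mk g u)) := mul_one _

end Pool.Agent.H74.GR
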