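import Mathlib

set_option autoImplicit false

/-!
# [H74 GR Fiv] A quadratic form in five variables over `F(t)` has a zero (Chevalley, Warning)

1. Clear the denominators: there is `s ≠ 0` in `F[X]` with `s * G i j ∈ F[X]` for all `i`, `j` (`IsLocalization.exist_integer_multiples_of_finset`, `IsFractionRing`), and the zeros do not change.  So let
   `G i j = algebraMap (A i j)`, `A i j : F[X]`, all of degree `≤ e`.
2. Let `N = 2 * e + 1`.  Unknowns `X (i, a)`, `i : Fin n`, `a ∈ Fin (N + 1)`, `x i = ∑ a, X (i, a) t ^ a`.  The coefficient of `t ^ c` in `∑ i j, A i j x i x j`, `c ≤ e + 2 N`, is the value of the polynomial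
   `f c = ∑ i j, ∑ a b, C ((A i j).coeff (c - a - b)) * X (i, a) * X (j, b)` (the summand is absent if `a + b > c`) in `MvPolynomial (Fin n × Fin (N + 1)) F`, of total degree `≤ 2` and without constant term.
   `(e + 2 N + 1) * 2 < n (N + 1)` as `n ≥ 5`: `5 (N + 1) - 2 (e + 2 N + 1) = N + 3 - 2 e > 0`.  By Chevalley, Warning
   (`char_dvd_card_solutions_of_sum_lt` in Mathlib, `MvPolynomial`, for a family indexed by a finset) the number of common zeros is divisible by `p = ringChar F`; `0` is one, so there is another one (`p ≥ 2`).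
3. The polynomials `x i` are not all zero and `∑ i j, A i j x i x j = 0`, as the coefficients of index `≤ e + 2 N` vanish and the degree is at most `e + 2 N`.
It may be convenient to prove first a version over `F[X]`: `∀ A : Matrix (Fin n) (Fin n) F[X], ∃ x : Fin n → F[X], x ≠ 0 ∧ ∑ i, ∑ j, A i j * (x i * x j) = 0`.
-/

namespace Pool.Agent.H74.GR

open Matrix Polynomial

/-- the coefficient of `t ^ c` of the form as a polynomial in the unknown coefficients -/
private noncomputable def fc {F : Type*} [Field F] {n : ℕ} (A : Matrix (Fin n) (Fin n) F[X])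
    (N c : ℕ) : MvPolynomial (Fin n × Fin (N + 1)) F :=
  ∑ i : Fin n, ∑ j : Fin n, ∑ a : Fin (N + 1), ∑ b : Fin (N + 1),
    if (a : ℕ) + (b : ℕ) ≤ c then
      MvPolynomial.C ((A i j).coeff (c - ((a : ℕ) + (b : ℕ)))) * MvPolynomial.X (i, a) *
        MvPolynomial.X (j, b) else 0

private theorem fc_degree {F : Type*} [Field F] {n : ℕ} (A : Matrix (Fin n) (Fin n) F[X])
    (N c : ℕ) : (fc A N c).totalDegree ≤ 2 := by
  unfold fc
  apply MvPolynomial.totalDegree_finsetSum_le
  intro i _
  apply MvPolynomial.totalDegree_finsetSum_le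
  intro j _
  apply MvPolynomial.totalDegree_finsetSum_le
  intro a _
  apply MvPolynomial.totalDegree_finsetSum_le
  intro b _
  by_cases h : (a : ℕ) + (b : ℕ) ≤ c
  · rw [if_pos h]
    refine le_trans (MvPolynomial.totalDegree_mul _ _) ?_
    have h1 : (MvPolynomial.C ((A i j).coeff (c - ((a : ℕ) + (b : ℕ)))) *
        MvPolynomial.X (i, a) : MvPolynomial (Fin n × Fin (N + 1)) F).totalDegree ≤ 1 := by
      refine le_trans (MvPolynomial.totalDegree_mul _ _) ?_
      rw [MvPolynomial.totalDegree_C, MvPolynomial.totalDegree_X]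
    rw [MvPolynomial.totalDegree_X]
    omega
  · rw [if_neg h]
    simp

private theorem fc_eval {F : Type*} [Field F] {n : ℕ} (A : Matrix (Fin n) (Fin n) F[X])
    (N c : ℕ) (v : Fin n × Fin (N + 1) → F) :
    MvPolynomial.eval v (fc A N c) =
      (∑ i : Fin n, ∑ j : Fin n, A i j * ((∑ a : Fin (N + 1), C (v (i, a)) * X ^ (a : ℕ)) *
        (∑ b : Fin (N + 1), C (v (j, b)) * X ^ (b : ℕ)))).coeff c := by
  unfold fc
  rw [map_sum, Polynomial.finsetSum_coeff]
  apply Finset.sum_congr rfl
  intro i _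
  rw [map_sum, Polynomial.finsetSum_coeff]
  apply Finset.sum_congr rfl
  intro j _
  have h1 : A i j * ((∑ a : Fin (N + 1), C (v (i, a)) * X ^ (a : ℕ)) *
        (∑ b : Fin (N + 1), C (v (j, b)) * X ^ (b : ℕ))) =
      ∑ a : Fin (N + 1), ∑ b : Fin (N + 1),
        (A i j * C (v (i, a) * v (j, b))) * X ^ ((a : ℕ) + (b : ℕ)) := by
    rw [Finset.sum_mul_sum, Finset.mul_sum]
    apply Finset.sum_congr rfl
    intro a _
    rw [Finset.mul_sum]
    apply Finset.sum_congr rfl
    intro b _
    rw [C_mul, pow_add]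
    ring
  rw [h1, map_sum, Polynomial.finsetSum_coeff]
  apply Finset.sum_congr rfl
  intro a _
  rw [map_sum, Polynomial.finsetSum_coeff]
  apply Finset.sum_congr rfl
  intro b _
  rw [Polynomial.coeff_mul_X_pow']
  by_cases h : (a : ℕ) + (b : ℕ) ≤ c
  · rw [if_pos h, if_pos h, Polynomial.coeff_mul_C]
    simp only [map_mul, MvPolynomial.eval_C, MvPolynomial.eval_X]
    ring
  · rw [if_neg h, if_neg h, map_zero]

private theorem high_zero {F : Type*} [Field F] {n : ℕ} (A : Matrix (Fin n) (Fin n) F[X])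
    (N e c : ℕ) (he : ∀ i j, (A i j).natDegree ≤ e) (hc : e + 2 * N < c)
    (v : Fin n × Fin (N + 1) → F) :
      (∑ i : Fin n, ∑ j : Fin n, A i j * ((∑ a : Fin (N + 1), C (v (i, a)) * X ^ (a : ℕ)) *
        (∑ b : Fin (N + 1), C (v (j, b)) * X ^ (b : ℕ)))).coeff c = 0 := by
  have hx : ∀ i : Fin n, (∑ a : Fin (N + 1), C (v (i, a)) * X ^ (a : ℕ)).natDegree ≤ N := by
    intro i
    apply Polynomial.natDegree_sum_le_of_forall_le
    intro a _
    refine le_trans (Polynomial.natDegree_C_mul_X_pow_le _ _) ?_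
    omega
  rw [Polynomial.finsetSum_coeff]
  apply Finset.sum_eq_zero
  intro i _
  rw [Polynomial.finsetSum_coeff]
  apply Finset.sum_eq_zero
  intro j _
  apply Polynomial.coeff_eq_zero_of_natDegree_lt
  refine lt_of_le_of_lt (Polynomial.natDegree_mul_le) ?_
  have h1 := he i j
  have h2 := hx i
  have h3 := hx j
  have h4 := Polynomial.natDegree_mul_le (p := ∑ a : Fin (N + 1), C (v (i, a)) * X ^ (a : ℕ))
    (q := ∑ b : Fin (N + 1), C (v (j, b)) * X ^ (b : ℕ))
  omega

private theorem poly_zero {F : Type*} [Field F] [Finite F] {n : ℕ} (hn : 5 ≤ n)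
    (A : Matrix (Fin n) (Fin n) F[X]) :
    ∃ x : Fin n → F[X], x ≠ 0 ∧ ∑ i, ∑ j, A i j * (x i * x j) = 0 := by
  classical
  have : Fintype F := Fintype.ofFinite F
  obtain ⟨e, he⟩ : ∃ e : ℕ, ∀ i j, (A i j).natDegree ≤ e := by
    refine ⟨∑ i, ∑ j, (A i j).natDegree, fun i j => ?_⟩
    refine le_trans ?_ (Finset.single_le_sum (f := fun i => ∑ j, (A i j).natDegree)
      (fun _ _ => Nat.zero_le _) (Finset.mem_univ i))
    exact Finset.single_le_sum (f := fun j => (A i j).natDegree)
      (fun _ _ => Nat.zero_le _) (Finset.mem_univ j)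
  obtain ⟨N, hN⟩ : ∃ N : ℕ, N = 2 * e + 1 := ⟨_, rfl⟩
  obtain ⟨p, hp⟩ := CharP.exists F
  have hcard : (∑ c ∈ Finset.range (e + 2 * N + 1), (fc A N c).totalDegree) <
      Fintype.card (Fin n × Fin (N + 1)) := by
    have h1 : (∑ c ∈ Finset.range (e + 2 * N + 1), (fc A N c).totalDegree) ≤
        ∑ _c ∈ Finset.range (e + 2 * N + 1), 2 :=
      Finset.sum_le_sum (fun c _ => fc_degree A N c)
    rw [Finset.sum_const, Finset.card_range, smul_eq_mul] at h1
    rw [Fintype.card_prod, Fintype.card_fin, Fintype.card_fin]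
    have h2 : 5 * (N + 1) ≤ n * (N + 1) := Nat.mul_le_mul_right _ hn
    omega
  have hdvd := char_dvd_card_solutions_of_sum_lt p hcard
  rw [← Nat.card_eq_fintype_card] at hdvd
  have hp1 : p ≠ 1 := CharP.char_ne_one F p
  have hzero : ∀ c ∈ Finset.range (e + 2 * N + 1),
      MvPolynomial.eval (0 : Fin n × Fin (N + 1) → F) (fc A N c) = 0 := by
    intro c _
    rw [fc_eval]
    simp
  have hex : ∃ v : Fin n × Fin (N + 1) → F, v ≠ 0 ∧
      ∀ c ∈ Finset.range (e + 2 * N + 1), MvPolynomial.eval v (fc A N c) = 0 := by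
    by_contra hcon
    push Not at hcon
    have hone : Nat.card {x : Fin n × Fin (N + 1) → F //
        ∀ i ∈ Finset.range (e + 2 * N + 1), MvPolynomial.eval x (fc A N i) = 0} = 1 := by
      rw [Nat.card_eq_one_iff_exists]
      refine ⟨⟨0, hzero⟩, ?_⟩
      rintro ⟨y, hy⟩
      apply Subtype.ext
      by_contra hy0
      obtain ⟨c, hc, hc'⟩ := hcon y hy0
      exact hc' (hy c hc)
    rw [hone] at hdvd
    exact hp1 (Nat.dvd_one.1 hdvd)
  obtain ⟨v, hv0, hv⟩ := hex
  refine ⟨fun i => ∑ a : Fin (N + 1), C (v (i, a)) * X ^ (a : ℕ), ?_, ?_⟩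
  · intro h
    apply hv0
    funext ia
    obtain ⟨i, a⟩ := ia
    have h1 := congrFun h i
    have h2 := congrArg (fun q : F[X] => q.coeff (a : ℕ)) h1
    simp only [Pi.zero_apply, Polynomial.coeff_zero, Polynomial.finsetSum_coeff,
      Polynomial.coeff_C_mul, Polynomial.coeff_X_pow] at h2
    rw [Finset.sum_eq_single a] at h2
    · simpa using h2
    · intro b _ hb
      have : (a : ℕ) ≠ (b : ℕ) := fun h => hb (Fin.ext h.symm)
      rw [if_neg this, mul_zero]
    · intro h
      exact absurd (Finset.mem_univ a) h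
  · ext c
    rw [Polynomial.coeff_zero]
    by_cases hc : c < e + 2 * N + 1
    · rw [← fc_eval]
      exact hv c (Finset.mem_range.2 hc)
    · exact high_zero A N e c he (by omega) v

theorem five_zero {F : Type*} [Field F] [Finite F] {n : ℕ} (hn : 5 ≤ n)
    (G : Matrix (Fin n) (Fin n) (RatFunc F)) : ∃ x : Fin n → RatFunc F, x ≠ 0 ∧ x ⬝ᵥ G *ᵥ x = 0 := by
  classical
  obtain ⟨s, hs⟩ := IsLocalization.exist_integer_multiples_of_finite (nonZeroDivisors F[X])
    (fun ij : Fin n × Fin n => G ij.1 ij.2)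
  have hs0 : algebraMap F[X] (RatFunc F) (s : F[X]) ≠ 0 := by
    intro h
    have h1 : (s : F[X]) = 0 := by
      apply RatFunc.algebraMap_injective F
      rw [h, map_zero]
    exact nonZeroDivisors.coe_ne_zero s h1
  choose A hA using hs
  obtain ⟨x, hx0, hx⟩ := poly_zero hn (fun i j => A (i, j))
  refine ⟨fun i => algebraMap F[X] (RatFunc F) (x i), ?_, ?_⟩
  · intro h
    apply hx0
    funext i
    have h1 := congrFun h i
    apply RatFunc.algebraMap_injective F
    rw [Pi.zero_apply, map_zero]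
    exact h1
  · have h1 : algebraMap F[X] (RatFunc F) (s : F[X]) *
        ((fun i => algebraMap F[X] (RatFunc F) (x i)) ⬝ᵥ
          G *ᵥ (fun i => algebraMap F[X] (RatFunc F) (x i))) = 0 := by
      have h2 := congrArg (algebraMap F[X] (RatFunc F)) hx
      rw [map_zero] at h2
      rw [← h2, map_sum]
      unfold dotProduct
      rw [Finset.mul_sum]
      apply Finset.sum_congr rfl
      intro i _
      rw [map_sum]
      unfold Matrix.mulVec dotProduct
      rw [Finset.mul_sum, Finset.mul_sum]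
      apply Finset.sum_congr rfl
      intro j _
      have h3 := hA (i, j)
      rw [Algebra.smul_def] at h3
      rw [map_mul, map_mul, h3]
      ring
    exact (mul_eq_zero.1 h1).resolve_left hs0

end Pool.Agent.H74.GR
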