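import Pool.Agent.H74.GR.Red
import Pool.Agent.H74.GR.Fiv
import Pool.Agent.H74.FS.REC
import Pool.Agent.H94.PL.Ech

set_option autoImplicit false

/-!
# [H74 GR Par] The number of the places where a form has no isotropic subspace of dimension `g` is even

`red` with `h5 = five_zero` gives `a`, `b`.  By `hs_norm` (`iw w a ≠ 0`: `iw_ne`) `IsoM (G.map (iw w)) g ↔ hw χ w a b = 0` for every place `w`.  Let `S` be a finset of places with `ev w (iw w a) = 0 = ev w (iw w b)` outside `S`
(the finiteness of the support of `ev`: `ev_fin` in `H74/FS/PlB` or `REC`), `T = S.filter (hw χ w a b ≠ 0)`.  Outside `S` `hw_even`.  The sum over `S` is the cast of `T.card` (the values in `ZMod 2` are `0` or `1`), and it is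
zero by `hw_sum`, so `T.card` is even (`ZMod.natCast_eq_zero_iff_even` / `CharP.cast_eq_zero_iff`).
`χ` exists: the statement has no `χ`, take the character of order two (see how `H74/FS` or `H3/FS` obtain `χ : LChar F 2` from `2 ∣ card F - 1`; `H94.PL` has an existence lemma for `LChar`).
-/

namespace Pool.Agent.H74.GR

open Matrix Pool.Agent.H74.FS

private theorem two_ne_rat {F : Type} [Field F] [Finite F] (hq : 2 ∣ Nat.card F - 1) :
    (2 : RatFunc F) ≠ 0 := by
  have hF : (2 : F) ≠ 0 := by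
    intro h
    have : Fintype F := Fintype.ofFinite F
    have hc : CharP F 2 := CharTwo.of_one_ne_zero_of_two_eq_zero one_ne_zero h
    have h1 : 2 ∣ Fintype.card F := by
      obtain ⟨n, hp, hcard⟩ := FiniteField.card F 2
      rw [hcard]
      exact dvd_pow_self 2 n.ne_zero
    have h2 : 1 < Nat.card F := Finite.one_lt_card
    rw [Nat.card_eq_fintype_card] at hq h2
    omega
  intro h
  apply hF
  have : algebraMap F (RatFunc F) 2 = 0 := by
    rw [map_ofNat, h]
  exact (map_eq_zero _).1 this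

private theorem zmod2_ne {x : ZMod 2} (h : x ≠ 0) : x = 1 := by
  revert x
  decide

theorem parity {F : Type} [Field F] [DecidableEq (RatFunc F)] [Finite F]
    (hq : 2 ∣ Nat.card F - 1) (g : ℕ)
    (G : Matrix (Fin (2 * g + 1)) (Fin (2 * g + 1)) (RatFunc F)) (hG : G.IsSymm) (s : RatFunc F)
    (hs : s ≠ 0) (hd : G.det = (-1) ^ g * s ^ 2) :
    ∃ T : Finset (Pl F), Even T.card ∧ ∀ w : Pl F, w ∈ T ↔ ¬ IsoM (G.map (iw w)) g := by
  classical
  obtain ⟨χ⟩ := Pool.Agent.H94.PL.exists_LChar F Nat.prime_two hq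
  obtain ⟨a, b, ha, hb, hab⟩ := red (two_ne_rat hq) (fun n G hn => five_zero hn G) g G hG s hs hd
  have key : ∀ w : Pl F, IsoM (G.map (iw w)) g ↔ hw χ w a b = 0 := fun w =>
    (hab (Kw F w) (iw w)).trans (hs_norm χ hq (iw_ne ha) (iw_ne hb)).symm
  have hfin := (ev_fin ha).union (ev_fin hb)
  have hS : ∀ w, w ∉ hfin.toFinset → ev w (iw w a) = 0 ∧ ev w (iw w b) = 0 := by
    intro w h
    rw [Set.Finite.mem_toFinset, Set.mem_union, not_or] at h
    exact ⟨not_not.1 h.1, not_not.1 h.2⟩
  refine ⟨hfin.toFinset.filter (fun w => hw χ w a b ≠ 0), ?_, fun w => ?_⟩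
  · have h0 := hw_sum χ hfin.toFinset ha hb hS
    have h1 : ∑ w ∈ hfin.toFinset, hw χ w a b =
        ((hfin.toFinset.filter (fun w => hw χ w a b ≠ 0)).card : ZMod 2) := by
      rw [Finset.card_eq_sum_ones, Nat.cast_sum, Finset.sum_filter]
      refine Finset.sum_congr rfl fun w _ => ?_
      by_cases h : hw χ w a b = 0
      · rw [if_neg (not_not.2 h), h]
      · rw [if_pos h, zmod2_ne h, Nat.cast_one]
    rw [h1] at h0
    exact (ZMod.natCast_eq_zero_iff_even).1 h0
  · rw [Finset.mem_filter, key w]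
    refine ⟨fun h => h.2, fun h => ⟨?_, h⟩⟩
    by_contra hw'
    exact h (hw_even χ (hS w hw').1 (hS w hw').2)

end Pool.Agent.H74.GR
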