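import Pool.Agent.H74.GR.Gra
import Pool.Agent.H74.GR.Par

set_option autoImplicit false

/-!
# [H74 GR Pla] The number of the places where the form of `β` has no isotropic subspace of dimension `g` is even

`toLw f w : L → L ⊗ K_w` for all places `w : Pl F` (`none` is infinity), `fw f w` the polynomial over `Kw F w`.
* `exists_pl`: copy of the private lemma `exists_place` of `H94/PN/SRJ2.lean` (a prime of `F[X]` is generated by a monic irreducible polynomial).
* `isot_some`: by definition (`rfl` or `Iff.rfl` after `subst`/`show`): for `w = some ⟨P, hP, hi⟩` `Kw F w` is `(LT.place P hi).adicCompletion (RatFunc F)`, `iw w` its `algebraMap`, `fw f w = overKv f (LT.place P hi)`,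
  `toLw f w = toLv f (LT.place P hi)`.  (If `rfl` is slow: `unfold` step by step; the instances of `Kw F (some _)` are `inferInstanceAs` of those of the completion.)
* `parity_f`: `y ≠ 0` since `β ≠ 0` in the field `AdjoinRoot (overK f)` (`Fact (Irreducible ..)`, `Algebra.norm_ne_zero_iff` or `Algebra.norm_eq_zero_iff`).  `G = gram (hf.map _) g β`, symmetric (`gram_symm`), `det G = (-1) ^ g * y ^ 2`
  (`gram_det`; `natDegree (overK f) = 2 g + 1`: `Monic.natDegree_map`).  `parity` (with `2 ∣ card F - 1` from `H3.FS.fin_q`) gives `T`.  For each `w`: `Isot (fw f w) (toLw f w β) ↔ IsoM (gram _ g (toLw f w β)) g` (`isot_iff`) and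
  the matrix is `G.map (iw w)` (`gram_map`).
* `rec_one`: `T` from `parity_f`; `v = LT.place P hi`.  All `w ≠ some P` are not in `T` (`hoo`, `h`), so `T ⊆ {some P}` has at most one element and is even, so `T = ∅`.
-/

namespace Pool.Agent.H74.GR

open Polynomial Matrix IsDedekindDomain
open Pool.Agent.H94 (LT.place)
open Pool.Agent.H94.GG (tau Isot)
open Pool.Agent.H80.CC.Plane (overK overKv constKv toL toLv)
open Pool.Agent.H74.FS

variable {F : Type} [Field F] [DecidableEq (RatFunc F)]

/-- the polynomial `f` over the completion at `w` -/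
noncomputable def fw (f : F[X][X]) (w : Pl F) : (Kw F w)[X] := (overK f).map (iw w)

/-- the map from `L` to `L ⊗ K_w` -/
noncomputable def toLw (f : F[X][X]) (w : Pl F) :
    AdjoinRoot (overK f) →+* AdjoinRoot (fw f w) :=
  AdjoinRoot.map (iw w) (overK f) (fw f w) dvd_rfl

omit [DecidableEq (RatFunc F)] in
theorem exists_pl (v : HeightOneSpectrum F[X]) :
    ∃ (P : F[X]) (_ : P.Monic) (hi : Irreducible P), v = LT.place P hi := by
  obtain ⟨g, hg⟩ := (IsPrincipalIdealRing.principal v.asIdeal).principal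
  have hg' : v.asIdeal = Ideal.span {g} := hg
  have hg0 : g ≠ 0 := by
    rintro rfl
    apply v.ne_bot
    rw [hg', Ideal.span_singleton_eq_bot]
  have hpr : Prime g := by
    have h1 := v.isPrime
    rw [hg'] at h1
    exact (Ideal.span_singleton_prime hg0).1 h1
  have hu : IsUnit (C g.leadingCoeff⁻¹) :=
    isUnit_C.2 (isUnit_iff_ne_zero.2 (inv_ne_zero (leadingCoeff_ne_zero.2 hg0)))
  have hass : Associated g (g * C g.leadingCoeff⁻¹) := (associated_mul_unit_left _ _ hu).symm
  refine ⟨g * C g.leadingCoeff⁻¹, monic_mul_leadingCoeff_inv hg0,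
    hass.irreducible hpr.irreducible, ?_⟩
  apply HeightOneSpectrum.ext
  show v.asIdeal = Ideal.span {g * C g.leadingCoeff⁻¹}
  rw [hg']
  exact Ideal.span_singleton_eq_span_singleton.2 hass

theorem isot_some (f : F[X][X]) {P : F[X]} (hP : P.Monic) (hi : Irreducible P)
    (β : AdjoinRoot (overK f)) :
    Isot (fw f (some ⟨P, hP, hi⟩)) (toLw f (some ⟨P, hP, hi⟩) β) ↔
      Isot (overKv f (LT.place P hi)) (toLv f (LT.place P hi) β) := by
  exact Iff.rfl

private theorem two_dvd {F : Type} [Field F] [Finite F] (h2 : (2 : F) ≠ 0) : 2 ∣ Nat.card F - 1 := by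
  have : Fintype F := Fintype.ofFinite F
  have h := FiniteField.odd_card_of_char_ne_two (F := F) (fun h => by
    have := ringChar.of_eq h
    exact h2 (by exact_mod_cast CharP.cast_eq_zero F 2))
  rw [Nat.card_eq_fintype_card]
  obtain ⟨j, hj⟩ := Nat.odd_iff.2 h
  exact ⟨j, by omega⟩

theorem parity_f [Finite F] (h2 : (2 : F) ≠ 0) (f : F[X][X]) (hf : f.Monic) {g : ℕ}
    (hm : f.natDegree = 2 * g + 1) (hirr : Irreducible (overK f)) (β : AdjoinRoot (overK f))
    (hβ : β ≠ 0) (hN : ∃ y, Algebra.norm (RatFunc F) β = y ^ 2) :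
    ∃ T : Finset (Pl F), Even T.card ∧ ∀ w : Pl F, w ∈ T ↔ ¬ Isot (fw f w) (toLw f w β) := by
  let _ : Fact (Irreducible (overK f)) := ⟨hirr⟩
  have hfm : (overK f).Monic := hf.map _
  have hfd : (overK f).natDegree = 2 * g + 1 := by
    rw [← hm]
    exact hf.natDegree_map _
  have hfin : Module.Finite (RatFunc F) (AdjoinRoot (overK f)) := (AdjoinRoot.powerBasis' hfm).finite
  obtain ⟨y, hy⟩ := hN
  have hy0 : y ≠ 0 := by
    rintro rfl
    rw [zero_pow two_ne_zero, Algebra.norm_eq_zero_iff] at hy
    exact hβ hy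
  obtain ⟨T, hT, hT'⟩ := parity (two_dvd h2) g (gram hfm g β) (gram_symm hfm g β) y hy0
    (by rw [gram_det hfm hfd, hy])
  refine ⟨T, hT, fun w => ?_⟩
  rw [hT' w]
  have hfm' : (fw f w).Monic := hfm.map _
  have hfd' : (fw f w).natDegree = 2 * g + 1 := by
    rw [← hfd]
    exact hfm.natDegree_map _
  rw [isot_iff hfm' hfd']
  have h3 : gram hfm' g (toLw f w β) = (gram hfm g β).map (iw w) := gram_map (iw w) hfm hfm' g β
  rw [h3]

theorem rec_one [Finite F] (h2 : (2 : F) ≠ 0) (f : F[X][X]) (hf : f.Monic) {g : ℕ}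
    (hm : f.natDegree = 2 * g + 1) (hirr : Irreducible (overK f)) (β : AdjoinRoot (overK f))
    (hβ : β ≠ 0) (hN : ∃ y, Algebra.norm (RatFunc F) β = y ^ 2) (v : HeightOneSpectrum F[X])
    (h : ∀ w, w ≠ v → Isot (overKv f w) (toLv f w β))
    (hoo : Isot (fw f none) (toLw f none β)) : Isot (overKv f v) (toLv f v β) := by
  classical
  obtain ⟨T, hT, hT'⟩ := parity_f h2 f hf hm hirr β hβ hN
  obtain ⟨P, hP, hi, rfl⟩ := exists_pl v
  by_contra hn
  have h1 : T = {(some ⟨P, hP, hi⟩ : Pl F)} := by
    ext w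
    rw [Finset.mem_singleton, hT' w]
    constructor
    · intro h3
      match w, h3 with
      | none, h3 => exact absurd hoo h3
      | some ⟨Q, hQ, hQi⟩, h3 =>
        rw [isot_some f hQ hQi] at h3
        by_cases hc : LT.place Q hQi = LT.place P hi
        · have h4 : Ideal.span {Q} = Ideal.span {P} := congrArg HeightOneSpectrum.asIdeal hc
          have h5 : Q = P := eq_of_monic_of_associated hQ hP (Ideal.span_singleton_eq_span_singleton.1 h4)
          subst h5
          rfl
        · exact absurd (h _ hc) h3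
    · rintro rfl
      rw [isot_some f hP hi]
      exact hn
  rw [h1, Finset.card_singleton] at hT
  exact absurd hT (by decide)

end Pool.Agent.H74.GR
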