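import Pool.Agent.H74.GR.Udi
import Pool.Agent.H74.FS.REC
import Pool.Agent.H94.PL.Ech

set_option autoImplicit false

/-!
# [H74 GR Uni] A unimodular form over a completion has an isotropic subspace of dimension `g`

* `unit_iso3`: `a1, a2, a3` of value one in `Kw F w`: there are `x, y, z`, not all zero, with `a1 x ^ 2 + a2 y ^ 2 + a3 z ^ 2 = 0`.  PROOF: `ev w c = 0` for a value one element (`vl` is zero; see `PlB`), `hs_even`, `hs_norm` for
  `a = - a1 * a3`, `b = - a2 * a3`: `z' ^ 2 = a x ^ 2 + b y ^ 2`, i.e. `a1 a3 x ^ 2 + a2 a3 y ^ 2 + z' ^ 2 = 0`, divide by `a3`: `a1 x ^ 2 + a2 y ^ 2 + a3 (z' / a3) ^ 2 = 0`.  (`χ : LChar F 2` exists, as in the module `Par`.)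
* `unit_diag`: `d : Fin (2 g + 1) → Kw F w` all of value one: `IsoM (diagonal d) g`.  Induction on `g`; `g = 0`: `isoM_zero`.  `g + 1`: `a1 = d 0`, `a2 = d 1`, `a3 = d 2`, `v = (x, y, z)` from `unit_iso3`; since `v ≠ 0` there is a
  vector `w = (w1, w2, w3)` with `a1 x w1 + a2 y w2 + a3 z w3 = 1`.  `c = (a2 a3 (y w3 - z w2), a1 a3 (z w1 - x w3), a1 a2 (x w2 - y w1))`.  Then `B(c, v) = 0` and `B(c, c) = a1 a2 a3 (Q(v) Q(w) - B(v, w) ^ 2) = - a1 a2 a3`
  (`Q(v) = 0`; `linear_combination`).  Let `d' : Fin (2 g + 1) → _` be `d' 0 = - a1 a2 a3`, `d' (i + 1) = d (i + 3)`: all of value one, so there is `X'` for `diagonal d'` with `g ≤ dim X'`.  The linear map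
  `J : (Fin (2 g + 1) → _) → (Fin (2 g + 3) → _)`, `J u = (u 0 c1, u 0 c2, u 0 c3, u 1, u 2, ...)` is injective (`c ≠ 0`) and isometric, and orthogonal to `V = (x, y, z, 0, ...)`, `Q(V) = 0`.
  `X = X'.map J ⊔ span {V}`: the form is zero on `X`; `V` is not in the range of `J`: `V = J u` gives `0 = Q(V) = Q'(u)`, `u i = 0` for `i ≥ 1`, `u 0 ^ 2 (- a1 a2 a3) = 0`, `u = 0`, `V = 0`.  So the dimension is `dim X' + 1`.
  (With families instead of subspaces: `isoM_of_fam`, `IsoM.fam`, `Fin.cons V (J ∘ v')`.)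
* `uni`: `unimod_diag` for `vw w` (`vw w 2 = 1` as `2 ≠ 0` in `F`, constants have value one: see `PlB`/`H94.PL`), which gives `b` with Gram matrix `diagonal d`, `vw w (d i) = 1`.  `unit_diag` gives a family `v' : Fin g → _` for
  `diagonal d`, and `∑ i, v' j i • b i` is the family for `G` (`b` is linearly independent, the form is bilinear).
-/

namespace Pool.Agent.H74.GR

open Matrix Pool.Agent.H74.FS

variable {F : Type} [Field F] [DecidableEq (RatFunc F)] [Finite F]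

theorem unit_iso3 (hq : 2 ∣ Nat.card F - 1) (w : Pl F) (a1 a2 a3 : Kw F w) (h1 : vw w a1 = 1)
    (h2 : vw w a2 = 1) (h3 : vw w a3 = 1) :
    ∃ x y z : Kw F w, ¬ (x = 0 ∧ y = 0 ∧ z = 0) ∧ a1 * x ^ 2 + a2 * y ^ 2 + a3 * z ^ 2 = 0 := by
  obtain ⟨χ⟩ := Pool.Agent.H94.PL.exists_LChar F Nat.prime_two hq
  have hne : ∀ {c : Kw F w}, vw w c = 1 → c ≠ 0 := by
    rintro c hc rfl
    rw [map_zero] at hc
    exact zero_ne_one hc
  have hev : ∀ {c : Kw F w}, vw w c = 1 → ev w c = 0 := by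
    intro c hc
    rw [ev, Pool.Agent.H94.PM.vl, hc, WithZero.log_one, neg_zero, Int.cast_zero]
  have ha : vw w (-(a1 * a3)) = 1 := by rw [Valuation.map_neg, map_mul, h1, h3, one_mul]
  have hb : vw w (-(a2 * a3)) = 1 := by rw [Valuation.map_neg, map_mul, h2, h3, one_mul]
  have h3' := hne h3
  obtain ⟨x, y, z, h0, h⟩ := (hs_norm χ hq (hne ha) (hne hb)).1 (hs_even χ (hev ha) (hev hb))
  refine ⟨x, y, z / a3, fun h4 => h0 ⟨h4.1, h4.2.1, ?_⟩, ?_⟩
  · rcases div_eq_zero_iff.1 h4.2.2 with h5 | h5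
    · exact h5
    · exact absurd h5 h3'
  · field_simp
    linear_combination h

private theorem dform {k : Type*} [Field k] {n : ℕ} (d x y : Fin n → k) :
    x ⬝ᵥ diagonal d *ᵥ y = ∑ i, d i * x i * y i := by
  unfold dotProduct
  refine Finset.sum_congr rfl fun i _ => ?_
  rw [mulVec_diagonal]
  ring

private theorem dform3 {k : Type*} [Field k] {n : ℕ} (d x y : Fin (n + 3) → k) :
    x ⬝ᵥ diagonal d *ᵥ y = d 0 * x 0 * y 0 + (d 1 * x 1 * y 1 + (d 2 * x 2 * y 2 +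
      ∑ i : Fin n, d i.succ.succ.succ * x i.succ.succ.succ * y i.succ.succ.succ)) := by
  rw [dform, Fin.sum_univ_succ, Fin.sum_univ_succ, Fin.sum_univ_succ]
  rfl

/-- a hyperbolic plane in a form in three variables -/
private theorem iso_step {k : Type*} [Field k] {n r : ℕ} (d : Fin (n + 3) → k) (h0 : d 0 ≠ 0)
    (h1 : d 1 ≠ 0) (h2 : d 2 ≠ 0) (x y z : k) (hn : ¬ (x = 0 ∧ y = 0 ∧ z = 0))
    (h : d 0 * x ^ 2 + d 1 * y ^ 2 + d 2 * z ^ 2 = 0)
    (hi : IsoM (diagonal (Fin.cons (-(d 0 * d 1 * d 2)) (fun i : Fin n => d i.succ.succ.succ) :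
      Fin (n + 1) → k)) r) : IsoM (diagonal d) (r + 1) := by
  obtain ⟨w1, w2, w3, hw⟩ : ∃ w1 w2 w3 : k, d 0 * x * w1 + d 1 * y * w2 + d 2 * z * w3 = 1 := by
    by_cases hx : x = 0
    · by_cases hy : y = 0
      · have hz : z ≠ 0 := fun hz => hn ⟨hx, hy, hz⟩
        exact ⟨0, 0, (d 2 * z)⁻¹, by rw [mul_zero, mul_zero, zero_add, zero_add, mul_inv_cancel₀ (mul_ne_zero h2 hz)]⟩
      · exact ⟨0, (d 1 * y)⁻¹, 0, by rw [mul_zero, mul_zero, zero_add, add_zero, mul_inv_cancel₀ (mul_ne_zero h1 hy)]⟩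
    · exact ⟨(d 0 * x)⁻¹, 0, 0, by rw [mul_zero, mul_zero, add_zero, add_zero, mul_inv_cancel₀ (mul_ne_zero h0 hx)]⟩
  obtain ⟨c1, hc1⟩ : ∃ c1, c1 = d 1 * d 2 * (y * w3 - z * w2) := ⟨_, rfl⟩
  obtain ⟨c2, hc2⟩ : ∃ c2, c2 = d 0 * d 2 * (z * w1 - x * w3) := ⟨_, rfl⟩
  obtain ⟨c3, hc3⟩ : ∃ c3, c3 = d 0 * d 1 * (x * w2 - y * w1) := ⟨_, rfl⟩
  have hcv : d 0 * c1 * x + d 1 * c2 * y + d 2 * c3 * z = 0 := by
    rw [hc1, hc2, hc3]
    ring
  have hcc : d 0 * c1 ^ 2 + d 1 * c2 ^ 2 + d 2 * c3 ^ 2 = -(d 0 * d 1 * d 2) := by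
    rw [hc1, hc2, hc3]
    linear_combination d 0 * d 1 * d 2 * (d 0 * w1 ^ 2 + d 1 * w2 ^ 2 + d 2 * w3 ^ 2) * h -
      d 0 * d 1 * d 2 * (d 0 * x * w1 + d 1 * y * w2 + d 2 * z * w3 + 1) * hw
  have hD : d 0 * d 1 * d 2 ≠ 0 := mul_ne_zero (mul_ne_zero h0 h1) h2
  obtain ⟨v', hv', hv''⟩ := hi.fam
  let J : (Fin (n + 1) → k) →ₗ[k] (Fin (n + 3) → k) :=
    { toFun := fun u => Fin.cons (u 0 * c1) (Fin.cons (u 0 * c2) (Fin.cons (u 0 * c3)
        (fun i : Fin n => u i.succ)))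
      map_add' := by
        intro u u'
        ext i
        refine Fin.cases ?_ (fun i => Fin.cases ?_ (fun i => Fin.cases ?_ (fun i => ?_) i) i) i
        · exact add_mul _ _ _
        · exact add_mul _ _ _
        · exact add_mul _ _ _
        · rfl
      map_smul' := by
        intro a u
        ext i
        refine Fin.cases ?_ (fun i => Fin.cases ?_ (fun i => Fin.cases ?_ (fun i => ?_) i) i) i
        · exact mul_assoc _ _ _
        · exact mul_assoc _ _ _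
        · exact mul_assoc _ _ _
        · rfl }
  have J0 : ∀ u, J u 0 = u 0 * c1 := fun u => rfl
  have J1 : ∀ u, J u 1 = u 0 * c2 := fun u => rfl
  have J2 : ∀ u, J u 2 = u 0 * c3 := fun u => rfl
  have J3 : ∀ u (i : Fin n), J u i.succ.succ.succ = u i.succ := fun u i => rfl
  obtain ⟨V, hV⟩ : ∃ V : Fin (n + 3) → k, V = Fin.cons x (Fin.cons y (Fin.cons z (fun _ : Fin n => 0))) :=
    ⟨_, rfl⟩
  have V0 : V 0 = x := by rw [hV]; rfl
  have V1 : V 1 = y := by rw [hV]; rfl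
  have V2 : V 2 = z := by rw [hV]; rfl
  have V3 : ∀ i : Fin n, V i.succ.succ.succ = 0 := by
    intro i
    rw [hV]
    rfl
  have hJ : LinearMap.ker J = ⊥ := by
    rw [LinearMap.ker_eq_bot']
    intro u hu
    have e0 : u 0 * c1 = 0 := by rw [← J0, hu]; rfl
    have e1 : u 0 * c2 = 0 := by rw [← J1, hu]; rfl
    have e2 : u 0 * c3 = 0 := by rw [← J2, hu]; rfl
    have hu0 : u 0 = 0 := by
      have e4 : u 0 * (d 0 * d 1 * d 2) = 0 := by
        linear_combination u 0 * hcc - d 0 * c1 * e0 - d 1 * c2 * e1 - d 2 * c3 * e2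
      exact (mul_eq_zero.1 e4).resolve_right hD
    ext i
    refine Fin.cases hu0 (fun i => ?_) i
    have e3 : u i.succ = 0 := by rw [← J3 u i, hu]; rfl
    exact e3
  have hspan : V ∉ Submodule.span k (Set.range (J ∘ v')) := by
    intro hm
    have h4 : Submodule.span k (Set.range (J ∘ v')) ≤ LinearMap.range J := by
      rw [Submodule.span_le]
      rintro _ ⟨i, rfl⟩
      exact ⟨v' i, rfl⟩
    obtain ⟨u, hu⟩ := h4 hm
    have e0 : u 0 * c1 = x := by rw [← J0, hu, V0]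
    have e1 : u 0 * c2 = y := by rw [← J1, hu, V1]
    have e2 : u 0 * c3 = z := by rw [← J2, hu, V2]
    have hu0 : u 0 = 0 := by
      have e4 : u 0 * (d 0 * d 1 * d 2) = 0 := by
        linear_combination u 0 * hcc - d 0 * c1 * e0 - d 1 * c2 * e1 - d 2 * c3 * e2 - hcv
      exact (mul_eq_zero.1 e4).resolve_right hD
    rw [hu0, zero_mul] at e0 e1 e2
    exact hn ⟨e0.symm, e1.symm, e2.symm⟩
  have hVV : V ⬝ᵥ diagonal d *ᵥ V = 0 := by
    rw [dform3, V0, V1, V2]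
    simp only [V3, mul_zero, Finset.sum_const_zero]
    linear_combination h
  have hVJ : ∀ u, V ⬝ᵥ diagonal d *ᵥ J u = 0 := by
    intro u
    rw [dform3, V0, V1, V2, J0, J1, J2]
    simp only [V3, mul_zero, zero_mul, Finset.sum_const_zero]
    linear_combination u 0 * hcv
  have hJV : ∀ u, J u ⬝ᵥ diagonal d *ᵥ V = 0 := by
    intro u
    rw [dform3, V0, V1, V2, J0, J1, J2]
    simp only [V3, mul_zero, Finset.sum_const_zero]
    linear_combination u 0 * hcv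
  have hJJ : ∀ u u', J u ⬝ᵥ diagonal d *ᵥ J u' = u ⬝ᵥ diagonal (Fin.cons (-(d 0 * d 1 * d 2))
      (fun i : Fin n => d i.succ.succ.succ) : Fin (n + 1) → k) *ᵥ u' := by
    intro u u'
    rw [dform3, dform, Fin.sum_univ_succ, J0, J1, J2, J0, J1, J2]
    simp only [J3, Fin.cons_zero, Fin.cons_succ]
    linear_combination u 0 * u' 0 * hcc
  refine isoM_of_fam _ (Fin.cons V (J ∘ v')) ?_ ?_
  · rw [linearIndependent_finCons]
    exact ⟨hv'.map' J hJ, hspan⟩
  · intro i j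
    refine Fin.cases ?_ (fun i => ?_) i
    · refine Fin.cases ?_ (fun j => ?_) j
      · exact hVV
      · exact hVJ _
    · refine Fin.cases ?_ (fun j => ?_) j
      · exact hJV _
      · rw [Fin.cons_succ, Fin.cons_succ]
        exact (hJJ _ _).trans (hv'' i j)

theorem unit_diag (hq : 2 ∣ Nat.card F - 1) (w : Pl F) (g : ℕ) (d : Fin (2 * g + 1) → Kw F w)
    (hd : ∀ i, vw w (d i) = 1) : IsoM (diagonal d) g := by
  have hne : ∀ {c : Kw F w}, vw w c = 1 → c ≠ 0 := by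
    rintro c hc rfl
    rw [map_zero] at hc
    exact zero_ne_one hc
  induction g with
  | zero => exact isoM_zero _
  | succ g ih =>
    obtain ⟨x, y, z, hn, h⟩ := unit_iso3 hq w (d 0) (d 1) (d 2) (hd _) (hd _) (hd _)
    refine iso_step (n := 2 * g) (r := g) d (hne (hd _)) (hne (hd _)) (hne (hd _)) x y z hn h (ih _ ?_)
    intro i
    refine Fin.cases ?_ (fun i => ?_) i
    · rw [Fin.cons_zero, Valuation.map_neg, map_mul, map_mul, hd, hd, hd, one_mul, one_mul]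
    · rw [Fin.cons_succ]
      exact hd _

theorem uni (hq : 2 ∣ Nat.card F - 1) (w : Pl F) (g : ℕ)
    (G : Matrix (Fin (2 * g + 1)) (Fin (2 * g + 1)) (Kw F w)) (hG : G.IsSymm)
    (hi : ∀ i j, vw w (G i j) ≤ 1) (hd : vw w G.det = 1) : IsoM G g := by
  have h2 : vw w 2 = 1 := by
    have := val_two_w hq w
    rwa [Nat.cast_ofNat] at this
  obtain ⟨b, hb1, hb2⟩ := unimod_diag (vw w) h2 (2 * g + 1) G hG hi hd
  obtain ⟨P, hP⟩ : ∃ P : Matrix (Fin (2 * g + 1)) (Fin (2 * g + 1)) (Kw F w), P = (Matrix.of b)ᵀ :=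
    ⟨_, rfl⟩
  have h3 : Pᵀ * G * P = diagonal fun i => b i ⬝ᵥ G *ᵥ b i := by
    ext i j
    have h4 : (Pᵀ * G * P) i j = b i ⬝ᵥ G *ᵥ b j := by
      rw [hP, transpose_transpose, Matrix.mul_assoc, Matrix.mul_apply']
      rfl
    rw [h4, diagonal_apply]
    split_ifs with h5
    · rw [h5]
    · exact hb2 i j h5
  have h4 : P.det ≠ 0 := by
    intro h5
    have h6 : (Pᵀ * G * P).det = 0 := by rw [det_mul, h5, mul_zero]
    rw [h3, det_diagonal] at h6
    have h7 := congrArg (vw w) h6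
    rw [map_prod, map_zero, Finset.prod_congr rfl fun i _ => hb1 i, Finset.prod_const_one] at h7
    exact one_ne_zero h7
  have h5 : IsUnit P.det := isUnit_iff_ne_zero.2 h4
  rw [← isoM_congr G P P⁻¹ (mul_nonsing_inv P h5) (nonsing_inv_mul P h5), h3]
  exact unit_diag hq w g _ hb1

end Pool.Agent.H74.GR
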