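import Pool.Agent.H74.GR.Sca
import Pool.Agent.H74.GR.Loc
import Pool.Agent.H74.GR.Pla
import Pool.Agent.H74.GR.Uni
import Pool.Agent.H74.GR.InfA

set_option autoImplicit false

/-!
# [H74 GR InfB] The place at infinity, leading form irreducible

Let `m = 2 n + 1`, `p` the representative of degree `< m` of `β` (`modByMonicHom`, `mk p = β`, `p ≠ 0`), `P = p.comp (C (X ^ h) * X)` (the coefficient of index `i` is `p_i X ^ (h i)`), `g' = (overK f).scaleRoots (X ^ h)⁻¹`,
`ν ∈ ℤ` with `exp ν` the largest value `vI (P.coeff i)` (finitely many coefficients, not all zero), `U = C (X ^ (-ν)) * P` (`zpow`): `inf_bezout` applies and gives `u'`, `E`.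
1. `loc_unim` over the field `RatFunc F` with the valuation `vI F`, for `g'`, `U`, `u'`, `E`, `c = 1` (`scale_coeff`): the matrix `G = gram (g') n (mk U)` has entries of value `≤ 1` and `vI (det G) = 1`.
2. `ν` is even: `det G = (-1) ^ n * norm (mk U)` (`gram_det`), `norm (mk U) = (X ^ (-ν)) ^ m * norm (mk P)` (`Algebra.norm_algebraMap`, `finrank = m`), `norm (mk P) = norm β = y ^ 2` (`norm_scale` with `s = (X ^ h)⁻¹`).
   So `exp (- ν m) * vI (y) ^ 2 = 1`, `vI y = exp a` (`y ≠ 0`), `ν m = 2 a`, `m` is odd, so `ν = 2 μ`.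
3. Over `k = Kw F none`: `G.map (iw none)` is the Gram matrix of the image of `U` for `g'.map (iw none)` (`gram_map`), it is symmetric with entries of value `≤ 1` and determinant of value one (`vI = vw ∘ iw`; `RingHom.map_det`).
   `uni` and `isot_iff` give `Isot (g'.map (iw none)) (mk (U.map (iw none)))`, `U = C (X ^ (-μ)) ^ 2 * P`, by `isot_sq` (the image of `X ^ (-μ)` is a unit) `Isot (g'.map _) (mk (P.map _))`.
   `g'.map (iw none) = (fw f none).scaleRoots (iw none (X ^ h))⁻¹` (`Polynomial.map_scaleRoots`, the leading coefficient is one; or compare the coefficients), `P.map _ = (p.map _).comp (C (s⁻¹) * X)`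
   (`Polynomial.map_comp`).  `isot_scale` gives `Isot (fw f none) (mk (p.map _))`, and this is the claim as `toLw f none (mk p) = mk (p.map (iw none))`.
-/

namespace Pool.Agent.H74.GR

open Polynomial Matrix IsDedekindDomain WithZero
open Pool.Agent.H94.GG (tau Isot Fam lead)
open Pool.Agent.H80.CC.Plane (overK overKv constKv toL toLv)
open Pool.Agent.H74.FS

private theorem two_dvd_q {F : Type} [Field F] [Finite F] (h2 : (2 : F) ≠ 0) :
    2 ∣ Nat.card F - 1 := by
  have : Fintype F := Fintype.ofFinite F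
  have h := FiniteField.odd_card_of_char_ne_two (F := F) (fun h => by
    have := ringChar.of_eq h
    exact h2 (by exact_mod_cast CharP.cast_eq_zero F 2))
  rw [Nat.card_eq_fintype_card]
  obtain ⟨j, hj⟩ := Nat.odd_iff.2 h
  exact ⟨j, by omega⟩

private theorem map_mk' {k k' : Type} [Field k] [Field k'] (φ : k →+* k') (g p : k[X]) :
    AdjoinRoot.map φ g (g.map φ) dvd_rfl (AdjoinRoot.mk g p) =
      AdjoinRoot.mk (g.map φ) (p.map φ) := by
  induction p using Polynomial.induction_on' with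
  | add p q hp hq => rw [map_add, map_add, hp, hq, Polynomial.map_add, map_add]
  | monomial n a =>
    rw [Polynomial.map_monomial, ← C_mul_X_pow_eq_monomial, ← C_mul_X_pow_eq_monomial]
    simp only [map_mul, map_pow, AdjoinRoot.mk_C, AdjoinRoot.mk_X]
    rw [AdjoinRoot.map_of, AdjoinRoot.map_root]

private theorem isot_congr {k : Type} [Field k] {q q' : k[X]} (h : q = q') (r : k[X]) :
    Isot q (AdjoinRoot.mk q r) ↔ Isot q' (AdjoinRoot.mk q' r) := by
  subst h
  rfl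

private theorem norm_C_mul {k : Type} [Field k] {g : k[X]} (hg : g.Monic) (c : k) (p : k[X]) :
    Algebra.norm k (AdjoinRoot.mk g (C c * p)) =
      c ^ g.natDegree * Algebra.norm k (AdjoinRoot.mk g p) := by
  rw [map_mul, map_mul]
  congr 1
  have h1 : AdjoinRoot.mk g (C c) = algebraMap k (AdjoinRoot g) c := rfl
  rw [h1, Algebra.norm_algebraMap]
  congr 1
  exact (AdjoinRoot.powerBasis' hg).finrank

/-- the part of the proof over `F(t)` -/
private theorem inf_unim {F : Type} [Field F] [DecidableEq (RatFunc F)]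
    {m h n : ℕ} (f : F[X][X]) (hfam : Fam m h f) (hm : m = 2 * n + 1)
    (hl : Irreducible (lead m h f)) (hgm : ((overK f).scaleRoots (RatFunc.X ^ h)⁻¹).Monic)
    (p : (RatFunc F)[X]) (hp0 : p ≠ 0) (hpd : ∀ i, m ≤ i → p.coeff i = 0)
    (hN : ∃ y, Algebra.norm (RatFunc F) (AdjoinRoot.mk (overK f) p) = y ^ 2) :
    ∃ μ : ℤ,
      (∀ i j, vI F (gram hgm n (AdjoinRoot.mk ((overK f).scaleRoots (RatFunc.X ^ h)⁻¹)
        (C ((RatFunc.X : RatFunc F) ^ (-μ)) ^ 2 *
          p.comp (C ((RatFunc.X ^ h : RatFunc F)⁻¹)⁻¹ * X))) i j) ≤ 1) ∧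
      vI F (gram hgm n (AdjoinRoot.mk ((overK f).scaleRoots (RatFunc.X ^ h)⁻¹)
        (C ((RatFunc.X : RatFunc F) ^ (-μ)) ^ 2 *
          p.comp (C ((RatFunc.X ^ h : RatFunc F)⁻¹)⁻¹ * X)))).det = 1 := by
  classical
  have hgK : (overK f).Monic := hfam.monic.map _
  have hs0 : ((RatFunc.X ^ h : RatFunc F)⁻¹) ≠ 0 := inv_ne_zero (pow_ne_zero _ RatFunc.X_ne_zero)
  obtain ⟨s, hs⟩ : ∃ s : RatFunc F, s = (RatFunc.X ^ h)⁻¹ := ⟨_, rfl⟩
  have hgd : ((overK f).scaleRoots (RatFunc.X ^ h)⁻¹).natDegree = 2 * n + 1 := by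
    rw [natDegree_scaleRoots, overK, hfam.monic.natDegree_map, hfam.deg, hm]
  obtain ⟨P, hP⟩ : ∃ P : (RatFunc F)[X], P = p.comp (C ((RatFunc.X ^ h : RatFunc F)⁻¹)⁻¹ * X) :=
    ⟨_, rfl⟩
  have hPc : ∀ i, P.coeff i = p.coeff i * (((RatFunc.X ^ h : RatFunc F)⁻¹)⁻¹) ^ i := by
    intro i
    rw [hP, comp_C_mul_X_coeff]
  have hPd : ∀ i, m ≤ i → P.coeff i = 0 := by
    intro i hi
    rw [hPc, hpd i hi, zero_mul]
  obtain ⟨i₁, hi₁⟩ : ∃ i, P.coeff i ≠ 0 := by
    by_contra hc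
    push Not at hc
    apply hp0
    ext i
    have h1 := hc i
    rw [hPc] at h1
    rw [coeff_zero]
    exact (mul_eq_zero.1 h1).resolve_right (pow_ne_zero _ (inv_ne_zero hs0))
  have hi₁m : i₁ < m := by
    by_contra hc
    exact hi₁ (hPd i₁ (not_lt.1 hc))
  obtain ⟨i₀, hi₀, hmax⟩ := Finset.exists_max_image (Finset.range m)
    (fun i => vI F (P.coeff i)) ⟨i₁, Finset.mem_range.2 hi₁m⟩
  have hne : vI F (P.coeff i₀) ≠ 0 := by
    intro h0
    have h1 := hmax i₁ (Finset.mem_range.2 hi₁m)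
    rw [h0, le_zero_iff] at h1
    exact hi₁ ((map_eq_zero (vI F)).1 h1)
  obtain ⟨ν, hν⟩ : ∃ ν : ℤ, vI F (P.coeff i₀) = exp ν := ⟨_, (WithZero.exp_log hne).symm⟩
  have hle : ∀ i, vI F (P.coeff i) ≤ exp ν := by
    intro i
    by_cases hi : i < m
    · rw [← hν]
      exact hmax i (Finset.mem_range.2 hi)
    · rw [hPd i (not_lt.1 hi), map_zero]
      exact zero_le
  have hvX : ∀ e : ℤ, vI F ((RatFunc.X : RatFunc F) ^ e) = exp e := by
    intro e
    rw [map_zpow₀, vI_X, ← WithZero.exp_zsmul, smul_eq_mul, mul_one]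
  have hUc : ∀ i, vI F ((C ((RatFunc.X : RatFunc F) ^ (-ν)) * P).coeff i) =
      exp (-ν) * vI F (P.coeff i) := by
    intro i
    rw [coeff_C_mul, map_mul, hvX]
  have hee : (exp (-ν) : ℤᵐ⁰) * exp ν = 1 := by
    rw [← WithZero.exp_add, neg_add_cancel, WithZero.exp_zero]
  have hU : ∀ i, vI F ((C ((RatFunc.X : RatFunc F) ^ (-ν)) * P).coeff i) ≤ 1 := by
    intro i
    rw [hUc, ← hee]
    exact mul_le_mul_right (hle i) _
  have hU1 : ∃ i, vI F ((C ((RatFunc.X : RatFunc F) ^ (-ν)) * P).coeff i) = 1 :=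
    ⟨i₀, by rw [hUc, hν, hee]⟩
  have hUd : ∀ i, m ≤ i → (C ((RatFunc.X : RatFunc F) ^ (-ν)) * P).coeff i = 0 := by
    intro i hi
    rw [coeff_C_mul, hPd i hi, mul_zero]
  obtain ⟨u', E, hu', hE, hdiv⟩ := inf_bezout hfam hl _ hUd hU hU1
  obtain ⟨h5, h6⟩ := loc_unim (vI F) hgm hgd (fun i => (scale_coeff hfam i).2) _ u' E 1 hU hu' hE
    (map_one _) hdiv
  -- `ν` is even
  obtain ⟨y, hy⟩ := hN
  have hdet := h6
  rw [gram_det hgm hgd, norm_C_mul hgm, hgd, hP, norm_scale hgK hs0 p, hy, map_mul, map_mul,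
    map_pow] at hdet
  have h7 : vI F (-1) = 1 := by rw [Valuation.map_neg, map_one]
  rw [h7, one_pow, one_mul, map_pow, map_pow, hvX] at hdet
  have hy0 : vI F y ≠ 0 := by
    intro h0
    rw [h0, zero_pow two_ne_zero, mul_zero] at hdet
    exact zero_ne_one hdet
  obtain ⟨a, ha⟩ : ∃ a : ℤ, vI F y = exp a := ⟨_, (WithZero.exp_log hy0).symm⟩
  rw [ha, ← WithZero.exp_nsmul, ← WithZero.exp_nsmul, ← WithZero.exp_add,
    ← WithZero.exp_zero] at hdet
  have h8 := WithZero.exp_injective hdet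
  rw [nsmul_eq_mul, nsmul_eq_mul] at h8
  push_cast at h8
  have h9 : ν = 2 * (a - n * ν) := by linarith
  have h10 : C ((RatFunc.X : RatFunc F) ^ (-(a - n * ν))) ^ 2 *
      p.comp (C ((RatFunc.X ^ h : RatFunc F)⁻¹)⁻¹ * X) =
        C ((RatFunc.X : RatFunc F) ^ (-ν)) * P := by
    rw [hP, ← C_pow, ← zpow_natCast, ← _root_.zpow_mul]
    congr 4
    push_cast
    linarith
  refine ⟨a - n * ν, ?_, ?_⟩
  · rw [h10]
    exact h5
  · rw [h10]
    exact h6

theorem uni_inf {F : Type} [Field F] [DecidableEq (RatFunc F)] [Finite F] (h2 : (2 : F) ≠ 0)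
    {m h n : ℕ} (f : F[X][X]) (hfam : Fam m h f) (hm : m = 2 * n + 1)
    (hl : Irreducible (lead m h f)) (β : AdjoinRoot (overK f)) (hβ : β ≠ 0)
    (hN : ∃ y, Algebra.norm (RatFunc F) β = y ^ 2) : Isot (fw f none) (toLw f none β) := by
  classical
  have hgK : (overK f).Monic := hfam.monic.map _
  have hdK : (overK f).natDegree = 2 * n + 1 := by
    rw [overK, hfam.monic.natDegree_map, hfam.deg, hm]
  have hgm : ((overK f).scaleRoots (RatFunc.X ^ h)⁻¹).Monic := (monic_scaleRoots_iff _).2 hgK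
  have hs0 : ((RatFunc.X ^ h : RatFunc F)⁻¹) ≠ 0 := inv_ne_zero (pow_ne_zero _ RatFunc.X_ne_zero)
  -- a representative of degree less than `m`
  obtain ⟨p, hpβ, hpd⟩ : ∃ p : (RatFunc F)[X], AdjoinRoot.mk (overK f) p = β ∧
      ∀ i, m ≤ i → p.coeff i = 0 := by
    obtain ⟨p₀, rfl⟩ := AdjoinRoot.mk_surjective β
    refine ⟨p₀ %ₘ overK f, ?_, ?_⟩
    · rw [AdjoinRoot.mk_eq_mk]
      refine ⟨-(p₀ /ₘ overK f), ?_⟩
      have h1 := modByMonic_add_div p₀ (overK f)
      linear_combination h1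
    · intro i hi
      apply coeff_eq_zero_of_natDegree_lt
      have hne1 : overK f ≠ 1 := by
        intro h1
        rw [h1, natDegree_one] at hdK
        omega
      have := natDegree_modByMonic_lt p₀ hgK hne1
      omega
  have hp0 : p ≠ 0 := by
    rintro rfl
    exact hβ (by rw [← hpβ, map_zero])
  subst hpβ
  obtain ⟨μ, h5, h6⟩ := inf_unim f hfam hm hl hgm p hp0 hpd hN
  have hq := two_dvd_q h2
  obtain ⟨φ, hφ⟩ : ∃ φ : RatFunc F →+* Kw F none, φ = iw none := ⟨_, rfl⟩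
  have hvφ : ∀ x, vw none (φ x) = vI F x := by
    intro x
    rw [hφ]
    rfl
  have hg'm : (((overK f).scaleRoots (RatFunc.X ^ h)⁻¹).map φ).Monic := hgm.map _
  have hg'd : (((overK f).scaleRoots (RatFunc.X ^ h)⁻¹).map φ).natDegree = 2 * n + 1 := by
    rw [hgm.natDegree_map, natDegree_scaleRoots, hdK]
  have h7 := uni hq none n ((gram hgm n (AdjoinRoot.mk ((overK f).scaleRoots (RatFunc.X ^ h)⁻¹)
        (C ((RatFunc.X : RatFunc F) ^ (-μ)) ^ 2 *
          p.comp (C ((RatFunc.X ^ h : RatFunc F)⁻¹)⁻¹ * X)))).map φ)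
    ((gram_symm hgm n _).map φ) (fun i j => by rw [map_apply, hvφ]; exact h5 i j)
    (by
      have h8 := RingHom.map_det φ (gram hgm n (AdjoinRoot.mk
        ((overK f).scaleRoots (RatFunc.X ^ h)⁻¹) (C ((RatFunc.X : RatFunc F) ^ (-μ)) ^ 2 *
          p.comp (C ((RatFunc.X ^ h : RatFunc F)⁻¹)⁻¹ * X))))
      rw [RingHom.mapMatrix_apply] at h8
      rw [← h8, hvφ]
      exact h6)
  rw [← gram_map φ hgm hg'm, ← isot_iff hg'm hg'd, map_mk', Polynomial.map_mul, Polynomial.map_pow,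
    Polynomial.map_C, mul_comm, map_mul, map_pow] at h7
  have hunit : IsUnit (AdjoinRoot.mk (((overK f).scaleRoots (RatFunc.X ^ h)⁻¹).map φ)
      (C (φ ((RatFunc.X : RatFunc F) ^ (-μ))))) := by
    have h8 : IsUnit (C (φ ((RatFunc.X : RatFunc F) ^ (-μ))) : (Kw F none)[X]) := by
      rw [isUnit_C, isUnit_iff_ne_zero]
      exact (map_ne_zero φ).2 (zpow_ne_zero _ RatFunc.X_ne_zero)
    exact h8.map _
  have h9 := (isot_sq hg'm _ _ hunit).1 h7
  have hmapg : ((overK f).scaleRoots (RatFunc.X ^ h)⁻¹).map φ =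
      ((overK f).map φ).scaleRoots (φ (RatFunc.X ^ h)⁻¹) := by
    apply map_scaleRoots
    rw [hgK.leadingCoeff, map_one]
    exact one_ne_zero
  have hmapp : (p.comp (C ((RatFunc.X ^ h : RatFunc F)⁻¹)⁻¹ * X)).map φ =
      (p.map φ).comp (C (φ (RatFunc.X ^ h)⁻¹)⁻¹ * X) := by
    rw [Polynomial.map_comp, Polynomial.map_mul, Polynomial.map_C, Polynomial.map_X, map_inv₀]
  rw [isot_congr hmapg, hmapp] at h9
  have hgm2 : ((overK f).map φ).Monic := hgK.map _
  have hd2 : ((overK f).map φ).natDegree = 2 * n + 1 := by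
    rw [hgK.natDegree_map, hdK]
  have h10 := (isot_scale hgm2 hd2 ((map_ne_zero φ).2 hs0) (p.map φ)).1 h9
  have h11 : toLw f none (AdjoinRoot.mk (overK f) p) = AdjoinRoot.mk (fw f none) (p.map φ) := by
    rw [hφ]
    exact map_mk' (iw none) (overK f) p
  rw [h11]
  have h12 : fw f none = (overK f).map φ := by rw [hφ, fw]
  rw [isot_congr h12]
  exact h10

end Pool.Agent.H74.GR
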