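import Pool.Agent.H74.GR.Unf
import Pool.Agent.H74.GR.InfB
import Pool.Agent.H74.GR.Cmb

set_option autoImplicit false

/-!
# [H74 GR Lag] Section 4.3: one of the `2 ^ k` coordinate Lagrangians is transversal

`P` a finite set of special places.  `TwoHom f v`: the local classification (section 2) in the form of a homomorphism `c` to `F_2 ^ 2` (`c δ = (x, y)`).
* `evAt_mul`: `(I I', J J', b b', c c', s s')`; `s s' ∉ w` as `w` is prime, `c c' ≠ 0` as `AdjoinRoot f` is a domain, `Ideal.span_singleton_mul_span_singleton`, `Ideal.mul_mem_mul`.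
* `lag_choice`.  Choose `c v` for `v ∈ P` (`htwo`).  `W = {w : P → ZMod 2 × ZMod 2 | ∃ δ ≠ 0, norm a square, EvAt f v δ for all v ∉ P, w v = c v δ for all v}` is an additive subgroup: sums by products (`evAt_mul`, `norm` is
  multiplicative, `L` is a field), `0` from `δ = 1` (`c v 1 = c v (1 * 1) = c v 1 + c v 1`; `EvAt f v 1`: `I = J = ⊤`, `b = c = s = 1`), negatives are the elements themselves (`ZMod 2`).
  For `w ∈ W`, given by `δ`: let `T` be the finset of `parity_f`.  `none ∉ T` (`uni_inf`), `some ⟨Q, _⟩ ∉ T` if the place `LT.place Q _` is not in `P` (`uni_fin`, `isot_some`); for `v ∈ P` `v` is in `T` iff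
  `(w v).1 * (w v).2 ≠ 0`.  So `T` is in bijection with `{v ∈ P | (w v).1 * (w v).2 ≠ 0}` (`exists_pl`; `LT.place Q hQ = LT.place Q' hQ'` with `Q, Q'` monic implies `Q = Q'`: associated and monic), so this set has an
  even number of elements and `∑ v, (w v).1 * (w v).2 = 0` in `ZMod 2` (every element of `ZMod 2` is `0` or `1`).  `coord_lagrangian` gives `I₀ : Set P`; `I` = the `v ∈ P` with `⟨v, _⟩ ∈ I₀`.
  Let `D` be as in the statement and `δ` in the Selmer group.  `EvAt f v δ` for all `v ∉ I` : `D ∉ v`, or `D ∈ v`, `v ∉ I`, so `Harmless f v`: `hev`.  So `w = (c v δ)_v ∈ W`; for `v ∈ I` `(w v).1 = 0` by `TwoHom.val`, for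
  `v ∈ P`, `v ∉ I`: `EvAt f v δ`, so `(w v).2 = 0` (`TwoHom.ev`).  So `w = 0`: `c v δ = 0` for all `v ∈ P`, so `SqAt f v δ` for `v ∈ P` (`TwoHom.sq`) and `EvAt f v δ` for `v ∈ P`, so for all `v`: `hs0`, then `hS`.
-/

namespace Pool.Agent.H74.GR

open Polynomial Matrix IsDedekindDomain
open Pool.Agent.H94 (LT.place)
open Pool.Agent.H94.GG (tau Isot EvAt SqAt Special Harmless IsS0 IsSel IsVal Fam lead)
open Pool.Agent.H80.CC.Plane (overK overKv constKv toL toLv)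
open Pool.Agent.H74.FS

variable {F : Type} [Field F]

/-- the norm is a nonzero square -/
def NS (f : F[X][X]) (δ : AdjoinRoot (overK f)) : Prop :=
  δ ≠ 0 ∧ ∃ y : RatFunc F, Algebra.norm (RatFunc F) δ = y ^ 2

/-- the local classification at a special place: `c δ = (x, y)`, the class is `e ^ x τ ^ y` -/
structure TwoHom (f : F[X][X]) (v : HeightOneSpectrum F[X])
    (c : AdjoinRoot (overK f) → ZMod 2 × ZMod 2) : Prop where
  mul : ∀ δ δ', NS f δ → NS f δ' → c (δ * δ') = c δ + c δ'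
  sq : ∀ δ, NS f δ → (c δ = 0 ↔ SqAt f v δ)
  ev : ∀ δ, NS f δ → ((c δ).2 = 0 ↔ EvAt f v δ)
  iso : ∀ δ, NS f δ → (Isot (overKv f v) (toLv f v δ) ↔ (c δ).1 * (c δ).2 = 0)
  val : ∀ (D : F[X]) (δ), D ∈ v.asIdeal → D ∉ v.asIdeal ^ 2 → NS f δ →
    IsVal (constKv D v) (overKv f v) (toLv f v δ) → (c δ).1 = 0

theorem evAt_mul (f : F[X][X]) [IsDomain (AdjoinRoot f)] (v : HeightOneSpectrum F[X])
    (δ δ' : AdjoinRoot (overK f)) (h : EvAt f v δ) (h' : EvAt f v δ') : EvAt f v (δ * δ') := by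
  obtain ⟨I, J, b, c, s, hc, h1, h2, h3, h4⟩ := h
  obtain ⟨I', J', b', c', s', hc', h1', h2', h3', h4'⟩ := h'
  refine ⟨I * I', J * J', b * b', c * c', s * s', mul_ne_zero hc hc', ?_, ?_, ?_, ?_⟩
  · rw [map_mul, map_mul, ← h1, ← h1']
    ring
  · rw [← Ideal.span_singleton_mul_span_singleton, h2, h2']
    ring
  · rw [map_mul]
    exact Ideal.mul_mem_mul h3 h3'
  · intro h5
    rcases v.isPrime.mem_or_mem h5 with h6 | h6
    · exact h4 h6
    · exact h4' h6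

private theorem evAt_one (f : F[X][X]) [IsDomain (AdjoinRoot f)] (v : HeightOneSpectrum F[X]) :
    EvAt f v (1 : AdjoinRoot (overK f)) := by
  refine ⟨⊤, ⊤, 1, 1, 1, one_ne_zero, ?_, ?_, Submodule.mem_top, ?_⟩
  · rw [map_one, one_pow, mul_one]
  · rw [Ideal.span_singleton_one, ← Ideal.one_eq_top, one_pow, one_mul]
  · exact fun h => v.isPrime.ne_top ((Ideal.eq_top_iff_one _).2 h)

private theorem ns_mul {f : F[X][X]} (hirr : Irreducible (overK f)) {δ δ' : AdjoinRoot (overK f)}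
    (h : NS f δ) (h' : NS f δ') : NS f (δ * δ') := by
  have : Fact (Irreducible (overK f)) := ⟨hirr⟩
  obtain ⟨h1, y, hy⟩ := h
  obtain ⟨h1', y', hy'⟩ := h'
  exact ⟨mul_ne_zero h1 h1', y * y', by rw [map_mul, hy, hy', mul_pow]⟩

private theorem ns_one {f : F[X][X]} (hirr : Irreducible (overK f)) : NS f (1 : AdjoinRoot (overK f)) := by
  have : Fact (Irreducible (overK f)) := ⟨hirr⟩
  exact ⟨one_ne_zero, 1, by rw [map_one, one_pow]⟩

private theorem place_inj {Q Q' : F[X]} (hQ : Q.Monic) (hQ' : Q'.Monic) (hi : Irreducible Q)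
    (hi' : Irreducible Q') (h : LT.place Q hi = LT.place Q' hi') : Q = Q' := by
  have h1 : Ideal.span {Q} = Ideal.span {Q'} := congrArg HeightOneSpectrum.asIdeal h
  exact Polynomial.eq_of_monic_of_associated hQ hQ' (Ideal.span_singleton_eq_span_singleton.1 h1)

/-- the reciprocity law for the local classes -/
private theorem key_sum [Finite F] (h2 : (2 : F) ≠ 0) {m h n : ℕ} (f : F[X][X]) (hfam : Fam m h f)
    (hm : m = 2 * n + 1) (hl : Irreducible (lead m h f)) (hirr : Irreducible (overK f))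
    [IsDedekindDomain (AdjoinRoot f)] (P : Finset (HeightOneSpectrum F[X]))
    (c : {v // v ∈ P} → AdjoinRoot (overK f) → ZMod 2 × ZMod 2) (hc : ∀ v, TwoHom f v.1 (c v))
    (δ : AdjoinRoot (overK f)) (hδ : NS f δ) (hev : ∀ v ∉ P, EvAt f v δ) :
    ∑ v, (c v δ).1 * (c v δ).2 = 0 := by
  classical
  obtain ⟨T, hT, hT'⟩ := parity_f h2 f hfam.monic (hfam.deg.trans hm) hirr δ hδ.1 hδ.2
  have hpl : ∀ v : {v // v ∈ P}, ∃ w : {Q : F[X] // Q.Monic ∧ Irreducible Q}, v.1 = LT.place w.1 w.2.2 := by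
    intro v
    obtain ⟨Q, hQ, hi, hv⟩ := exists_pl v.1
    exact ⟨⟨Q, hQ, hi⟩, hv⟩
  choose j hj using hpl
  have hji : Function.Injective fun v => (some (j v) : Pl F) := by
    intro v v' hvv
    have h3 : j v = j v' := Option.some_injective _ hvv
    apply Subtype.ext
    rw [hj, hj]
    simp only [h3]
  have hTS : T = (Finset.univ.filter fun v : {v // v ∈ P} => (c v δ).1 * (c v δ).2 ≠ 0).image
      fun v => (some (j v) : Pl F) := by
    ext w
    rw [hT', Finset.mem_image]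
    constructor
    · intro hw
      rcases w with _ | ⟨Q, hQ, hi⟩
      · exact absurd (uni_inf h2 f hfam hm hl δ hδ.1 hδ.2) hw
      · rw [isot_some f hQ hi δ] at hw
        have hP : LT.place Q hi ∈ P := by
          by_contra hn
          exact hw (uni_fin h2 f hfam.monic (hfam.deg.trans hm) hirr _ δ hδ.1 (hev _ hn))
        refine ⟨⟨LT.place Q hi, hP⟩, ?_, ?_⟩
        · rw [Finset.mem_filter]
          exact ⟨Finset.mem_univ _, fun h4 => hw (((hc ⟨LT.place Q hi, hP⟩).iso δ hδ).2 h4)⟩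
        · have h3 := hj ⟨LT.place Q hi, hP⟩
          have h4 := place_inj hQ (j ⟨LT.place Q hi, hP⟩).2.1 hi (j ⟨LT.place Q hi, hP⟩).2.2 h3
          congr 1
          exact Subtype.ext h4.symm
    · rintro ⟨v, hv, rfl⟩
      rw [Finset.mem_filter] at hv
      intro h3
      refine hv.2 (((hc v).iso δ hδ).1 ?_)
      have h4 := (isot_some f (j v).2.1 (j v).2.2 δ).1 h3
      rwa [← hj] at h4
  have h3 : ∀ a : ZMod 2, a = if a ≠ 0 then 1 else 0 := by decide
  have h4 : ∑ v, (c v δ).1 * (c v δ).2 =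
      ((Finset.univ.filter fun v : {v // v ∈ P} => (c v δ).1 * (c v δ).2 ≠ 0).card : ZMod 2) := by
    rw [Finset.card_filter]
    push_cast
    exact Finset.sum_congr rfl fun v _ => h3 _
  rw [h4, ← Finset.card_image_of_injective _ hji, ← hTS]
  exact (ZMod.natCast_eq_zero_iff_even).2 hT

theorem lag_choice [Finite F] (h2 : (2 : F) ≠ 0) {m h n : ℕ} (f : F[X][X]) (hfam : Fam m h f)
    (hm : m = 2 * n + 1) (hl : Irreducible (lead m h f)) (hirr : Irreducible (overK f))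
    [IsDedekindDomain (AdjoinRoot f)] (P : Finset (HeightOneSpectrum F[X]))
    (htwo : ∀ v ∈ P, ∃ c, TwoHom f v c)
    (hev : ∀ (D : F[X]) (δ : AdjoinRoot (overK f)) (v : HeightOneSpectrum F[X]), IsSel D f δ →
      (D ∉ v.asIdeal ∨ Harmless f v) → EvAt f v δ)
    (hs0 : ∀ δ, NS f δ → (∀ v, EvAt f v δ) → IsS0 f δ)
    (hS : ∀ δ, IsS0 f δ → (∀ v ∈ P, SqAt f v δ) → ∃ z, δ = z ^ 2) :
    ∃ I ⊆ P, ∀ D : F[X], (∀ v ∈ I, D ∈ v.asIdeal ∧ D ∉ v.asIdeal ^ 2) →
      (∀ v ∈ P, v ∉ I → D ∉ v.asIdeal) → (∀ v, D ∈ v.asIdeal → v ∈ I ∨ Harmless f v) →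
      ∀ δ, IsSel D f δ → ∃ z, δ = z ^ 2 := by
  classical
  choose c' hc' using htwo
  obtain ⟨c, hc0⟩ : ∃ c : {v // v ∈ P} → AdjoinRoot (overK f) → ZMod 2 × ZMod 2, c = fun v => c' v.1 v.2 :=
    ⟨_, rfl⟩
  have hc : ∀ v, TwoHom f v.1 (c v) := by
    intro v
    rw [hc0]
    exact hc' v.1 v.2
  let W : AddSubgroup ({v // v ∈ P} → ZMod 2 × ZMod 2) :=
    { carrier := {w | ∃ δ, NS f δ ∧ (∀ v ∉ P, EvAt f v δ) ∧ ∀ v, w v = c v δ}
      zero_mem' := by
        refine ⟨1, ns_one hirr, fun v _ => evAt_one f v, fun v => ?_⟩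
        have h3 := (hc v).mul 1 1 (ns_one hirr) (ns_one hirr)
        rw [mul_one] at h3
        exact (left_eq_add.1 h3).symm
      add_mem' := by
        rintro w w' ⟨δ, h3, h4, h5⟩ ⟨δ', h3', h4', h5'⟩
        refine ⟨δ * δ', ns_mul hirr h3 h3', fun v hv => evAt_mul f v δ δ' (h4 v hv) (h4' v hv), fun v => ?_⟩
        rw [Pi.add_apply, h5, h5', (hc v).mul δ δ' h3 h3']
      neg_mem' := by
        rintro w ⟨δ, h3, h4, h5⟩
        refine ⟨δ, h3, h4, fun v => ?_⟩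
        rw [← h5]
        exact Prod.ext (ZMod.neg_eq_self_mod_two _) (ZMod.neg_eq_self_mod_two _) }
  obtain ⟨I₀, hI₀⟩ := coord_lagrangian W (by
    rintro w ⟨δ, h3, h4, h5⟩
    rw [← key_sum h2 f hfam hm hl hirr P c hc δ h3 h4]
    exact Finset.sum_congr rfl fun v _ => by rw [h5])
  refine ⟨P.filter fun v => ∃ hv : v ∈ P, (⟨v, hv⟩ : {v // v ∈ P}) ∈ I₀, Finset.filter_subset _ _, ?_⟩
  intro D hD1 hD2 hD3 δ hδ
  have memI : ∀ v (hv : v ∈ P), (⟨v, hv⟩ : {v // v ∈ P}) ∈ I₀ →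
      v ∈ P.filter fun v => ∃ hv : v ∈ P, (⟨v, hv⟩ : {v // v ∈ P}) ∈ I₀ := by
    intro v hv h3
    exact Finset.mem_filter.2 ⟨hv, hv, h3⟩
  have memI' : ∀ v, (v ∈ P.filter fun v => ∃ hv : v ∈ P, (⟨v, hv⟩ : {v // v ∈ P}) ∈ I₀) →
      ∃ hv : v ∈ P, (⟨v, hv⟩ : {v // v ∈ P}) ∈ I₀ := by
    intro v h3
    exact (Finset.mem_filter.1 h3).2
  have hns : NS f δ := ⟨hδ.ne_zero, hδ.norm⟩
  have hE : ∀ v, (v ∉ P.filter fun v => ∃ hv : v ∈ P, (⟨v, hv⟩ : {v // v ∈ P}) ∈ I₀) → EvAt f v δ := by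
    intro v hv
    by_cases h3 : D ∈ v.asIdeal
    · rcases hD3 v h3 with h4 | h4
      · exact absurd h4 hv
      · exact hev D δ v hδ (Or.inr h4)
    · exact hev D δ v hδ (Or.inl h3)
  have hw : (fun v => c v δ) ∈ W := ⟨δ, hns, fun v hv => hE v fun h3 => hv (memI' v h3).1, fun _ => rfl⟩
  have hw0 : (fun v => c v δ) = 0 := by
    refine hI₀ _ hw fun v => ⟨fun h3 => ?_, fun h3 => ?_⟩
    · obtain ⟨h4, h5⟩ := hD1 v.1 (memI v.1 v.2 h3)
      exact (hc v).val D δ h4 h5 hns (hδ.locally v.1)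
    · exact ((hc v).ev δ hns).2 (hE v.1 fun h4 => h3 (memI' v.1 h4).2)
  have hw1 : ∀ v, c v δ = 0 := fun v => congrFun hw0 v
  refine hS δ (hs0 δ hns fun v => ?_) fun v hv => ((hc ⟨v, hv⟩).sq δ hns).1 (hw1 _)
  by_cases hv : v ∈ P.filter fun v => ∃ hv : v ∈ P, (⟨v, hv⟩ : {v // v ∈ P}) ∈ I₀
  · obtain ⟨h3, -⟩ := memI' v hv
    exact ((hc ⟨v, h3⟩).ev δ hns).1 (by rw [hw1]; rfl)
  · exact hE v hv

end Pool.Agent.H74.GR
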