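import Pool.Agent.H74.GR.UD
import Pool.Agent.H74.GR.Lag

set_option autoImplicit false

/-!
# [H74 GR UE] Special places have the structure `TwoHom`; end statement for G1

* `two_hom`: `exists_loc v`, `special_spl` (`S.f = f.map (embO v)`, `S.fM = overKv f v`), `two_ne`, `exists_lhom_of_eq` for `g = overKv f v` gives `c₀`; `c = c₀ ∘ toLv f v`.  `NS f δ` implies `NM (toLv f v δ)` (`δ ≠ 0` is a unit of the field `L`, `norm_toLv`).
  `mul`, `sq` (`SqAt` by definition): clear (`map_mul`).  `ev`: `EvG S (overKv f v) (toLv f v δ)` iff `EvAt f v δ`: `evAt_of_ev` and `ev_of_evAt` (`H94/GG/SQ`).  `iso`: if `(c δ).2 = 0` then `EvAt f v δ`, so isotropic by `uni_fin` (`H74/GR/Unf`), and the product is `0`; otherwise `(c δ).2 = 1` and `LHom.iso`.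
  `val`: `embO v D` has value `exp (-1)` (copy the computation `hDv` in `sp_main`, `H94/GG/SG`), `LHom.val` with `D := embO v D` (`coe_embO`).
* `g1_choice`: `lag_choice` with `htwo` = `two_hom`, `hev`: `exists_bc`, `evB_of_harmless`, `evB_of_val` (as in `sel_one`, `H94/GG/SEL`), `evAt_of_evB`; `hs0`: `exists_bc`; `EvAt f v δ` for all `v` implies `IsS0 f δ`: by `evB_all` it is enough that `EvB f v b` for all `v`: from `EvAt f v δ`
  (`I`, `J`, `b'`, `c'`, `s` with `δ c' ^ 2 = b'`, `(b') = I ^ 2 J`): `b c' ^ 2 = b' c ^ 2` in `O` (`toL` is injective), and for `w` over `v` the multiplicity of `(b')` at `w` is `2 mult_w (I)` because `J` is not contained in `w` (`s ∈ J`, `s ∉ w`), `mult_w (b) + 2 mult_w (c') = mult_w (b') + 2 mult_w (c)`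
  (see `norm_gen` / `mult_twist` in `H94/GG/SB` for multiplicities of products, or valuations `w.intValuation`).
-/

namespace Pool.Agent.H74.GR

open Polynomial WithZero IsDedekindDomain
open Pool.Agent.H94.GG
open Pool.Agent.H80.CC.Plane (overK overKv constKv toL toLv)

variable {F : Type} [Field F]

theorem two_hom [Finite F] (h2 : (2 : F) ≠ 0) {f : F[X][X]} (hf : f.Monic) {n : ℕ}
    (hm : f.natDegree = 2 * n + 1) (hirr : Irreducible (overK f)) [IsDedekindDomain (AdjoinRoot f)]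
    {v : HeightOneSpectrum F[X]} (hv : Special f v) : ∃ c, TwoHom f v c := by
  have hodd : Odd f.natDegree := ⟨n, hm⟩
  obtain ⟨κ, _, _, e, L, hL⟩ := exists_loc v
  obtain ⟨S, hS1, hS2⟩ := special_spl hf hodd hv e L hL
  have hκ2 := two_ne h2 e
  let _ : Fact (Irreducible (overK f)) := ⟨hirr⟩
  obtain ⟨c₀, hc⟩ := exists_lhom_of_eq hκ2 S (overKv f v) hS2.symm
  have hNM : ∀ δ, NS f δ → NM (toLv f v δ) := by
    rintro δ ⟨h0, x, hx⟩
    exact ⟨(isUnit_iff_ne_zero.2 h0).map _, _, by rw [norm_toLv hf, hx, map_pow]⟩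
  have hE : ∀ δ, NS f δ → (EvG S (overKv f v) (toLv f v δ) ↔ EvAt f v δ) := fun δ h =>
    ⟨fun h' => evAt_of_ev hf hodd S hS1 h.1 h.2 h', fun h' => ev_of_evAt hf S hS1 h.1 h'⟩
  refine ⟨fun δ => c₀ (toLv f v δ), ?_, ?_, ?_, ?_, ?_⟩
  · intro δ δ' h h'
    show c₀ (toLv f v (δ * δ')) = _
    rw [map_mul]
    exact hc.mul _ _ (hNM δ h) (hNM δ' h')
  · intro δ h
    exact hc.sq _ (hNM δ h)
  · intro δ h
    exact (hc.ev _ (hNM δ h)).trans (hE δ h)
  · intro δ h
    show _ ↔ (c₀ (toLv f v δ)).1 * (c₀ (toLv f v δ)).2 = 0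
    by_cases h0 : (c₀ (toLv f v δ)).2 = 0
    · rw [h0, mul_zero]
      refine ⟨fun _ => rfl, fun _ => ?_⟩
      exact uni_fin h2 f hf (g := n) hm hirr v δ h.1
        ((hE δ h).1 ((hc.ev _ (hNM δ h)).1 h0))
    · rw [hc.iso _ (hNM δ h) h0]
      constructor
      · intro h1
        rw [h1, zero_mul]
      · intro h1
        rcases mul_eq_zero.1 h1 with h3 | h3
        · exact h3
        · exact absurd h3 h0
  · intro D δ hD1 hD2 h hval
    have hDv : (Valued.v ((embO v D : OO (v.adicCompletion (RatFunc F))) :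
        v.adicCompletion (RatFunc F)) : ℤᵐ⁰) = exp (-1 : ℤ) := by
      rw [embO_val]
      have hD0 : D ≠ 0 := by
        rintro rfl
        exact hD2 (zero_mem _)
      refine le_antisymm ?_ ?_
      · have h1 := (v.intValuation_le_pow_iff_mem D 1).2 (by rwa [pow_one])
        simpa using h1
      · by_contra h1
        apply hD2
        rw [← v.intValuation_le_pow_iff_mem D 2]
        rw [not_le] at h1
        have h3 : v.intValuation D ≠ 0 := v.intValuation_ne_zero D hD0
        rw [← exp_log h3] at h1 ⊢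
        rw [exp_lt_exp] at h1
        rw [exp_le_exp]
        push_cast
        omega
    exact hc.val (embO v D) _ hDv (hNM δ h) hval

private theorem mult_even {B : Type*} [CommRing B] [IsDedekindDomain B] (w : HeightOneSpectrum B)
    {b b' c c' : B} (hb : b ≠ 0) (hb' : b' ≠ 0) (hc : c ≠ 0) (hc' : c' ≠ 0)
    (he : b * c' ^ 2 = b' * c ^ 2) {I J : Ideal B} (hI : Ideal.span {b'} = I ^ 2 * J)
    (hJ : ¬ w.asIdeal ∣ J) : 2 ∣ multiplicity w.asIdeal (Ideal.span {b}) := by
  have h1 := congrArg w.intValuation he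
  rw [map_mul, map_mul, map_pow, map_pow, w.intValuation_eq_exp_neg_multiplicity hb,
    w.intValuation_eq_exp_neg_multiplicity hb', w.intValuation_eq_exp_neg_multiplicity hc,
    w.intValuation_eq_exp_neg_multiplicity hc', ← exp_nsmul, ← exp_nsmul, ← exp_add, ← exp_add,
    exp_inj] at h1
  simp only [nsmul_eq_mul] at h1
  push_cast at h1
  have hne : Ideal.span {b'} ≠ (⊥ : Ideal B) := by
    rw [Ne, Ideal.span_singleton_eq_bot]
    exact hb'
  rw [hI] at hne
  have hIJ : I ^ 2 * J ≠ 0 := hne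
  have hI0 : I ≠ 0 := by
    rintro rfl
    exact hIJ (by rw [zero_pow two_ne_zero, zero_mul])
  have hp : Prime w.asIdeal := w.prime
  have h2 : multiplicity w.asIdeal (Ideal.span {b'}) = 2 * multiplicity w.asIdeal I := by
    rw [hI, multiplicity_mul hp (FiniteMultiplicity.of_prime_left hp hIJ),
      FiniteMultiplicity.multiplicity_pow hp (FiniteMultiplicity.of_prime_left hp hI0),
      multiplicity_eq_zero.2 hJ, add_zero]
  rw [h2] at h1
  push_cast at h1
  omega

theorem evB_of_evAt {f : F[X][X]} (hf : f.Monic) [IsDedekindDomain (AdjoinRoot f)]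
    {v : HeightOneSpectrum F[X]} {δ : AdjoinRoot (overK f)} {b c : AdjoinRoot f} (hb : b ≠ 0)
    (hc : c ≠ 0) (he : δ * toL f c ^ 2 = toL f b) (h : EvAt f v δ) : EvB f v b := by
  obtain ⟨I, J, b', c', s, hc', he', hI, hsJ, hsv⟩ := h
  have hinj : Function.Injective (toL f) := H94.TC.toField_injective (RatFunc F) f hf
  let _ : Fact (Irreducible (overK f)) := ⟨H94.TC.irreducible_map (RatFunc F) f hf⟩
  have heq : b * c' ^ 2 = b' * c ^ 2 := by
    apply hinj
    rw [map_mul, map_mul, map_pow, map_pow, ← he, ← he']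
    ring
  have hb' : b' ≠ 0 := by
    rintro rfl
    rw [zero_mul] at heq
    exact mul_ne_zero hb (pow_ne_zero 2 hc') heq
  intro w hw
  refine mult_even w hb hb' hc hc' heq hI fun hd => hsv ?_
  have h1 : J ≤ w.asIdeal := Ideal.le_of_dvd hd
  have h2 : v.asIdeal = w.asIdeal.under F[X] := hw.over
  rw [h2]
  exact h1 hsJ

theorem g1_choice [Finite F] (h2 : (2 : F) ≠ 0) {m h n : ℕ} (f : F[X][X]) (hfam : Fam m h f)
    (hm : m = 2 * n + 1) (hl : Irreducible (lead m h f)) (hirr : Irreducible (overK f))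
    [IsDedekindDomain (AdjoinRoot f)] (P : Finset (HeightOneSpectrum F[X]))
    (hP : ∀ v ∈ P, Special f v)
    (hS : ∀ δ, IsS0 f δ → (∀ v ∈ P, SqAt f v δ) → ∃ z, δ = z ^ 2) :
    ∃ I ⊆ P, ∀ D : F[X], (∀ v ∈ I, D ∈ v.asIdeal ∧ D ∉ v.asIdeal ^ 2) →
      (∀ v ∈ P, v ∉ I → D ∉ v.asIdeal) → (∀ v, D ∈ v.asIdeal → v ∈ I ∨ Harmless f v) →
      ∀ δ, IsSel D f δ → ∃ z, δ = z ^ 2 := by
  have hf : f.Monic := hfam.monic
  have hdeg : f.natDegree = 2 * n + 1 := hfam.deg.trans hm
  have hodd : Odd f.natDegree := ⟨n, hdeg⟩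
  refine lag_choice h2 f hfam hm hl hirr P (fun v hv => two_hom h2 hf hdeg hirr (hP v hv)) ?_ ?_ hS
  · intro D δ v hδ hv
    obtain ⟨b, c, hb, hc, he⟩ := exists_bc hf hδ.ne_zero
    refine evAt_of_evB hf hb hc he ?_
    rcases hv with hv | hv
    · exact evB_of_val hf hodd hb hδ.ne_zero hc he hδ.norm hv (hδ.locally v)
    · exact evB_of_harmless hf hodd hb hδ.ne_zero hc he hδ.norm hv
  · intro δ hδ hev
    obtain ⟨b, c, hb, hc, he⟩ := exists_bc hf hδ.1
    exact evB_all hf hb hδ.1 hc he hδ.2 fun w => evB_of_evAt hf hb hc he (hev w)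

end Pool.Agent.H74.GR
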