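import Pool.Agent.H94.GG.TA

set_option autoImplicit false

namespace Pool.Agent.H74.GR

open Polynomial IsDedekindDomain
open Pool.Agent.H80.CC.Plane (overK overKv constKv toL toLv)

variable {F : Type} [Field F]

private theorem wb_cop {R k K : Type} [CommRing R] [Field k] [Field K] (φ : R →+* k) (ψ : R →+* K)
    (hψ : Function.Injective ψ) {P Q : R[X]} (hP : P.Monic)
    (h : IsCoprime (P.map φ) (Q.map φ)) : IsCoprime (P.map ψ) (Q.map ψ) := by
  have hnt : Nontrivial R := ψ.domain_nontrivial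
  have h0 : φ (resultant P Q P.natDegree Q.natDegree) ≠ 0 := by
    rw [← resultant_map_map]
    have h1 := (isUnit_resultant_iff_isCoprime (hP.map φ)).2 h
    obtain ⟨j, hj⟩ := Nat.exists_eq_add_of_le (natDegree_map_le (f := φ) (p := Q))
    rw [hj, resultant_add_right_deg _ _ _ _ _ le_rfl]
    rw [hP.natDegree_map] at h1
    have h2 : (P.map φ).coeff P.natDegree = 1 := by
      rw [coeff_map, hP.coeff_natDegree, map_one]
    rw [h2, one_pow, one_mul]
    exact h1.ne_zero
  have h3 : resultant P Q P.natDegree Q.natDegree ≠ 0 := fun h4 => h0 (by rw [h4, map_zero])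
  rw [← isUnit_resultant_iff_isCoprime (hP.map ψ), hP.natDegree_map, natDegree_map_eq_of_injective hψ,
    resultant_map_map]
  exact IsUnit.mk0 _ ((map_ne_zero_iff ψ hψ).2 h3)

theorem sep_over {f : F[X][X]} (hf : f.Monic) (v : HeightOneSpectrum F[X])
    (h : (f.map (Ideal.Quotient.mk v.asIdeal)).Separable) : (overK f).Separable := by
  haveI := v.isMaximal
  letI : Field (F[X] ⧸ v.asIdeal) := Ideal.Quotient.field v.asIdeal
  have h1 : IsCoprime (f.map (Ideal.Quotient.mk v.asIdeal)) ((derivative f).map (Ideal.Quotient.mk v.asIdeal)) := by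
    rw [← derivative_map]
    exact h
  have h2 := wb_cop (Ideal.Quotient.mk v.asIdeal) (algebraMap F[X] (RatFunc F))
    (IsFractionRing.injective F[X] (RatFunc F)) hf h1
  rw [← derivative_map] at h2
  exact h2

theorem sep_scale {f : F[X][X]} (hf : f.Monic) {D : F[X]} (hD : D ≠ 0)
    (h : (overK f).Separable) : (overK (f.scaleRoots D)).Separable := by
  obtain ⟨d, hd⟩ : ∃ d : RatFunc F, d = algebraMap F[X] (RatFunc F) D := ⟨_, rfl⟩
  have hd0 : d ≠ 0 := by
    rw [hd]
    exact (map_ne_zero_iff _ (IsFractionRing.injective F[X] (RatFunc F))).2 hD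
  obtain ⟨g, hg⟩ : ∃ g : (RatFunc F)[X], g = overK f := ⟨_, rfl⟩
  have hgm : g.Monic := by
    rw [hg]
    exact hf.map _
  have h1 : overK (f.scaleRoots D) = g.scaleRoots d := by
    rw [hg, hd]
    refine Polynomial.map_scaleRoots f D (algebraMap F[X] (RatFunc F)) ?_
    rw [hf.leadingCoeff, map_one]
    exact one_ne_zero
  have h2 : g.scaleRoots d = C (d ^ g.natDegree) * g.comp (C d⁻¹ * X) := by
    ext i
    rw [coeff_scaleRoots, coeff_C_mul, comp_C_mul_X_coeff]
    rcases le_or_gt i g.natDegree with hi | hi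
    · rw [pow_sub₀ d hd0 hi, inv_pow]
      ring
    · rw [coeff_eq_zero_of_natDegree_lt hi]
      ring
  rw [h1, h2]
  rw [← hg] at h
  obtain ⟨a, b, hab⟩ := h
  have h3 := congrArg (fun p : (RatFunc F)[X] => p.comp (C d⁻¹ * X)) hab
  simp only [add_comp, mul_comp, one_comp] at h3
  have h4 : IsCoprime (g.comp (C d⁻¹ * X)) (derivative (g.comp (C d⁻¹ * X))) := by
    refine ⟨a.comp (C d⁻¹ * X), b.comp (C d⁻¹ * X) * C d, ?_⟩
    rw [derivative_comp, derivative_C_mul, derivative_X, mul_one]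
    rw [← h3]
    have h5 : (C d * C d⁻¹ : (RatFunc F)[X]) = 1 := by
      rw [← C_mul, mul_inv_cancel₀ hd0, C_1]
    linear_combination (b.comp (C d⁻¹ * X) * (derivative g).comp (C d⁻¹ * X)) * h5
  have hu : IsUnit (C (d ^ g.natDegree) : (RatFunc F)[X]) :=
    isUnit_C.2 (IsUnit.mk0 _ (pow_ne_zero _ hd0))
  unfold Polynomial.Separable
  rw [derivative_C_mul]
  exact (isCoprime_mul_unit_left hu _ _).2 h4

end Pool.Agent.H74.GR
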