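import Pool.Agent.H94.GG.Defs

set_option autoImplicit false

/-!
# [H74 GR Evu] An element which is even at the primes above `w` is there a unit times a square

`O = AdjoinRoot f` Dedekind, `A = F[X]`.  `EvAt`: `c ≠ 0`, `β c ^ 2 = b`, `(b) = I ^ 2 J`, `s ∈ J`, `s ∈ A` not in `w`.  Since `β, c ≠ 0`: `b ≠ 0`, `I ≠ 0`.
Let `M = Algebra.algebraMapSubmonoid O w.asIdeal.primeCompl` and `O_w = Localization M`, a principal ideal domain: `IsDedekindDomain.isPrincipalIdealRing_localization_over_prime` (Mathlib, `RingTheory/DedekindDomain/PID`,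
arguments: the prime `w.asIdeal ≠ ⊥` of `A`, `O` is a finite (integral), torsion free extension of `A`: `hf.finite_adjoinRoot`, see how `H80/CC/SelIdeal` obtains the instances, `torsionFree_adjoinRoot`).
(ALTERNATIVE if this is painful: `IsPrincipalIdealRing.of_finite_primes`; or the Chinese remainder theorem in `O` for the finitely many primes above `w`: choose `z₀ ∈ I` in no `𝔭 I`.)
The image of `I` in `O_w` is principal, generated by the image of some `z₀ ∈ O` (a generator `x / m` can be multiplied by the unit `m`).  The image of `J` is `⊤` (it contains the unit `s`).  So the image of `(b)` is the image of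
`(z₀ ^ 2)`: there are `a₁, a₂ ∈ O`, `s₁, s₂ ∈ A` not in `w` with `b s₁ = z₀ ^ 2 a₁`, `z₀ ^ 2 s₂ = b a₂` (`IsLocalization` elements of `M` are images of elements of `A` not in `w`; the map `O → O_w` is injective).
`z₀ ≠ 0`.  So `a₁ a₂ = s₁ s₂` (cancel `b z₀ ^ 2`).  `z = c s₁ / z₀`: `β z ^ 2 = b s₁ ^ 2 / z₀ ^ 2 = a₁ s₁`.  `a = a₁ s₁`, `a' = a₂`, `s = s₁ ^ 2 s₂`.
(`toL f` is injective: `H80.CC.toField_injective`, `toL = toField`-type lemma of `H80/CC/SelIdeal`, the definitions `toL` and `toField` agree by `rfl`.)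
`evat_of_unit`: the converse is not needed.
-/

namespace Pool.Agent.H74.GR

open Polynomial IsDedekindDomain
open Pool.Agent.H94.GG (EvAt)
open Pool.Agent.H80.CC.Plane (overK overKv constKv toL toLv)

private theorem evat_gen {A O : Type*} [CommRing A] [IsDedekindDomain A] [CommRing O]
    [IsDedekindDomain O] [Algebra A O] [Module.Finite A O] [Module.IsTorsionFree A O]
    (w : HeightOneSpectrum A) (I J : Ideal O) (b : O) (s : A) (hb : b ≠ 0)
    (hI : Ideal.span {b} = I ^ 2 * J) (hs : algebraMap A O s ∈ J) (hsw : s ∉ w.asIdeal) :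
    ∃ (x a₁ a₂ : O) (t₁ t₂ : A), x ≠ 0 ∧ t₁ ∉ w.asIdeal ∧ t₂ ∉ w.asIdeal ∧
      b * algebraMap A O t₁ = x ^ 2 * a₁ ∧ x ^ 2 * algebraMap A O t₂ = b * a₂ := by
  classical
  have hM : Algebra.algebraMapSubmonoid O w.asIdeal.primeCompl ≤ nonZeroDivisors O :=
    map_le_nonZeroDivisors_of_injective _ (FaithfulSMul.algebraMap_injective A O)
      w.asIdeal.primeCompl_le_nonZeroDivisors
  let S := Localization (Algebra.algebraMapSubmonoid O w.asIdeal.primeCompl)
  have hdom : IsDomain S := IsLocalization.isDomain_localization hM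
  have hded : IsDedekindDomain S := IsLocalization.isDedekindDomain O hM S
  have hpid : IsPrincipalIdealRing S :=
    IsDedekindDomain.isPrincipalIdealRing_localization_over_prime O w.asIdeal w.ne_bot
  have hinj : Function.Injective (algebraMap O S) := IsLocalization.injective S hM
  have hun : ∀ t : A, t ∉ w.asIdeal → IsUnit (algebraMap O S (algebraMap A O t)) := fun t ht =>
    IsLocalization.map_units S (⟨algebraMap A O t, t, ht, rfl⟩ :
      Algebra.algebraMapSubmonoid O w.asIdeal.primeCompl)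
  obtain ⟨y, hy⟩ := (IsPrincipalIdealRing.principal (I.map (algebraMap O S))).principal
  obtain ⟨⟨x, m⟩, hxm⟩ := IsLocalization.surj (Algebra.algebraMapSubmonoid O w.asIdeal.primeCompl) y
  have hy' : I.map (algebraMap O S) = Ideal.span {algebraMap O S x} := by
    rw [hy, Ideal.submodule_span_eq, ← hxm]
    exact (Ideal.span_singleton_mul_right_unit (IsLocalization.map_units S m) y).symm
  have e : Ideal.span {algebraMap O S b} = Ideal.span {algebraMap O S (x ^ 2)} := by
    have h1 := congrArg (Ideal.map (algebraMap O S)) hI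
    have h2 : J.map (algebraMap O S) = ⊤ :=
      Ideal.eq_top_of_isUnit_mem _ (Ideal.mem_map_of_mem _ hs) (hun s hsw)
    rw [Ideal.map_mul, Ideal.map_pow, hy', Ideal.map_span, Set.image_singleton,
      Ideal.span_singleton_pow, h2, Ideal.mul_top] at h1
    rw [h1, map_pow]
  obtain ⟨u, hu⟩ := Ideal.span_singleton_eq_span_singleton.1 e
  obtain ⟨⟨a₂, ⟨_, t₂, ht₂, rfl⟩⟩, h₂⟩ :=
    IsLocalization.surj (Algebra.algebraMapSubmonoid O w.asIdeal.primeCompl) (u : S)
  obtain ⟨⟨a₁, ⟨_, t₁, ht₁, rfl⟩⟩, h₁⟩ :=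
    IsLocalization.surj (Algebra.algebraMapSubmonoid O w.asIdeal.primeCompl) ((u⁻¹ : Sˣ) : S)
  have h₂' : (u : S) * algebraMap O S (algebraMap A O t₂) = algebraMap O S a₂ := h₂
  have h₁' : ((u⁻¹ : Sˣ) : S) * algebraMap O S (algebraMap A O t₁) = algebraMap O S a₁ := h₁
  have huu : (u : S) * ((u⁻¹ : Sˣ) : S) = 1 := Units.mul_inv u
  refine ⟨x, a₁, a₂, t₁, t₂, ?_, ht₁, ht₂, ?_, ?_⟩
  · rintro rfl
    rw [zero_pow two_ne_zero, map_zero] at hu
    rcases mul_eq_zero.1 hu with h | h
    · exact hb (hinj (by rw [h, map_zero]))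
    · exact u.ne_zero h
  · apply hinj
    rw [map_mul, map_mul, ← hu, ← h₁']
    linear_combination (- algebraMap O S b * algebraMap O S (algebraMap A O t₁)) * huu
  · apply hinj
    rw [map_mul, map_mul, ← hu, ← h₂']
    ring

theorem evat_unit {F : Type} [Field F] (f : F[X][X]) (hf : f.Monic)
    (hirr : Irreducible (overK f)) [IsDedekindDomain (AdjoinRoot f)] (w : HeightOneSpectrum F[X])
    (β : AdjoinRoot (overK f)) (hβ : β ≠ 0) (h : EvAt f w β) :
    ∃ (z : AdjoinRoot (overK f)) (a a' : AdjoinRoot f) (s : F[X]), z ≠ 0 ∧ s ∉ w.asIdeal ∧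
      β * z ^ 2 = toL f a ∧ a * a' = algebraMap F[X] (AdjoinRoot f) s := by
  obtain ⟨I, J, b, c, s, hc, hbc, hI, hsJ, hsw⟩ := h
  let _ : Fact (Irreducible (overK f)) := ⟨hirr⟩
  have := H94.TC.torsionFree_adjoinRoot f hf
  have : Module.Finite F[X] (AdjoinRoot f) := hf.finite_adjoinRoot
  have hinj : Function.Injective (toL f) := H94.TC.toField_injective (RatFunc F) f hf
  have hne : ∀ {x : AdjoinRoot f}, x ≠ 0 → toL f x ≠ 0 := fun hx h0 =>
    hx (hinj (by rw [h0, map_zero]))
  have hb : b ≠ 0 := by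
    rintro rfl
    rw [map_zero] at hbc
    rcases mul_eq_zero.1 hbc with h | h
    · exact hβ h
    · exact hne hc (pow_eq_zero_iff two_ne_zero |>.1 h)
  obtain ⟨x, a₁, a₂, t₁, t₂, hx, ht₁, ht₂, e₁, e₂⟩ := evat_gen w I J b s hb hI hsJ hsw
  have ht₁' : algebraMap F[X] (AdjoinRoot f) t₁ ≠ 0 := by
    intro h0
    apply ht₁
    rw [(map_eq_zero_iff _ (FaithfulSMul.algebraMap_injective F[X] (AdjoinRoot f))).1 h0]
    exact Ideal.zero_mem _
  have e₃ : a₁ * a₂ = algebraMap F[X] (AdjoinRoot f) t₁ * algebraMap F[X] (AdjoinRoot f) t₂ := by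
    have h0 : b * x ^ 2 ≠ 0 := mul_ne_zero hb (pow_ne_zero 2 hx)
    apply mul_left_cancel₀ h0
    linear_combination (- b * a₂) * e₁ - (b * algebraMap F[X] (AdjoinRoot f) t₁) * e₂
  refine ⟨toL f (c * algebraMap F[X] (AdjoinRoot f) t₁) / toL f x,
    a₁ * algebraMap F[X] (AdjoinRoot f) t₁, a₂, t₁ ^ 2 * t₂, ?_, ?_, ?_, ?_⟩
  · exact div_ne_zero (hne (mul_ne_zero hc ht₁')) (hne hx)
  · intro hmem
    rcases w.isPrime.mem_or_mem hmem with h | h
    · exact ht₁ (w.isPrime.mem_of_pow_mem 2 h)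
    · exact ht₂ h
  · rw [div_pow, mul_div_assoc', div_eq_iff (pow_ne_zero 2 (hne hx)), map_mul (toL f) c, mul_pow,
      ← mul_assoc, hbc, ← map_pow (toL f) (algebraMap F[X] (AdjoinRoot f) t₁) 2,
      ← map_pow (toL f) x 2, ← map_mul (toL f), ← map_mul (toL f)]
    congr 1
    linear_combination (algebraMap F[X] (AdjoinRoot f) t₁) * e₁
  · rw [map_mul, map_pow]
    linear_combination (algebraMap F[X] (AdjoinRoot f) t₁) * e₃

end Pool.Agent.H74.GR
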