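import Pool.Agent.H74.GR.Iso
import Pool.Agent.H94.GG.Defs

set_option autoImplicit false

/-!
# [H74 GR Gra] The Gram matrix of the form `(x, y) ↦ tau (β x y)`

`g` monic of degree `m = 2 n + 1`, `θ = root g`, the powers `θ ^ i`, `i < m`, are a basis of `k[x]/(g)` (`AdjoinRoot.powerBasis'`), `gram hg n β` has the entries `tau (β θ ^ i θ ^ j)`.
* `tau_root`: `tau (θ ^ i) = 1` for `i = 2 n`, `0` for `i < 2 n` (`modByMonicHom` of `mk (X ^ i)` is `X ^ i`, `modByMonic_eq_self_iff`).  `tau_mk`: `tau (mk p) = (p %ₘ g).coeff (deg g - 1)` (`AdjoinRoot.modByMonicHom_mk`).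
* `gram_symm`: commutativity.
* `isot_iff`: for `x = ∑ i, a i θ ^ i`, `y = ∑ j, b j θ ^ j`: `tau (β x y) = a ⬝ᵥ gram *ᵥ b` (bilinear).  The linear equivalence `(Fin (2 n + 1) → k) ≃ AdjoinRoot g` from the power basis (`(AdjoinRoot.powerBasis' hg).basis.equivFun`,
  reindexed along `hm`; `Fin.castOrderIso`/`finCongr`) carries a subspace `X` to a subspace of the same dimension.  In (←) take a subspace of dimension exactly `n` of `X` (`IsoM.fam`, span of the family,
  `finrank_span_eq_card`; the form is zero on it).  `natDegree / 2 = n`.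
* `gram_det`: `gram β = H * M` with `H = gram 1` and `M = Algebra.leftMulMatrix basis β` (`β θ ^ j = ∑ l, M l j θ ^ l`, `tau (θ ^ i θ ^ l) = H i l`), `det M = Algebra.norm k β` (`Algebra.norm_eq_matrix_det`).
  `H i j = 0` for `i + j < 2 n` and `1` for `i + j = 2 n`: `H` with the rows reversed (`Fin.rev`) is (lower/upper) triangular with diagonal `1`, so `det H = sign (Fin.revPerm) = (-1) ^ n`
  (`Matrix.det_permute'`, `Matrix.det_of_upperTriangular`/`lowerTriangular`; the sign of `Fin.revPerm` on `Fin (2 n + 1)` is `(-1) ^ n`: if Mathlib has no lemma (search `sign_revPerm`), use induction on `n` for the DETERMINANT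
  instead: expand along the first row and the first column: only the corner entries are nonzero in row `0` (entries `H 0 j = 0` for `j < 2 n`) : `det = (+1) * (entry (0, 2 n) = 1) * (minor)`, then the minor (rows `1..2n`, columns
  `0..2n-1`) has first column with only the last entry: sign `(-1) ^ (2 n - 1) = -1`; the remaining matrix is of the same kind of size `2 n - 1`.  State it for all matrices with `H i j = 0` for `i + j < 2 n`, `= 1` for `i + j = 2 n`.)
* `gram_map`: `AdjoinRoot.map φ g (g.map φ) _ (mk g p) = mk (g.map φ) (p.map φ)`, `Polynomial.map_modByMonic`, `coeff_map`, `natDegree_map`.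
* `isot_sq`: `X ↦ z X` (`z` a unit): `tau (β (z x) (z y)) = tau (β z ^ 2 x y)`; the multiplication by a unit is a linear equivalence (`Submodule.map`, `LinearEquiv.finrank_map_eq`).
* `norm_map_ne` (`β` a unit): not needed.
-/

namespace Pool.Agent.H74.GR

open Polynomial Matrix
open Pool.Agent.H94.GG (tau Isot)

variable {k : Type} [Field k] {g : k[X]}

/-- the Gram matrix of the form of `β` in the basis of the powers of the root -/
noncomputable def gram (hg : g.Monic) (n : ℕ) (β : AdjoinRoot g) :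
    Matrix (Fin (2 * n + 1)) (Fin (2 * n + 1)) k :=
  Matrix.of fun i j => tau hg (β * AdjoinRoot.root g ^ (i : ℕ) * AdjoinRoot.root g ^ (j : ℕ))

theorem tau_mk (hg : g.Monic) (p : k[X]) :
    tau hg (AdjoinRoot.mk g p) = (p %ₘ g).coeff (g.natDegree - 1) := by
  unfold Pool.Agent.H94.GG.tau
  rw [LinearMap.comp_apply, AdjoinRoot.modByMonicHom_mk, Polynomial.lcoeff_apply]

private theorem tau_pow (hg : g.Monic) (i : ℕ) (hi : i < g.natDegree) :
    tau hg (AdjoinRoot.root g ^ i) = if i = g.natDegree - 1 then 1 else 0 := by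
  rw [← AdjoinRoot.mk_X, ← map_pow, tau_mk, (modByMonic_eq_self_iff hg).2, coeff_X_pow]
  · simp only [eq_comm]
  · rw [degree_X_pow, degree_eq_natDegree hg.ne_zero]
    exact_mod_cast hi

/-- the basis of the powers of the root -/
private noncomputable def pwb (hg : g.Monic) {N : ℕ} (hm : g.natDegree = N) :
    Module.Basis (Fin N) k (AdjoinRoot g) :=
  (AdjoinRoot.powerBasis' hg).basis.reindex (finCongr hm)

private theorem pwb_apply (hg : g.Monic) {N : ℕ} (hm : g.natDegree = N) (i : Fin N) :
    pwb hg hm i = AdjoinRoot.root g ^ (i : ℕ) := by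
  unfold pwb
  rw [Module.Basis.reindex_apply]
  have h := (AdjoinRoot.powerBasis' hg).basis_eq_pow ((finCongr hm).symm i)
  exact h

private theorem tau_form (hg : g.Monic) {n : ℕ} (hm : g.natDegree = 2 * n + 1)
    (β x y : AdjoinRoot g) :
    tau hg (β * x * y) =
      (pwb hg hm).equivFun x ⬝ᵥ gram hg n β *ᵥ (pwb hg hm).equivFun y := by
  have h1 : ∀ (x : AdjoinRoot g) (j : Fin (2 * n + 1)),
      tau hg (β * x * AdjoinRoot.root g ^ (j : ℕ)) =
        ∑ i, (pwb hg hm).equivFun x i * gram hg n β i j := by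
    intro x j
    conv_lhs => rw [← (pwb hg hm).sum_equivFun x]
    rw [Finset.mul_sum, Finset.sum_mul, map_sum]
    refine Finset.sum_congr rfl fun i _ => ?_
    rw [pwb_apply, mul_smul_comm, smul_mul_assoc, map_smul, smul_eq_mul]
    rfl
  conv_lhs => rw [← (pwb hg hm).sum_equivFun y]
  rw [Finset.mul_sum, map_sum]
  simp only [dotProduct, mulVec, Finset.mul_sum]
  rw [Finset.sum_comm]
  refine Finset.sum_congr rfl fun j _ => ?_
  rw [pwb_apply, mul_smul_comm, map_smul, smul_eq_mul, h1, Finset.mul_sum]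
  refine Finset.sum_congr rfl fun i _ => ?_
  ring

private theorem det_anti {N : ℕ} : ∀ (H : Matrix (Fin N) (Fin N) k),
    (∀ i j : Fin N, (i : ℕ) + j + 1 < N → H i j = 0) →
    (∀ i j : Fin N, (i : ℕ) + j + 1 = N → H i j = 1) →
    H.det = ∏ i ∈ Finset.range N, (-1) ^ i := by
  induction N with
  | zero =>
    intro H _ _
    simp
  | succ N ih =>
    intro H h0 h1
    rw [Matrix.det_succ_row_zero, Finset.sum_eq_single (Fin.last N)]
    · rw [h1 0 (Fin.last N) (by simp), mul_one, Fin.val_last, Fin.succAbove_last, ih,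
        Finset.prod_range_succ, mul_comm]
      · intro i j hij
        rw [submatrix_apply]
        apply h0
        rw [Fin.val_succ, Fin.val_castSucc]
        omega
      · intro i j hij
        rw [submatrix_apply]
        apply h1
        rw [Fin.val_succ, Fin.val_castSucc]
        omega
    · intro j _ hj
      rw [h0 0 j, mul_zero, zero_mul]
      have h2 : (j : ℕ) ≠ N := by
        intro h3
        exact hj (Fin.ext (by rw [h3, Fin.val_last]))
      have h3 := j.2
      simp only [Fin.val_zero]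
      omega
    · intro h
      exact absurd (Finset.mem_univ _) h

private theorem prod_sgn (n : ℕ) :
    ∏ i ∈ Finset.range (2 * n + 1), (-1 : k) ^ i = (-1) ^ n := by
  induction n with
  | zero => simp
  | succ n ih =>
    have h : 2 * (n + 1) + 1 = 2 * n + 1 + 1 + 1 := by ring
    rw [h, Finset.prod_range_succ, Finset.prod_range_succ, ih]
    have h1 : (-1 : k) ^ (2 * n + 1) = -1 := by
      rw [pow_succ, pow_mul]; simp
    have h2 : (-1 : k) ^ (2 * n + 1 + 1) = 1 := by
      rw [pow_succ, h1]; ring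
    rw [h1, h2, pow_succ]
    ring

theorem gram_symm (hg : g.Monic) (n : ℕ) (β : AdjoinRoot g) : (gram hg n β).IsSymm := by
  ext i j
  rw [transpose_apply]
  simp only [gram, of_apply]
  rw [mul_right_comm]

theorem isot_iff (hg : g.Monic) {n : ℕ} (hm : g.natDegree = 2 * n + 1) (β : AdjoinRoot g) :
    Isot g β ↔ IsoM (gram hg n β) n := by
  have hn : g.natDegree / 2 = n := by omega
  constructor
  · rintro ⟨_, X, hX, h⟩
    refine ⟨X.map (pwb hg hm).equivFun.toLinearMap, ?_, ?_⟩
    · have h1 := (pwb hg hm).equivFun.finrank_map_eq X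
      rw [hX, hn] at h1
      exact h1.ge
    · rintro _ ⟨x, hx, rfl⟩ _ ⟨y, hy, rfl⟩
      have h1 := h x hx y hy
      rw [tau_form hg hm] at h1
      exact h1
  · rintro ⟨X, hr, h⟩
    obtain ⟨b⟩ : Nonempty (Module.Basis (Fin (Module.finrank k X)) k X) :=
      ⟨Module.finBasis k X⟩
    have hv : LinearIndependent k (fun i : Fin n => ((b (Fin.castLE hr i) : X) :
        Fin (2 * n + 1) → k)) := by
      have h1 : LinearIndependent k (fun i : Fin n => b (Fin.castLE hr i)) :=
        b.linearIndependent.comp _ (Fin.castLE_injective hr)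
      exact h1.map' X.subtype (Submodule.ker_subtype X)
    have hle : Submodule.span k (Set.range (fun i : Fin n => ((b (Fin.castLE hr i) : X) :
        Fin (2 * n + 1) → k))) ≤ X := by
      rw [Submodule.span_le]
      rintro _ ⟨i, rfl⟩
      exact Subtype.property _
    refine ⟨hg, (Submodule.span k (Set.range (fun i : Fin n => ((b (Fin.castLE hr i) : X) :
        Fin (2 * n + 1) → k)))).map (pwb hg hm).equivFun.symm.toLinearMap, ?_, ?_⟩
    · have h1 := (pwb hg hm).equivFun.symm.finrank_map_eq (Submodule.span k (Set.range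
        (fun i : Fin n => ((b (Fin.castLE hr i) : X) : Fin (2 * n + 1) → k))))
      rw [finrank_span_eq_card hv, Fintype.card_fin] at h1
      rw [hn]
      exact h1
    · rintro _ ⟨x, hx, rfl⟩ _ ⟨y, hy, rfl⟩
      rw [tau_form hg hm]
      have h1 := h x (hle hx) y (hle hy)
      rw [LinearEquiv.coe_coe, LinearEquiv.apply_symm_apply, LinearEquiv.apply_symm_apply]
      exact h1

theorem gram_det (hg : g.Monic) {n : ℕ} (hm : g.natDegree = 2 * n + 1) (β : AdjoinRoot g) :
    (gram hg n β).det = (-1) ^ n * Algebra.norm k β := by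
  have h1 : gram hg n β = gram hg n 1 * Algebra.leftMulMatrix (pwb hg hm) β := by
    ext i j
    rw [mul_apply]
    simp only [gram, of_apply]
    have h2 : β * AdjoinRoot.root g ^ (j : ℕ) =
        ∑ l, Algebra.leftMulMatrix (pwb hg hm) β l j • AdjoinRoot.root g ^ (l : ℕ) := by
      have h3 := (pwb hg hm).sum_repr (β * AdjoinRoot.root g ^ (j : ℕ))
      rw [← h3]
      refine Finset.sum_congr rfl fun l _ => ?_
      rw [pwb_apply, Algebra.leftMulMatrix_eq_repr_mul, pwb_apply]
    rw [mul_right_comm, h2, Finset.sum_mul, map_sum]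
    refine Finset.sum_congr rfl fun l _ => ?_
    rw [smul_mul_assoc, map_smul, smul_eq_mul, one_mul, mul_comm,
      mul_comm (AdjoinRoot.root g ^ (l : ℕ))]
  rw [h1, det_mul, ← Algebra.norm_eq_matrix_det, det_anti, prod_sgn]
  · intro i j hij
    simp only [gram, of_apply]
    rw [one_mul, ← pow_add, tau_pow hg _ (by omega), if_neg (by omega)]
  · intro i j hij
    simp only [gram, of_apply]
    rw [one_mul, ← pow_add, tau_pow hg _ (by omega), if_pos (by omega)]

theorem gram_map {k' : Type} [Field k'] (φ : k →+* k') (hg : g.Monic) (hg' : (g.map φ).Monic)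
    (n : ℕ) (β : AdjoinRoot g) :
    gram hg' n (AdjoinRoot.map φ g (g.map φ) dvd_rfl β) = (gram hg n β).map φ := by
  obtain ⟨p, rfl⟩ := AdjoinRoot.mk_surjective β
  have hmk : ∀ q : k[X], AdjoinRoot.map φ g (g.map φ) dvd_rfl (AdjoinRoot.mk g q) =
      AdjoinRoot.mk (g.map φ) (q.map φ) := by
    intro q
    have h : (AdjoinRoot.map φ g (g.map φ) dvd_rfl).comp (AdjoinRoot.mk g) =
        (AdjoinRoot.mk (g.map φ)).comp (Polynomial.mapRingHom φ) := by
      apply Polynomial.ringHom_ext
      · intro a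
        simp
      · simp
    exact RingHom.congr_fun h q
  ext i j
  rw [map_apply]
  simp only [gram, of_apply]
  rw [hmk, ← AdjoinRoot.mk_X, ← AdjoinRoot.mk_X, ← map_pow, ← map_pow, ← map_pow, ← map_pow,
    ← map_mul, ← map_mul, ← map_mul, ← map_mul, tau_mk, tau_mk]
  have h1 : p.map φ * X ^ (i : ℕ) * X ^ (j : ℕ) = (p * X ^ (i : ℕ) * X ^ (j : ℕ)).map φ := by
    simp
  rw [h1, ← Polynomial.map_modByMonic _ hg, coeff_map, natDegree_map]

theorem isot_sq (hg : g.Monic) (β z : AdjoinRoot g) (hz : IsUnit z) :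
    Isot g (β * z ^ 2) ↔ Isot g β := by
  have key : ∀ (β z : AdjoinRoot g), IsUnit z → Isot g (β * z ^ 2) → Isot g β := by
    rintro β z hz ⟨_, X, hX, h⟩
    obtain ⟨u, rfl⟩ := hz
    have hinj : Function.Injective (LinearMap.mulLeft k (u : AdjoinRoot g)) := by
      intro x y hxy
      have h1 : (u : AdjoinRoot g) * x = u * y := hxy
      exact (Units.mul_right_inj u).1 h1
    refine ⟨hg, X.map (LinearMap.mulLeft k (u : AdjoinRoot g)), ?_, ?_⟩
    · rw [← (Submodule.equivMapOfInjective _ hinj X).finrank_eq, hX]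
    · rintro _ ⟨x, hx, rfl⟩ _ ⟨y, hy, rfl⟩
      have h1 := h x hx y hy
      rw [LinearMap.mulLeft_apply, LinearMap.mulLeft_apply]
      rw [← h1]
      congr 1
      ring
  constructor
  · exact key β z hz
  · intro h
    obtain ⟨u, rfl⟩ := hz
    apply key (β * (u : AdjoinRoot g) ^ 2) ((u⁻¹ : (AdjoinRoot g)ˣ) : AdjoinRoot g)
      (Units.isUnit _)
    have h1 : β * (u : AdjoinRoot g) ^ 2 * ((u⁻¹ : (AdjoinRoot g)ˣ) : AdjoinRoot g) ^ 2 = β := by
      have h2 : (u : AdjoinRoot g) * ((u⁻¹ : (AdjoinRoot g)ˣ) : AdjoinRoot g) = 1 :=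
        Units.mul_inv u
      calc β * (u : AdjoinRoot g) ^ 2 * ((u⁻¹ : (AdjoinRoot g)ˣ) : AdjoinRoot g) ^ 2
          = β * ((u : AdjoinRoot g) * ((u⁻¹ : (AdjoinRoot g)ˣ) : AdjoinRoot g)) ^ 2 := by ring
        _ = β := by rw [h2, one_pow, mul_one]
    rw [h1]
    exact h

end Pool.Agent.H74.GR
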