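import Mathlib

set_option autoImplicit false

/-!
# [H74 GR Iso] Totally isotropic subspaces of a symmetric matrix

`IsoM G r`: the bilinear form `x ⬝ᵥ G *ᵥ y` on `ι → k` is zero on some subspace of dimension at least `r`.
* `isoM_of_fam`, `IsoM.fam`: the same with a linearly independent family `v : Fin r → ι → k` with `v i ⬝ᵥ G *ᵥ v j = 0`.  (→: `X = span (range v)`, `finrank_span_eq_card`, and `span_induction` twice, the form is
  bilinear.  ←: `exists_linearIndependent`-type lemma: a basis of `X` (`Module.finBasis k X`), restricted to the first `r` vectors (`Fin.castLE`), composed with `X.subtype`.)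
* `isoM_mono`, `isoM_zero`: trivial (`X = ⊥`).
* `isoM_smul`: the form of `c • G`, `c ≠ 0`, has the same subspaces.
* `isoM_congr`: `P * Q = 1`, `Q * P = 1` (`P : Matrix ι κ k`): `x ⬝ᵥ (Pᵀ * G * P) *ᵥ y = (P *ᵥ x) ⬝ᵥ G *ᵥ (P *ᵥ y)` (`Matrix.dotProduct_mulVec`, `Matrix.vecMul_transpose`, `mulVec_mulVec`); `X ↦ X.map (mulVecLin P)`,
  the dimension is preserved as `mulVecLin P` is injective (`Q`), `LinearMap.finrank_map_eq'` or `LinearEquiv.finrank_map_eq` with the equivalence given by `P`, `Q`.  The other direction by symmetry: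
  `G = Qᵀ * (Pᵀ * G * P) * Q`.
* `det_congr`: cards are equal (`P`, `Q` give a linear equivalence; `Fintype.card ι = Fintype.card κ` e.g. by `Matrix.toLin'`/`LinearEquiv.finrank_eq`), `e : ι ≃ κ`, `P' = P.submatrix id e : Matrix ι ι k`,
  `det (Pᵀ * G * P) = det ((Pᵀ * G * P).submatrix e e) = det (P'ᵀ * G * P') = det P' ^ 2 * det G`, `det P' ≠ 0` as `P' * (Q.submatrix e id) = 1`.
* `isoM_plane`: `N = fromBlocks !![0, 1; 1, 0] 0 0 G'`, a vector is `Sum.elim a z`, `a : Fin 2 → k`, and the form of `Sum.elim a z`, `Sum.elim b w` is `a 0 * b 1 + a 1 * b 0 + z ⬝ᵥ G' *ᵥ w`.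
  (←) `X'` for `G'`, `r ≤ dim X'`: `X = {Sum.elim ![c, 0] z | z ∈ X'}` (image of the injective linear map `(c, z) ↦ Sum.elim ![c, 0] z` on `⊤ ×ˢ X'`; or `X = span e1 ⊔ map X'`) has dimension `1 + dim X'`, and the form is zero.
  (→) `X` with `r + 1 ≤ dim X`, `e1 = Sum.elim ![1, 0] 0`, the form of `e1` and `x` is the coordinate `β x = x (inl 1)`.  `X₁ = X ⊓ ker β`, `π : x ↦ (x (inr ·))`.  On `X₁` the form is `π x ⬝ᵥ G' *ᵥ π y`
  (the first summand is zero as `β x = β y = 0`), so `π X₁` is good, and it is enough that `r ≤ dim π X₁`.  The kernel of `π` on `X₁` is contained in `span e1`.  Case `e1 ∈ X`: then for `x ∈ X` the form of `e1` and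
  `x` is zero, `X₁ = X`, `dim π X₁ ≥ dim X - 1`.  Case `e1 ∉ X`: `π` is injective on `X₁` (a vector of `X₁` with `π x = 0` is `c e1`, and `c ≠ 0` would give `e1 ∈ X`), `dim X₁ ≥ dim X - 1`.
-/

namespace Pool.Agent.H74.GR

open Matrix

/-- the form of `G` is zero on a subspace of dimension at least `r` -/
def IsoM {k : Type*} [Field k] {ι : Type*} [Fintype ι] (G : Matrix ι ι k) (r : ℕ) : Prop :=
  ∃ X : Submodule k (ι → k), r ≤ Module.finrank k X ∧ ∀ x ∈ X, ∀ y ∈ X, x ⬝ᵥ G *ᵥ y = 0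

variable {k : Type*} [Field k] {ι κ : Type*} [Fintype ι] [Fintype κ]

private theorem fm_add_left (G : Matrix ι ι k) (x x' y : ι → k) :
    (x + x') ⬝ᵥ G *ᵥ y = x ⬝ᵥ G *ᵥ y + x' ⬝ᵥ G *ᵥ y := add_dotProduct _ _ _

private theorem fm_add_right (G : Matrix ι ι k) (x y y' : ι → k) :
    x ⬝ᵥ G *ᵥ (y + y') = x ⬝ᵥ G *ᵥ y + x ⬝ᵥ G *ᵥ y' := by
  rw [mulVec_add, dotProduct_add]

private theorem fm_smul_left (G : Matrix ι ι k) (c : k) (x y : ι → k) :
    (c • x) ⬝ᵥ G *ᵥ y = c * (x ⬝ᵥ G *ᵥ y) := by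
  rw [smul_dotProduct, smul_eq_mul]

private theorem fm_smul_right (G : Matrix ι ι k) (c : k) (x y : ι → k) :
    x ⬝ᵥ G *ᵥ (c • y) = c * (x ⬝ᵥ G *ᵥ y) := by
  rw [mulVec_smul, dotProduct_smul, smul_eq_mul]

theorem isoM_of_fam (G : Matrix ι ι k) {r : ℕ} (v : Fin r → ι → k) (hv : LinearIndependent k v)
    (h : ∀ i j, v i ⬝ᵥ G *ᵥ v j = 0) : IsoM G r := by
  refine ⟨Submodule.span k (Set.range v), ?_, ?_⟩
  · rw [finrank_span_eq_card hv, Fintype.card_fin]
  · have h1 : ∀ i, ∀ y ∈ Submodule.span k (Set.range v), v i ⬝ᵥ G *ᵥ y = 0 := by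
      intro i y hy
      induction hy using Submodule.span_induction with
      | mem y hy =>
        obtain ⟨j, rfl⟩ := hy
        exact h i j
      | zero => simp
      | add y y' _ _ h1 h2 => rw [fm_add_right, h1, h2, add_zero]
      | smul c y _ h1 => rw [fm_smul_right, h1, mul_zero]
    intro x hx y hy
    induction hx using Submodule.span_induction with
    | mem x hx =>
      obtain ⟨j, rfl⟩ := hx
      exact h1 j y hy
    | zero => simp
    | add x x' _ _ h1 h2 => rw [fm_add_left, h1, h2, add_zero]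
    | smul c x _ h1 => rw [fm_smul_left, h1, mul_zero]

theorem IsoM.fam {G : Matrix ι ι k} {r : ℕ} (h : IsoM G r) :
    ∃ v : Fin r → ι → k, LinearIndependent k v ∧ ∀ i j, v i ⬝ᵥ G *ᵥ v j = 0 := by
  obtain ⟨X, hr, hX⟩ := h
  have b := Module.finBasis k X
  refine ⟨fun i => ((b (Fin.castLE hr i) : X) : ι → k), ?_, ?_⟩
  · have h1 : LinearIndependent k (fun i : Fin r => b (Fin.castLE hr i)) :=
      b.linearIndependent.comp _ (Fin.castLE_injective hr)
    exact h1.map' X.subtype (Submodule.ker_subtype X)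
  · intro i j
    exact hX _ (Subtype.property _) _ (Subtype.property _)

theorem isoM_zero (G : Matrix ι ι k) : IsoM G 0 := by
  refine ⟨⊥, Nat.zero_le _, ?_⟩
  intro x hx y hy
  rw [Submodule.mem_bot] at hx
  rw [hx, zero_dotProduct]

theorem isoM_smul (G : Matrix ι ι k) (r : ℕ) {c : k} (hc : c ≠ 0) :
    IsoM (c • G) r ↔ IsoM G r := by
  have h : ∀ x y : ι → k, x ⬝ᵥ (c • G) *ᵥ y = c * (x ⬝ᵥ G *ᵥ y) := by
    intro x y
    rw [smul_mulVec, dotProduct_smul, smul_eq_mul]
  constructor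
  · rintro ⟨X, hr, hX⟩
    refine ⟨X, hr, fun x hx y hy => ?_⟩
    have := hX x hx y hy
    rw [h, mul_eq_zero] at this
    exact this.resolve_left hc
  · rintro ⟨X, hr, hX⟩
    refine ⟨X, hr, fun x hx y hy => ?_⟩
    rw [h, hX x hx y hy, mul_zero]

private theorem fm_congr (G : Matrix ι ι k) (P : Matrix ι κ k) (x y : κ → k) :
    x ⬝ᵥ (Pᵀ * G * P) *ᵥ y = (P *ᵥ x) ⬝ᵥ G *ᵥ (P *ᵥ y) := by
  rw [← mulVec_mulVec, ← mulVec_mulVec, dotProduct_mulVec, vecMul_transpose]

private theorem isoM_congr_aux [DecidableEq ι] [DecidableEq κ] (G : Matrix ι ι k)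
    (P : Matrix ι κ k) (Q : Matrix κ ι k) (h1 : P * Q = 1) (r : ℕ) (h : IsoM G r) :
    IsoM (Pᵀ * G * P) r := by
  obtain ⟨X, hr, hX⟩ := h
  have hinj : Function.Injective Q.mulVecLin := by
    intro x y hxy
    have h2 : P *ᵥ (Q *ᵥ x) = P *ᵥ (Q *ᵥ y) := congrArg (fun z => P *ᵥ z) hxy
    rwa [mulVec_mulVec, mulVec_mulVec, h1, one_mulVec, one_mulVec] at h2
  refine ⟨X.map Q.mulVecLin, ?_, ?_⟩
  · rw [← (Submodule.equivMapOfInjective Q.mulVecLin hinj X).finrank_eq]
    exact hr
  · rintro _ ⟨x, hx, rfl⟩ _ ⟨y, hy, rfl⟩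
    rw [fm_congr]
    show (P *ᵥ (Q *ᵥ x)) ⬝ᵥ G *ᵥ (P *ᵥ (Q *ᵥ y)) = 0
    have h5 : ∀ z, P *ᵥ (Q *ᵥ z) = z := by
      intro z
      rw [mulVec_mulVec, h1, one_mulVec]
    rw [h5, h5]
    exact hX x hx y hy

theorem isoM_congr [DecidableEq ι] [DecidableEq κ] (G : Matrix ι ι k) (P : Matrix ι κ k)
    (Q : Matrix κ ι k) (h1 : P * Q = 1) (h2 : Q * P = 1) (r : ℕ) :
    IsoM (Pᵀ * G * P) r ↔ IsoM G r := by
  constructor
  · intro h
    have h3 := isoM_congr_aux (Pᵀ * G * P) Q P h2 r h
    have h4 : Qᵀ * (Pᵀ * G * P) * Q = G := by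
      have e1 : Qᵀ * Pᵀ = 1 := by rw [← transpose_mul, h1, transpose_one]
      calc Qᵀ * (Pᵀ * G * P) * Q = (Qᵀ * Pᵀ) * G * (P * Q) := by
            simp only [Matrix.mul_assoc]
        _ = G := by rw [e1, h1, Matrix.one_mul, Matrix.mul_one]
    rwa [h4] at h3
  · exact isoM_congr_aux G P Q h1 r

theorem det_congr [DecidableEq ι] [DecidableEq κ] (G : Matrix ι ι k) (P : Matrix ι κ k)
    (Q : Matrix κ ι k) (h1 : P * Q = 1) (h2 : Q * P = 1) :
    ∃ c : k, c ≠ 0 ∧ (Pᵀ * G * P).det = c ^ 2 * G.det := by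
  have hcard : Fintype.card ι = Fintype.card κ := by
    have e : (κ → k) ≃ₗ[k] (ι → k) := LinearEquiv.ofLinearMap P.mulVecLin Q.mulVecLin
      (by rw [← mulVecLin_mul, h1, mulVecLin_one]) (by rw [← mulVecLin_mul, h2, mulVecLin_one])
    have h3 := e.finrank_eq
    rw [Module.finrank_fintype_fun_eq_card, Module.finrank_fintype_fun_eq_card] at h3
    exact h3.symm
  obtain ⟨e⟩ : Nonempty (ι ≃ κ) := Fintype.card_eq.1 hcard
  have h4 : (P.submatrix id e) * (Q.submatrix e id) = 1 := by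
    rw [submatrix_mul_equiv, h1]
    ext i j
    simp [one_apply]
  refine ⟨(P.submatrix id e).det, ?_, ?_⟩
  · intro h0
    have h5 := congrArg Matrix.det h4
    rw [det_mul, h0, zero_mul, det_one] at h5
    exact zero_ne_one h5
  · have h6 : (Pᵀ * G * P).submatrix e e = (P.submatrix id e)ᵀ * G * (P.submatrix id e) := by
      ext i j
      simp [mul_apply]
    rw [← det_submatrix_equiv_self e (Pᵀ * G * P), h6, det_mul, det_mul, det_transpose]
    ring

private theorem finrank_map_inf {V W : Type*} [AddCommGroup V] [Module k V] [AddCommGroup W]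
    [Module k W] [FiniteDimensional k V] (f : V →ₗ[k] W) (X : Submodule k V) :
    Module.finrank k (X.map f) + Module.finrank k (X ⊓ LinearMap.ker f : Submodule k V) =
      Module.finrank k X := by
  have h := (f.domRestrict X).finrank_range_add_finrank_ker
  rw [LinearMap.range_domRestrict, LinearMap.ker_domRestrict] at h
  rw [← h, ← Submodule.map_comap_subtype, Submodule.finrank_map_subtype_eq]

private theorem fm_plane {n : ℕ} (G' : Matrix (Fin n) (Fin n) k) (x y : Fin 2 ⊕ Fin n → k) :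
    x ⬝ᵥ (fromBlocks (!![0, 1; 1, 0] : Matrix (Fin 2) (Fin 2) k) 0 0 G') *ᵥ y =
      x (Sum.inl 0) * y (Sum.inl 1) + x (Sum.inl 1) * y (Sum.inl 0) +
        (fun i => x (Sum.inr i)) ⬝ᵥ G' *ᵥ (fun i => y (Sum.inr i)) := by
  rw [fromBlocks_mulVec]
  simp only [dotProduct, Fintype.sum_sum_type, Sum.elim_inl, Sum.elim_inr, Fin.sum_univ_two]
  have h0 : ((!![0, 1; 1, 0] : Matrix (Fin 2) (Fin 2) k) *ᵥ (y ∘ Sum.inl) +
      (0 : Matrix (Fin 2) (Fin n) k) *ᵥ (y ∘ Sum.inr)) 0 = y (Sum.inl 1) := by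
    simp [mulVec, dotProduct, Fin.sum_univ_two]
  have h1 : ((!![0, 1; 1, 0] : Matrix (Fin 2) (Fin 2) k) *ᵥ (y ∘ Sum.inl) +
      (0 : Matrix (Fin 2) (Fin n) k) *ᵥ (y ∘ Sum.inr)) 1 = y (Sum.inl 0) := by
    simp [mulVec, dotProduct, Fin.sum_univ_two]
  rw [h0, h1]
  have h2 : ∀ i, ((0 : Matrix (Fin n) (Fin 2) k) *ᵥ (y ∘ Sum.inl) + G' *ᵥ (y ∘ Sum.inr)) i =
      (G' *ᵥ (fun i => y (Sum.inr i))) i := by
    intro i
    rw [zero_mulVec, zero_add]
    rfl
  simp only [h2]

theorem isoM_plane {n : ℕ} (G' : Matrix (Fin n) (Fin n) k) (r : ℕ) :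
    IsoM (fromBlocks (!![0, 1; 1, 0] : Matrix (Fin 2) (Fin 2) k) 0 0 G') (r + 1) ↔ IsoM G' r := by
  classical
  constructor
  · rintro ⟨X, hr, hX⟩
    set e1 : Fin 2 ⊕ Fin n → k := Pi.single (Sum.inl 0) 1 with he1
    let β : (Fin 2 ⊕ Fin n → k) →ₗ[k] k := LinearMap.proj (Sum.inl 1)
    let π : (Fin 2 ⊕ Fin n → k) →ₗ[k] (Fin n → k) := LinearMap.funLeft k k Sum.inr
    have hπ : ∀ x, π x = fun i => x (Sum.inr i) := fun x => rfl
    have hβ : ∀ x, β x = x (Sum.inl 1) := fun x => rfl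
    refine ⟨(X ⊓ LinearMap.ker β).map π, ?_, ?_⟩
    · have hker : ∀ x ∈ (X ⊓ LinearMap.ker β) ⊓ LinearMap.ker π, x = x (Sum.inl 0) • e1 := by
        intro x hx
        obtain ⟨⟨hxX, hx1⟩, hx2⟩ := hx
        have h1 : x (Sum.inl 1) = 0 := hx1
        have h2 : ∀ i, x (Sum.inr i) = 0 := fun i => congrFun (show π x = 0 from hx2) i
        ext i
        rcases i with i | i
        · fin_cases i
          · simp [he1]
          · simpa [he1] using h1
        · simpa [he1] using h2 i
      have hd := finrank_map_inf π (X ⊓ LinearMap.ker β)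
      by_cases he : e1 ∈ X
      · have hXβ : X ⊓ LinearMap.ker β = X := by
          apply inf_eq_left.2
          intro x hx
          have h1 := hX e1 he x hx
          rw [fm_plane] at h1
          have h2 : (fun i => e1 (Sum.inr i)) = (0 : Fin n → k) := by
            ext i; simp [he1]
          rw [h2, zero_dotProduct, add_zero] at h1
          have h3 : e1 (Sum.inl 0) = 1 := by simp [he1]
          have h4 : e1 (Sum.inl 1) = 0 := by simp [he1]
          rw [h3, h4, one_mul, zero_mul, add_zero] at h1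
          exact h1
        have h1 : Module.finrank k ((X ⊓ LinearMap.ker β) ⊓ LinearMap.ker π : Submodule k _) ≤ 1 := by
          have h2 : ((X ⊓ LinearMap.ker β) ⊓ LinearMap.ker π) ≤ Submodule.span k {e1} := by
            intro x hx
            rw [hker x hx]
            exact Submodule.smul_mem _ _ (Submodule.mem_span_singleton_self e1)
          exact (Submodule.finrank_mono h2).trans (finrank_span_le_card ({e1} : Set _) |>.trans (by simp))
        rw [hXβ] at hd h1 ⊢
        omega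
      · have h1 : (X ⊓ LinearMap.ker β) ⊓ LinearMap.ker π = ⊥ := by
          rw [eq_bot_iff]
          intro x hx
          have h2 := hker x hx
          by_cases h3 : x (Sum.inl 0) = 0
          · rw [h3, zero_smul] at h2
            rw [h2]; exact Submodule.zero_mem _
          · exfalso
            apply he
            have h4 : e1 = (x (Sum.inl 0))⁻¹ • x := by
              rw [h2]
              have h5 : (x (Sum.inl 0) • e1) (Sum.inl 0) = x (Sum.inl 0) := by simp [he1]
              rw [h5, smul_smul, inv_mul_cancel₀ h3, one_smul]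
            rw [h4]
            exact X.smul_mem _ hx.1.1
        rw [h1, finrank_bot, add_zero] at hd
        have h2 := finrank_map_inf β X
        have h3 : Module.finrank k (X.map β) ≤ 1 := by
          have := Submodule.finrank_le (X.map β)
          rwa [Module.finrank_self] at this
        omega
    · rintro _ ⟨x, hx, rfl⟩ _ ⟨y, hy, rfl⟩
      have h1 := hX x hx.1 y hy.1
      rw [fm_plane] at h1
      have h2 : x (Sum.inl 1) = 0 := hx.2
      have h3 : y (Sum.inl 1) = 0 := hy.2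
      rw [h2, h3, mul_zero, zero_mul, zero_add, zero_add] at h1
      exact h1
  · intro h
    obtain ⟨w, hw, hw0⟩ := h.fam
    set e1 : Fin 2 ⊕ Fin n → k := Pi.single (Sum.inl 0) 1 with he1
    let J : (Fin n → k) →ₗ[k] (Fin 2 ⊕ Fin n → k) :=
      { toFun := fun z => Sum.elim 0 z
        map_add' := by
          intro z z'
          ext i
          rcases i with i | i <;> simp
        map_smul' := by
          intro c z
          ext i
          rcases i with i | i <;> simp }
    have hJ1 : ∀ z i, J z (Sum.inr i) = z i := fun z i => rfl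
    have hJ0 : ∀ z i, J z (Sum.inl i) = 0 := fun z i => rfl
    have hJ : LinearMap.ker J = ⊥ := by
      rw [LinearMap.ker_eq_bot]
      intro z z' hz
      ext i
      have := congrFun hz (Sum.inr i)
      rwa [hJ1, hJ1] at this
    have hli : LinearIndependent k (Fin.cons e1 (fun i => J (w i)) : Fin (r + 1) → _) := by
      rw [linearIndependent_finCons]
      refine ⟨hw.map' J hJ, ?_⟩
      intro hmem
      have h1 : Submodule.span k (Set.range (fun i => J (w i))) ≤
          LinearMap.ker (LinearMap.proj (Sum.inl 0) : (Fin 2 ⊕ Fin n → k) →ₗ[k] k) := by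
        rw [Submodule.span_le]
        rintro _ ⟨i, rfl⟩
        exact hJ0 (w i) 0
      have h2 : e1 (Sum.inl 0) = 0 := h1 hmem
      rw [he1, Pi.single_eq_same] at h2
      exact one_ne_zero h2
    apply isoM_of_fam _ _ hli
    have hEr : ∀ i, e1 (Sum.inr i) = 0 := by intro i; simp [he1]
    have hE1 : e1 (Sum.inl 1) = 0 := by simp [he1]
    intro i j
    rw [fm_plane]
    refine Fin.cases ?_ (fun i => ?_) i <;> refine Fin.cases ?_ (fun j => ?_) j
    · simp only [Fin.cons_zero, hEr, hE1, mul_zero, zero_mul, add_zero, zero_add]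
      exact zero_dotProduct _
    · simp only [Fin.cons_zero, Fin.cons_succ, hEr, hE1, hJ0, hJ1, mul_zero, zero_mul, add_zero, zero_add]
      exact zero_dotProduct _
    · simp only [Fin.cons_zero, Fin.cons_succ, hEr, hE1, hJ0, hJ1, mul_zero, zero_mul, add_zero, zero_add]
      have : (fun _ : Fin n => (0 : k)) = 0 := rfl
      rw [this, mulVec_zero, dotProduct_zero]
    · simp only [Fin.cons_succ, hJ0, hJ1, mul_zero, zero_mul, add_zero, zero_add]
      exact hw0 i j

end Pool.Agent.H74.GR
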