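import Pool.Agent.H74.GR.Spl

set_option autoImplicit false

/-!
# [H74 GR Red] Reduction to a ternary form over a field where forms in five variables have zeros

`isoM_map_congr`: `(Pᵀ * G * P).map φ = (P.map φ)ᵀ * G.map φ * P.map φ` (`Matrix.map_mul`, `Matrix.transpose_map`), `P.map φ * Q.map φ = 1` (`Matrix.map_one`), `isoM_congr`.
`red`.  Induction on `g`.
* `g = 0`: `a = b = 1`; the left side holds by `isoM_zero`, the right side by `x = 1, y = 0, z = 1`.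
* `g = 1`: `G` of size `3`, `det G = - s ^ 2`.  `diag_of_symm`: `Pᵀ * G * P = diagonal d`, `d 0 * d 1 * d 2 = c ^ 2 * det G = - (c s) ^ 2`, `c s ≠ 0` (`det_congr`, `Matrix.det_diagonal`, `Fin.prod_univ_three`),
  so all `d i ≠ 0`.  `a = d 1`, `b = d 0`.  `IsoM (diagonal (φ ∘ d)) 1` iff there is `v ≠ 0` with `d 0 v 0 ^ 2 + d 1 v 1 ^ 2 + d 2 v 2 ^ 2 = 0` in `k` (a subspace of dimension at least one has a
  nonzero vector; the span of a vector).  Multiply by `d 0 * d 1` (`≠ 0`): `(c s v 2) ^ 2 = d 1 * (d 0 v 0) ^ 2 + d 0 * (d 1 v 1) ^ 2`.  So `(x, y, z) = (d 0 v 0, d 1 v 1, c s v 2)` and back.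
* `g + 2` (size `2 (g + 2) + 1 = n + 2`, `n = 2 (g + 1) + 1`, `n + 2 ≥ 5`): `h5` gives an isotropic vector `x`, `split_plane` gives `P`, `Q`, `G'`.  `det (fromBlocks !![0,1;1,0] 0 0 G') = - det G'`
  (`Matrix.det_fromBlocks_zero₂₁`, `Matrix.det_fin_two_of`), so with `det_congr` `det G' = - c ^ 2 * det G = (-1) ^ (g + 1) * (c * s) ^ 2`.  Induction for `G'`; the same `a`, `b`; `isoM_map_congr` and
  `isoM_plane` (`(fromBlocks ..).map φ = fromBlocks .. (G'.map φ)`: `Matrix.fromBlocks_map`).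
-/

namespace Pool.Agent.H74.GR

open Matrix

theorem isoM_map_congr {K k : Type*} [Field K] [Field k] (φ : K →+* k) {ι κ : Type*} [Fintype ι]
    [Fintype κ] [DecidableEq ι] [DecidableEq κ] (G : Matrix ι ι K) (P : Matrix ι κ K)
    (Q : Matrix κ ι K) (h1 : P * Q = 1) (h2 : Q * P = 1) (r : ℕ) :
    IsoM ((Pᵀ * G * P).map φ) r ↔ IsoM (G.map φ) r := by
  have e : (Pᵀ * G * P).map φ = (P.map φ)ᵀ * G.map φ * P.map φ := by
    rw [Matrix.map_mul, Matrix.map_mul, Matrix.transpose_map]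
  rw [e]
  refine isoM_congr (G.map φ) (P.map φ) (Q.map φ) ?_ ?_ r
  · rw [← Matrix.map_mul, h1, Matrix.map_one φ (map_zero φ) (map_one φ)]
  · rw [← Matrix.map_mul, h2, Matrix.map_one φ (map_zero φ) (map_one φ)]

private theorem isoM_one {k : Type*} [Field k] {ι : Type*} [Fintype ι] (M : Matrix ι ι k) :
    IsoM M 1 ↔ ∃ v : ι → k, v ≠ 0 ∧ v ⬝ᵥ M *ᵥ v = 0 := by
  constructor
  · intro h
    obtain ⟨v, hv, h0⟩ := h.fam
    exact ⟨v 0, hv.ne_zero 0, h0 0 0⟩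
  · rintro ⟨v, hv, h0⟩
    refine isoM_of_fam M (fun _ => v) ?_ (fun _ _ => h0)
    exact linearIndependent_unique_iff.2 hv

private theorem diagForm {k : Type*} [Field k] (d v : Fin 3 → k) :
    v ⬝ᵥ (diagonal d) *ᵥ v = d 0 * v 0 ^ 2 + d 1 * v 1 ^ 2 + d 2 * v 2 ^ 2 := by
  simp only [dotProduct, mulVec_diagonal, Fin.sum_univ_three]
  ring

private theorem red1 {K : Type} [Field K] (h2 : (2 : K) ≠ 0)
    (G : Matrix (Fin 3) (Fin 3) K) (hG : G.IsSymm) (s : K)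
    (hs : s ≠ 0) (hd : G.det = - s ^ 2) :
    ∃ a b : K, a ≠ 0 ∧ b ≠ 0 ∧ ∀ (k : Type) [Field k] (φ : K →+* k),
      IsoM (G.map φ) 1 ↔
        ∃ x y z : k, ¬ (x = 0 ∧ y = 0 ∧ z = 0) ∧ z ^ 2 = φ a * x ^ 2 + φ b * y ^ 2 := by
  obtain ⟨P, Q, d, hPQ, hQP, hdiag⟩ := diag_of_symm h2 G hG
  obtain ⟨c, hc, hdet⟩ := det_congr G P Q hPQ hQP
  rw [hdiag, det_diagonal, Fin.prod_univ_three, hd] at hdet
  have hcs : c * s ≠ 0 := mul_ne_zero hc hs
  have hprod : d 0 * d 1 * d 2 = - (c * s) ^ 2 := by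
    rw [hdet]
    ring
  have hne : d 0 * d 1 * d 2 ≠ 0 := by
    rw [hprod]
    exact neg_ne_zero.2 (pow_ne_zero 2 hcs)
  have h0 : d 0 ≠ 0 := fun h => hne (by rw [h, zero_mul, zero_mul])
  have h1 : d 1 ≠ 0 := fun h => hne (by rw [h, mul_zero, zero_mul])
  refine ⟨d 1, d 0, h1, h0, fun k _ φ => ?_⟩
  have e : (Pᵀ * G * P).map φ = diagonal (fun i => φ (d i)) := by
    rw [hdiag, diagonal_map (map_zero φ)]
  rw [← isoM_map_congr φ G P Q hPQ hQP 1, e, isoM_one]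
  have f0 : φ (d 0) ≠ 0 := (map_ne_zero φ).2 h0
  have f1 : φ (d 1) ≠ 0 := (map_ne_zero φ).2 h1
  have fc : φ (c * s) ≠ 0 := (map_ne_zero φ).2 hcs
  have fp : φ (d 0) * φ (d 1) * φ (d 2) = - φ (c * s) ^ 2 := by
    rw [← map_mul, ← map_mul, hprod, map_neg, map_pow]
  constructor
  · rintro ⟨v, hv, hz⟩
    rw [diagForm] at hz
    refine ⟨φ (d 0) * v 0, φ (d 1) * v 1, φ (c * s) * v 2, ?_, ?_⟩
    · rintro ⟨g0, g1, g2⟩
      apply hv
      funext i
      fin_cases i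
      · exact (mul_eq_zero.1 g0).resolve_left f0
      · exact (mul_eq_zero.1 g1).resolve_left f1
      · exact (mul_eq_zero.1 g2).resolve_left fc
    · linear_combination ((v 2) ^ 2) * fp - (φ (d 0) * φ (d 1)) * hz
  · rintro ⟨x, y, z, hne', hz⟩
    refine ⟨![x / φ (d 0), y / φ (d 1), z / φ (c * s)], ?_, ?_⟩
    · intro h
      apply hne'
      have g0 := congrFun h 0
      have g1 := congrFun h 1
      have g2 := congrFun h 2
      simp only [cons_val_zero, cons_val_one, cons_val, Pi.zero_apply, div_eq_zero_iff, f0, f1, fc, or_false] at g0 g1 g2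
      exact ⟨g0, g1, g2⟩
    · rw [diagForm]
      simp only [cons_val_zero, cons_val_one, cons_val]
      have h3 : φ (d 2) = - φ (c * s) ^ 2 / (φ (d 0) * φ (d 1)) := by
        rw [eq_div_iff (mul_ne_zero f0 f1)]
        rw [← fp]
        ring
      rw [h3]
      field_simp
      linear_combination - hz

theorem red {K : Type} [Field K] (h2 : (2 : K) ≠ 0)
    (h5 : ∀ (n : ℕ) (G : Matrix (Fin n) (Fin n) K), 5 ≤ n →
      ∃ x : Fin n → K, x ≠ 0 ∧ x ⬝ᵥ G *ᵥ x = 0)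
    (g : ℕ) (G : Matrix (Fin (2 * g + 1)) (Fin (2 * g + 1)) K) (hG : G.IsSymm) (s : K)
    (hs : s ≠ 0) (hd : G.det = (-1) ^ g * s ^ 2) :
    ∃ a b : K, a ≠ 0 ∧ b ≠ 0 ∧ ∀ (k : Type) [Field k] (φ : K →+* k),
      IsoM (G.map φ) g ↔
        ∃ x y z : k, ¬ (x = 0 ∧ y = 0 ∧ z = 0) ∧ z ^ 2 = φ a * x ^ 2 + φ b * y ^ 2 := by
  induction g generalizing s with
  | zero =>
    refine ⟨1, 1, one_ne_zero, one_ne_zero, fun k _ φ => ?_⟩
    refine ⟨fun _ => ⟨1, 0, 1, fun h => one_ne_zero h.1, ?_⟩, fun _ => isoM_zero _⟩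
    rw [map_one]
    ring
  | succ g ih =>
    rcases Nat.eq_zero_or_pos g with rfl | hg
    · exact red1 h2 G hG s hs (by rw [hd]; ring)
    · obtain ⟨g, rfl⟩ := Nat.exists_eq_succ_of_ne_zero hg.ne'
      obtain ⟨x, hx, hxx⟩ := h5 _ G (by omega)
      have hdet : G.det ≠ 0 := by
        rw [hd]
        exact mul_ne_zero (pow_ne_zero _ (neg_ne_zero.2 one_ne_zero)) (pow_ne_zero 2 hs)
      obtain ⟨P, Q, G', hPQ, hQP, hG', hfb⟩ := split_plane h2 (n := 2 * (g + 1) + 1) G hG hdet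
        (by rw [Fintype.card_fin]; omega) x hx hxx
      obtain ⟨c, hc, hdc⟩ := det_congr G P Q hPQ hQP
      rw [hfb, det_fromBlocks_zero₂₁, det_fin_two_of, hd] at hdc
      have hd' : G'.det = (-1) ^ (g + 1) * (c * s) ^ 2 := by
        have e1 : (-1 : K) ^ (g + 1 + 1) = - (-1) ^ (g + 1) := by
          rw [pow_succ, mul_neg, mul_one]
        rw [e1] at hdc
        linear_combination - hdc
      obtain ⟨a, b, ha, hb, hab⟩ := ih G' hG' (c * s) (mul_ne_zero hc hs) hd'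
      refine ⟨a, b, ha, hb, fun k _ φ => ?_⟩
      rw [← hab k φ, ← isoM_map_congr φ G P Q hPQ hQP, hfb, fromBlocks_map]
      have e2 : (!![0, 1; 1, 0] : Matrix (Fin 2) (Fin 2) K).map φ = !![0, 1; 1, 0] := by
        ext i j
        fin_cases i <;> fin_cases j <;> simp
      have e3 : (0 : Matrix (Fin 2) (Fin (2 * (g + 1) + 1)) K).map φ = 0 := by
        ext i j
        simp
      have e4 : (0 : Matrix (Fin (2 * (g + 1) + 1)) (Fin 2) K).map φ = 0 := by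
        ext i j
        simp
      rw [e2, e3, e4]
      exact isoM_plane (G'.map φ) (g + 1)

end Pool.Agent.H74.GR
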