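import Pool.Agent.H74.GR.Gra

set_option autoImplicit false

/-!
# [H74 GR Sca] Scaling the root

`s ≠ 0`, `g' = g.scaleRoots s` (`Polynomial.scaleRoots`: the coefficient of `X ^ i` is `g.coeff i * s ^ (deg g - i)`; `g'` is monic of the same degree).  Let `θ = root g`, `θ' = root g'`.  There is an isomorphism
`e : AdjoinRoot g' ≃ₐ[k] AdjoinRoot g` with `e θ' = s θ` (`scaleRoots_eval₂_eq_zero`/`scaleRoots_aeval_eq_zero` for the map, the inverse is `θ ↦ s⁻¹ θ'`, and `θ'` is a root of `g'`, `g = g'.scaleRoots s⁻¹`: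
`AlgEquiv.ofAlgHom` and `AdjoinRoot.algHom_ext`), and `e (mk g' (p.comp (C s⁻¹ * X))) = mk g p` (`θ' ↦ s θ`, `p (s⁻¹ s θ) = p θ`).
* `norm_scale`: `Algebra.norm_eq_of_algEquiv`.
* `isot_scale`: for `z' ∈ AdjoinRoot g'`: `tau (e z') = s ^ (2 n) tau z'` (both sides are linear in `z'`, for `z' = θ' ^ i`, `i ≤ 2 n`: `e z' = s ^ i θ ^ i`, both are `0` for `i < 2 n`; the `θ' ^ i` are a basis; or
  with `z' = mk g' (p)`, `p` of degree `< 2 n + 1`, `e z' = mk g (p.comp (C s * X))`, the coefficient of `X ^ (2 n)` is multiplied by `s ^ (2 n)`).  So `X' ↦ e X'` is a bijection between the good subspaces of both forms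
  (`LinearEquiv.finrank_map_eq`); the degree is the same.
-/

namespace Pool.Agent.H74.GR

open Polynomial Matrix
open Pool.Agent.H94.GG (tau Isot)

variable {k : Type} [Field k] {g : k[X]}

private lemma comp_one {s t : k} (h : s * t = 1) (p : k[X]) : (p.comp (C s * X)).comp (C t * X) = p := by
  rw [comp_assoc]
  have e : (C s * X : k[X]).comp (C t * X) = X := by
    rw [mul_comp, C_comp, X_comp, ← mul_assoc, ← C_mul, h, C_1, one_mul]
  rw [e, comp_X]

private noncomputable def fw (g : k[X]) (s : k) : AdjoinRoot (g.scaleRoots s) →ₐ[k] AdjoinRoot g :=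
  AdjoinRoot.liftAlgHom (g.scaleRoots s) (Algebra.ofId k (AdjoinRoot g))
    (algebraMap k (AdjoinRoot g) s * AdjoinRoot.root g)
    (by
      show eval₂ (algebraMap k (AdjoinRoot g)) _ _ = 0
      rw [← aeval_def]
      exact scaleRoots_aeval_eq_zero (by rw [AdjoinRoot.aeval_eq, AdjoinRoot.mk_self]))

private lemma fw_mk (g : k[X]) (s : k) (p : k[X]) :
    fw g s (AdjoinRoot.mk (g.scaleRoots s) p) = AdjoinRoot.mk g (p.comp (C s * X)) := by
  show eval₂ (algebraMap k (AdjoinRoot g)) _ p = _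
  rw [← aeval_def, ← AdjoinRoot.aeval_eq, aeval_comp]
  congr 1
  simp

private noncomputable def bw (g : k[X]) {s : k} (hs : s ≠ 0) : AdjoinRoot g →ₐ[k] AdjoinRoot (g.scaleRoots s) :=
  AdjoinRoot.liftAlgHom g (Algebra.ofId k (AdjoinRoot (g.scaleRoots s)))
    (algebraMap k (AdjoinRoot (g.scaleRoots s)) s⁻¹ * AdjoinRoot.root (g.scaleRoots s))
    (by
      show eval₂ (algebraMap k (AdjoinRoot (g.scaleRoots s))) _ _ = 0
      rw [← aeval_def]
      have h0 : aeval (algebraMap k (AdjoinRoot (g.scaleRoots s)) s⁻¹ * AdjoinRoot.root (g.scaleRoots s))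
          ((g.scaleRoots s).scaleRoots s⁻¹) = 0 :=
        scaleRoots_aeval_eq_zero (by rw [AdjoinRoot.aeval_eq, AdjoinRoot.mk_self])
      rwa [← scaleRoots_mul, mul_inv_cancel₀ hs, scaleRoots_one] at h0)

private lemma bw_mk (g : k[X]) {s : k} (hs : s ≠ 0) (p : k[X]) :
    bw g hs (AdjoinRoot.mk g p) = AdjoinRoot.mk (g.scaleRoots s) (p.comp (C s⁻¹ * X)) := by
  show eval₂ (algebraMap k (AdjoinRoot (g.scaleRoots s))) _ p = _
  rw [← aeval_def, ← AdjoinRoot.aeval_eq, aeval_comp]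
  congr 1
  simp

private noncomputable def eq1 (g : k[X]) {s : k} (hs : s ≠ 0) : AdjoinRoot (g.scaleRoots s) ≃ₐ[k] AdjoinRoot g :=
  AlgEquiv.ofAlgHom (fw g s) (bw g hs)
    (by
      refine AlgHom.ext fun x => ?_
      obtain ⟨p, rfl⟩ := AdjoinRoot.mk_surjective x
      show fw g s (bw g hs (AdjoinRoot.mk g p)) = AdjoinRoot.mk g p
      rw [bw_mk, fw_mk, comp_one (inv_mul_cancel₀ hs)])
    (by
      refine AlgHom.ext fun x => ?_
      obtain ⟨p, rfl⟩ := AdjoinRoot.mk_surjective x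
      show bw g hs (fw g s (AdjoinRoot.mk (g.scaleRoots s) p)) = AdjoinRoot.mk (g.scaleRoots s) p
      rw [fw_mk, bw_mk, comp_one (mul_inv_cancel₀ hs)])

private lemma eq1_mk (g : k[X]) {s : k} (hs : s ≠ 0) (p : k[X]) :
    eq1 g hs (AdjoinRoot.mk (g.scaleRoots s) (p.comp (C s⁻¹ * X))) = AdjoinRoot.mk g p := by
  have e := fw_mk g s (p.comp (C s⁻¹ * X))
  rw [comp_one (inv_mul_cancel₀ hs)] at e
  exact e

private lemma tau_eq1 (hg : g.Monic) {s : k} (hs : s ≠ 0) (hg' : (g.scaleRoots s).Monic)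
    (z : AdjoinRoot (g.scaleRoots s)) : tau hg (eq1 g hs z) = s ^ (g.natDegree - 1) * tau hg' z := by
  obtain ⟨p, rfl⟩ := AdjoinRoot.mk_surjective z
  have h1 : AdjoinRoot.mk (g.scaleRoots s) p = AdjoinRoot.mk (g.scaleRoots s) (p %ₘ g.scaleRoots s) := by
    rw [AdjoinRoot.mk_eq_mk, modByMonic_eq_sub_mul_div, sub_sub_cancel]
    exact dvd_mul_right _ _
  have h2 : (p %ₘ g.scaleRoots s).degree < g.degree := by
    have h3 := degree_modByMonic_lt p hg'
    rwa [degree_scaleRoots] at h3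
  set q := p %ₘ g.scaleRoots s with hq
  have h4 : eq1 g hs (AdjoinRoot.mk (g.scaleRoots s) p) = AdjoinRoot.mk g (q.comp (C s * X)) := by
    rw [h1]
    exact fw_mk g s q
  have h5 : (q.comp (C s * X)) %ₘ g = q.comp (C s * X) := by
    rw [modByMonic_eq_self_iff hg]
    refine lt_of_le_of_lt ?_ h2
    rw [degree_le_iff_coeff_zero]
    intro i hi
    rw [comp_C_mul_X_coeff, coeff_eq_zero_of_degree_lt hi, zero_mul]
  rw [h4, tau_mk, h5, tau_mk, ← hq, comp_C_mul_X_coeff, natDegree_scaleRoots, mul_comm]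

theorem norm_scale (hg : g.Monic) {s : k} (hs : s ≠ 0) (p : k[X]) :
    Algebra.norm k (AdjoinRoot.mk (g.scaleRoots s) (p.comp (C s⁻¹ * X))) =
      Algebra.norm k (AdjoinRoot.mk g p) := by
  rw [← eq1_mk g hs p]
  exact (Algebra.norm_eq_of_algEquiv (eq1 g hs) _).symm

theorem isot_scale (hg : g.Monic) {n : ℕ} (hm : g.natDegree = 2 * n + 1) {s : k} (hs : s ≠ 0)
    (p : k[X]) :
    Isot (g.scaleRoots s) (AdjoinRoot.mk (g.scaleRoots s) (p.comp (C s⁻¹ * X))) ↔
      Isot g (AdjoinRoot.mk g p) := by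
  have hg' : (g.scaleRoots s).Monic := (monic_scaleRoots_iff s).2 hg
  have hse : s ^ (g.natDegree - 1) ≠ 0 := pow_ne_zero _ hs
  constructor
  · rintro ⟨_, X, hX1, hX2⟩
    refine ⟨hg, X.map (eq1 g hs).toLinearEquiv.toLinearMap, ?_, ?_⟩
    · rw [LinearEquiv.finrank_map_eq, hX1, natDegree_scaleRoots]
    · rintro _ ⟨x, hx, rfl⟩ _ ⟨y, hy, rfl⟩
      show tau hg (AdjoinRoot.mk g p * eq1 g hs x * eq1 g hs y) = 0
      rw [← eq1_mk g hs p, ← map_mul, ← map_mul, tau_eq1 hg hs hg', hX2 x hx y hy, mul_zero]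
  · rintro ⟨_, X, hX1, hX2⟩
    refine ⟨hg', X.map (eq1 g hs).symm.toLinearEquiv.toLinearMap, ?_, ?_⟩
    · rw [LinearEquiv.finrank_map_eq, hX1, natDegree_scaleRoots]
    · rintro _ ⟨x, hx, rfl⟩ _ ⟨y, hy, rfl⟩
      show tau hg' (_ * (eq1 g hs).symm x * (eq1 g hs).symm y) = 0
      refine (mul_eq_zero.1 ?_).resolve_left hse
      rw [← tau_eq1 hg hs hg', map_mul (eq1 g hs), map_mul (eq1 g hs), eq1_mk, AlgEquiv.apply_symm_apply, AlgEquiv.apply_symm_apply]
      exact hX2 x hx y hy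

end Pool.Agent.H74.GR
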