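import Pool.Agent.H74.GR.Iso

set_option autoImplicit false

/-!
# [H74 GR Spl] Splitting off a hyperbolic plane, orthogonal bases

`B = Matrix.toBilin' G` on `V = ι → K` (or `LinearMap.BilinForm`), symmetric, nondegenerate (`det G ≠ 0`: `Matrix.nondegenerate_toBilin'_iff_det_ne_zero` or a similar name), `B x y = x ⬝ᵥ G *ᵥ y`.
* `exists_congr`: for a basis `b : Basis κ K (ι → K)` let `P : Matrix ι κ K` be `P i j = b j i` and `Q` the matrix of the inverse (`Basis.toMatrix`: `(Pi.basisFun K ι).toMatrix b` and `b.toMatrix (Pi.basisFun K ι)`,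
  `Basis.toMatrix_mul_toMatrix_flip`).  The entry `(i, j)` of `Pᵀ * G * P` is `B (b i) (b j)`.
* `split_plane`: `x ≠ 0`, `B x x = 0`.  There is `u` with `B x u = 1` (nondegenerate; scale); `y = u - (B u u / 2) x`: `B x y = 1`, `B y y = 0`.  `W = span {x, y}`, `W' = {z | B x z = 0 ∧ B y z = 0}`: `W ⊓ W' = ⊥`
  and `z - (B y z) x - (B x z) y ∈ W'`, so `IsCompl W W'`, `finrank W = 2` (`x`, `y` independent: `a x + b y = 0` gives `b = B x _ = 0`, `a = B y _ = 0`), so `finrank W' = n`.  A basis of `W'`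
  (`Module.finBasisOfFinrankEq`) and `x, y` give a basis of `V` indexed by `Fin 2 ⊕ Fin n` (`Submodule.prodEquivOfIsCompl`, `Basis.prod`, or by linear independence and `card = finrank`:
  `basisOfLinearIndependentOfCardEqFinrank`).  `exists_congr`; the blocks are `!![0, 1; 1, 0]`, `0`, `0`, `G' = (B (w i) (w j))`, symmetric.
* `diag3`: the same for an orthogonal basis (`LinearMap.BilinForm.exists_orthogonal_basis`, or `LinearMap.BilinForm.IsSymm ...`, needs `Invertible (2 : K)`; reindex the basis by `finrank K (Fin n → K) = n`):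
  `∃ P Q d, P * Q = 1 ∧ Q * P = 1 ∧ Pᵀ * G * P = diagonal d`.
-/

namespace Pool.Agent.H74.GR

open Matrix

variable {K : Type*} [Field K] {ι κ : Type*} [Fintype ι] [Fintype κ] [DecidableEq ι] [DecidableEq κ]

theorem exists_congr (G : Matrix ι ι K) (b : Module.Basis κ K (ι → K)) :
    ∃ (P : Matrix ι κ K) (Q : Matrix κ ι K), P * Q = 1 ∧ Q * P = 1 ∧
      ∀ i j, (Pᵀ * G * P) i j = b i ⬝ᵥ G *ᵥ b j := by
  refine ⟨(Pi.basisFun K ι).toMatrix b, b.toMatrix (Pi.basisFun K ι),
    Module.Basis.toMatrix_mul_toMatrix_flip _ _, Module.Basis.toMatrix_mul_toMatrix_flip _ _, ?_⟩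
  intro i j
  rw [Matrix.mul_assoc, Matrix.mul_apply]
  rfl

omit [DecidableEq ι] in
private theorem fm_symm (G : Matrix ι ι K) (hG : G.IsSymm) (u v : ι → K) :
    u ⬝ᵥ G *ᵥ v = v ⬝ᵥ G *ᵥ u := by
  conv_rhs => rw [dotProduct_mulVec, ← mulVec_transpose, hG.eq, dotProduct_comm]

theorem split_plane (h2 : (2 : K) ≠ 0) {n : ℕ} (G : Matrix ι ι K) (hG : G.IsSymm)
    (hd : G.det ≠ 0) (hn : Fintype.card ι = n + 2) (x : ι → K) (hx : x ≠ 0)
    (hxx : x ⬝ᵥ G *ᵥ x = 0) :
    ∃ (P : Matrix ι (Fin 2 ⊕ Fin n) K) (Q : Matrix (Fin 2 ⊕ Fin n) ι K)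
      (G' : Matrix (Fin n) (Fin n) K), P * Q = 1 ∧ Q * P = 1 ∧ G'.IsSymm ∧
        Pᵀ * G * P = fromBlocks !![0, 1; 1, 0] 0 0 G' := by
  classical
  have sy : ∀ u v : ι → K, u ⬝ᵥ G *ᵥ v = v ⬝ᵥ G *ᵥ u := by
    intro u v
    have h1 := fm_symm G hG u v
    exact h1
  -- a partner of `x`
  obtain ⟨u, hu⟩ : ∃ u : ι → K, x ⬝ᵥ G *ᵥ u = 1 := by
    have h1 : x ᵥ* G ≠ 0 := fun h => hx (eq_zero_of_vecMul_eq_zero hd h)
    obtain ⟨i, hi⟩ := Function.ne_iff.1 h1
    refine ⟨Pi.single i ((x ᵥ* G) i)⁻¹, ?_⟩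
    rw [dotProduct_mulVec, dotProduct_single, mul_inv_cancel₀ hi]
  obtain ⟨y, hxy, hyy⟩ : ∃ y : ι → K, x ⬝ᵥ G *ᵥ y = 1 ∧ y ⬝ᵥ G *ᵥ y = 0 := by
    refine ⟨u - ((u ⬝ᵥ G *ᵥ u) / 2) • x, ?_, ?_⟩
    · rw [mulVec_sub, dotProduct_sub, hu, mulVec_smul, dotProduct_smul, hxx, smul_zero, sub_zero]
    · simp only [mulVec_sub, dotProduct_sub, sub_dotProduct, mulVec_smul, dotProduct_smul,
        smul_dotProduct, hxx, hu, sy u x, smul_eq_mul]
      field_simp
      ring
  have hyx : y ⬝ᵥ G *ᵥ x = 1 := by rw [sy, hxy]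
  let φ : (ι → K) →ₗ[K] (Fin 2 → K) :=
    { toFun := fun z => ![x ⬝ᵥ G *ᵥ z, y ⬝ᵥ G *ᵥ z]
      map_add' := by
        intro z z'
        ext i
        fin_cases i <;> simp [mulVec_add, dotProduct_add]
      map_smul' := by
        intro c z
        ext i
        fin_cases i <;> simp [mulVec_smul, dotProduct_smul] }
  have hφ0 : ∀ z, φ z 0 = x ⬝ᵥ G *ᵥ z := fun z => rfl
  have hφ1 : ∀ z, φ z 1 = y ⬝ᵥ G *ᵥ z := fun z => rfl
  have hsurj : LinearMap.range φ = ⊤ := by
    rw [LinearMap.range_eq_top]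
    intro c
    refine ⟨c 0 • y + c 1 • x, ?_⟩
    ext i
    fin_cases i
    · show φ _ 0 = c 0
      rw [hφ0, mulVec_add, dotProduct_add, mulVec_smul, mulVec_smul, dotProduct_smul,
        dotProduct_smul, hxy, hxx]
      simp
    · show φ _ 1 = c 1
      rw [hφ1, mulVec_add, dotProduct_add, mulVec_smul, mulVec_smul, dotProduct_smul,
        dotProduct_smul, hyy, hyx]
      simp
  have hfr : Module.finrank K (LinearMap.ker φ) = n := by
    have h1 := φ.finrank_range_add_finrank_ker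
    rw [hsurj, finrank_top, Module.finrank_fintype_fun_eq_card, Module.finrank_fintype_fun_eq_card,
      Fintype.card_fin, hn] at h1
    omega
  have w := Module.finBasisOfFinrankEq K (LinearMap.ker φ) hfr
  have hw0 : ∀ i, x ⬝ᵥ G *ᵥ ((w i : LinearMap.ker φ) : ι → K) = 0 := fun i =>
    (hφ0 _).symm.trans (congrFun (show φ (w i : ι → K) = 0 from (w i).2) 0)
  have hw1 : ∀ i, y ⬝ᵥ G *ᵥ ((w i : LinearMap.ker φ) : ι → K) = 0 := fun i =>
    (hφ1 _).symm.trans (congrFun (show φ (w i : ι → K) = 0 from (w i).2) 1)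
  have hwli : LinearIndependent K (fun i => ((w i : LinearMap.ker φ) : ι → K)) :=
    w.linearIndependent.map' (LinearMap.ker φ).subtype (Submodule.ker_subtype _)
  let b0 : Fin 2 ⊕ Fin n → (ι → K) := Sum.elim ![x, y] (fun i => ((w i : LinearMap.ker φ) : ι → K))
  have hli : LinearIndependent K b0 := by
    rw [Fintype.linearIndependent_iff]
    intro g hg
    rw [Fintype.sum_sum_type, Fin.sum_univ_two] at hg
    have hb0 : b0 (Sum.inl 0) = x := rfl
    have hb1 : b0 (Sum.inl 1) = y := rfl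
    have hbr : ∀ i, b0 (Sum.inr i) = ((w i : LinearMap.ker φ) : ι → K) := fun i => rfl
    simp only [hb0, hb1, hbr] at hg
    have h1 := congrArg (fun z => x ⬝ᵥ G *ᵥ z) hg
    simp only [mulVec_add, dotProduct_add, mulVec_smul, dotProduct_smul, hxx, hxy, mulVec_sum,
      dotProduct_sum, hw0, Finset.sum_const_zero, mulVec_zero, dotProduct_zero, zero_add,
      add_zero, smul_eq_mul, mul_one, mul_zero] at h1
    have h2 := congrArg (fun z => y ⬝ᵥ G *ᵥ z) hg
    simp only [mulVec_add, dotProduct_add, mulVec_smul, dotProduct_smul, hyy, hyx, mulVec_sum,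
      dotProduct_sum, hw1, Finset.sum_const_zero, mulVec_zero, dotProduct_zero, zero_add,
      add_zero, smul_eq_mul, mul_one, mul_zero] at h2
    rw [h1, h2, zero_smul, zero_smul, zero_add, zero_add] at hg
    have h3 := Fintype.linearIndependent_iff.1 hwli _ hg
    intro i
    rcases i with i | i
    · fin_cases i
      · exact h2
      · exact h1
    · exact h3 i
  have hcard : Fintype.card (Fin 2 ⊕ Fin n) = Module.finrank K (ι → K) := by
    rw [Fintype.card_sum, Fintype.card_fin, Fintype.card_fin, Module.finrank_fintype_fun_eq_card, hn]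
    omega
  have : Nonempty (Fin 2 ⊕ Fin n) := ⟨Sum.inl 0⟩
  obtain ⟨P, Q, h1, h2, h3⟩ := exists_congr G (basisOfLinearIndependentOfCardEqFinrank hli hcard)
  have hb : ∀ i, (basisOfLinearIndependentOfCardEqFinrank hli hcard) i = b0 i := by
    intro i
    rw [coe_basisOfLinearIndependentOfCardEqFinrank]
  simp only [hb] at h3
  refine ⟨P, Q, Matrix.of (fun i j => ((w i : LinearMap.ker φ) : ι → K) ⬝ᵥ G *ᵥ
    ((w j : LinearMap.ker φ) : ι → K)), h1, h2, ?_, ?_⟩
  · ext i j
    exact sy _ _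
  · ext i j
    rw [h3]
    rcases i with i | i <;> rcases j with j | j
    · fin_cases i <;> fin_cases j
      · exact hxx
      · exact hxy
      · exact hyx
      · exact hyy
    · fin_cases i
      · exact hw0 j
      · exact hw1 j
    · fin_cases j
      · exact (sy _ _).trans (hw0 i)
      · exact (sy _ _).trans (hw1 i)
    · rfl

theorem diag_of_symm (h2 : (2 : K) ≠ 0) {n : ℕ} (G : Matrix (Fin n) (Fin n) K) (hG : G.IsSymm) :
    ∃ (P Q : Matrix (Fin n) (Fin n) K) (d : Fin n → K), P * Q = 1 ∧ Q * P = 1 ∧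
      Pᵀ * G * P = diagonal d := by
  let _ : Invertible (2 : K) := invertibleOfNonzero h2
  have hB : (Matrix.toBilin' G).IsSymm := by
    constructor
    intro u v
    rw [toBilin'_apply', toBilin'_apply']
    exact fm_symm G hG u v
  obtain ⟨v, hv⟩ := LinearMap.BilinForm.exists_orthogonal_basis (LinearMap.BilinForm.isSymm_iff.1 hB)
  have hn : Module.finrank K (Fin n → K) = n := by simp
  obtain ⟨P, Q, h1, h2, h3⟩ := exists_congr G (v.reindex (finCongr hn))
  refine ⟨P, Q, fun i => (Pᵀ * G * P) i i, h1, h2, ?_⟩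
  ext i j
  by_cases hij : i = j
  · subst hij
    rw [diagonal_apply_eq]
  · rw [diagonal_apply_ne _ hij, h3, ← toBilin'_apply', Module.Basis.reindex_apply,
      Module.Basis.reindex_apply]
    exact hv (fun h => hij ((finCongr hn).symm.injective h))

end Pool.Agent.H74.GR
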