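import Pool.Agent.H94.GG.TWO
import Pool.Agent.H94.GG.SN

set_option autoImplicit false

/-!
# [H74 GR UA] Even type: squares are recognized at the rational residue component

`S.f = (X - C c) * G`, `u` coprime to `S.f` modulo `ϖ`, `N(cl u)` a square in `M`, `red (u(c))` a square in `κ`.  Then `S.f ∣ Q ^ 2 - u` for some `Q`, in particular `S.cl u` is a square.
PROOF.  1. `N_M (cl u) = u(c) * N_M (mk G_M u_M)` (`tf_norm`, `S.fM_eq`, `S.Gc_ne`; copy the private `th_norm` of `H94/GG/TH`).  `N_M (mk G_M u_M)` is the image of `ν = N_{OO M} (mk G u) ∈ OO M` (`norm_map` with `(OO M).subtype`), and `L.red ν = N_κ (mk Ḡ ū)`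
(`norm_map` with `L.red`), `Ḡ = S.G.map L.red`.  So `y ^ 2 = u(c) * ν` in `M`, both factors on the right are in `OO M`, so `v (y) ^ 2 ≤ 1`, `v y ≤ 1`: `y = y₀ ∈ OO M`, `y₀ ^ 2 = u(c) ν`.  Apply `L.red`, `L.red (u(c)) = a ^ 2 ≠ 0` (`S.cop_iff`):
`N_κ (mk Ḡ ū) = (red y₀ / a) ^ 2`.
2. `fin_sq_adj` (`S.irr`): `mk Ḡ ū = r ^ 2`.  `tf_sq` over `κ` (`S.ne`, `(ū).eval c̄ = red (u(c)) = a ^ 2`): the class of `ū` modulo `(X - C c̄) * Ḡ = S.f.map L.red` is a square: `S.f.map L.red ∣ (Q₀ ^ 2 - u).map L.red` for some `Q₀` (`Polynomial.map_surjective L.red L.surj`).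
3. `Q₀` is coprime to `S.f` modulo `ϖ` (its square is congruent to `ū`, which is coprime to `S.f.map L.red`; `IsCoprime` of a power, `IsCoprime.of_add_mul_left_left`-type lemma or via `IsUnit` in `AdjoinRoot (S.f.map L.red)`).
4. Hensel: `PN.hel L.red L.surj L.ker L.hϖ (ℓ := 2) _ S.f_monic _ _` gives `Q` (as in `th_root` of `H94/GG/TH`).
`ev_sq_cl`: `S.cl u = (S.cl Q) ^ 2` from it (`AdjoinRoot.mk_eq_mk`, map the divisibility to `M`).
-/

namespace Pool.Agent.H74.GR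

open Polynomial WithZero
open Pool.Agent.H94.GG

variable {M : Type} [Field M] [hv : Valued M ℤᵐ⁰] [CompleteSpace M] {κ : Type} [Field κ] [Finite κ]

private theorem ua_mk {R R' : Type} [CommRing R] [CommRing R'] (φ : R →+* R') (g q : R[X]) :
    AdjoinRoot.map φ g (g.map φ) dvd_rfl (AdjoinRoot.mk g q) =
      AdjoinRoot.mk (g.map φ) (q.map φ) := by
  have h : (AdjoinRoot.map φ g (g.map φ) dvd_rfl).comp (AdjoinRoot.mk g) =
      (AdjoinRoot.mk (g.map φ)).comp (Polynomial.mapRingHom φ) := by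
    apply Polynomial.ringHom_ext
    · intro a
      simp
    · simp
  exact RingHom.congr_fun h q

private theorem ua_norm {k : Type} [Field k] {c : k} {G f : k[X]} (hf : f = (X - C c) * G)
    (hG : G.Monic) (hc : G.eval c ≠ 0)
    (h : k[X]) : Algebra.norm k (AdjoinRoot.mk f h) =
      h.eval c * Algebra.norm k (AdjoinRoot.mk G h) := by
  subst hf
  exact tf_norm hG hc h

private theorem ua_sq {k : Type} [Field k] {c : k} {G f : k[X]} (hf : f = (X - C c) * G)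
    (hc : G.eval c ≠ 0) {h : k[X]} {a : k}
    (ha : h.eval c = a ^ 2) {z : AdjoinRoot G} (hz : AdjoinRoot.mk G h = z ^ 2) :
    ∃ w : AdjoinRoot f, AdjoinRoot.mk f h = w ^ 2 := by
  subst hf
  exact tf_sq hc ha hz

private theorem ua_cop {R : Type} [CommRing R] {p h Q : R[X]} (hp : IsCoprime h p)
    (hd : p ∣ Q ^ 2 - h) : IsCoprime p Q := by
  obtain ⟨q, hq⟩ := hd
  obtain ⟨a, b, hab⟩ := hp
  refine ⟨b - a * q, a * Q, ?_⟩
  linear_combination hab + a * hq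

omit [CompleteSpace M] [Finite κ] in
/-- the norm at the irrational component is a square in the residue field -/
private theorem ua_res {L : Loc M κ} (S : Spl L) {u : (OO M)[X]}
    (hu : L.red (u.eval S.c) ≠ 0) (hN : ∃ y : M, Algebra.norm M (S.cl u) = y ^ 2)
    {a : κ} (ha : L.red (u.eval S.c) = a ^ 2) :
    ∃ y : κ, Algebra.norm κ (AdjoinRoot.mk (S.G.map L.red) (u.map L.red)) = y ^ 2 := by
  obtain ⟨y, hy⟩ := hN
  have ha0 : a ≠ 0 := by
    rintro rfl
    rw [ha] at hu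
    exact hu (by ring)
  have hn := ua_norm S.fM_eq (S.mon.map _) S.Gc_ne (u.map (OO M).subtype)
  have h1 : (u.map (OO M).subtype).eval (S.c : M) = ((u.eval S.c : OO M) : M) := by
    rw [eval_map]
    exact eval₂_at_apply (OO M).subtype S.c
  have h2 : Algebra.norm M (AdjoinRoot.mk (S.G.map (OO M).subtype) (u.map (OO M).subtype)) =
      (OO M).subtype (Algebra.norm (OO M) (AdjoinRoot.mk S.G u)) := by
    rw [← ua_mk, Pool.Agent.H94.GG.norm_map _ S.mon]
  have h3 : Algebra.norm κ (AdjoinRoot.mk (S.G.map L.red) (u.map L.red)) =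
      L.red (Algebra.norm (OO M) (AdjoinRoot.mk S.G u)) := by
    rw [← ua_mk, Pool.Agent.H94.GG.norm_map _ S.mon]
  obtain ⟨ν, hν⟩ : ∃ ν : OO M, ν = Algebra.norm (OO M) (AdjoinRoot.mk S.G u) := ⟨_, rfl⟩
  rw [← hν] at h2 h3
  have h4 : y ^ 2 = ((u.eval S.c : OO M) : M) * (ν : M) := by
    rw [← hy]
    refine hn.trans ?_
    rw [h1, h2]
    rfl
  have h5 : (Valued.v : Valuation M ℤᵐ⁰) y ≤ 1 := by
    have h6 : (Valued.v : Valuation M ℤᵐ⁰) y ^ 2 ≤ 1 := by
      rw [← map_pow, h4]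
      exact (u.eval S.c * ν : OO M).2
    exact (pow_le_one_iff two_ne_zero).1 h6
  obtain ⟨y0, hy0⟩ : ∃ y0 : OO M, (y0 : M) = y := ⟨⟨y, h5⟩, rfl⟩
  have h6 : y0 ^ 2 = u.eval S.c * ν := by
    apply Subtype.ext
    show ((y0 : OO M) : M) ^ 2 = ((u.eval S.c : OO M) : M) * (ν : M)
    rw [hy0, h4]
  have h7 := congrArg L.red h6
  rw [map_pow, map_mul, ha] at h7
  refine ⟨L.red y0 / a, ?_⟩
  rw [h3]
  field_simp
  linear_combination -h7

theorem ev_sq_of (h2 : (2 : κ) ≠ 0) {L : Loc M κ} (S : Spl L) {u : (OO M)[X]}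
    (hu : IsCoprime (u.map L.red) (S.f.map L.red)) (hN : ∃ y : M, Algebra.norm M (S.cl u) = y ^ 2)
    (ha : ∃ a : κ, L.red (u.eval S.c) = a ^ 2) : ∃ z : AdjoinRoot S.fM, S.cl u = z ^ 2 := by
  obtain ⟨hu1, hu2⟩ := (S.cop_iff u).1 hu
  obtain ⟨a, ha⟩ := ha
  obtain ⟨y, hy⟩ := ua_res S hu1 hN ha
  obtain ⟨r, hr⟩ := fin_sq_adj h2 S.irr hy
  have hf : S.f.map L.red = (X - C (L.red S.c)) * S.G.map L.red := by
    rw [Spl.f, Polynomial.map_mul, Polynomial.map_sub, map_X, map_C]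
  have he : (u.map L.red).eval (L.red S.c) = a ^ 2 := by
    rw [← ha, eval_map, eval₂_at_apply]
  obtain ⟨w, hw⟩ := ua_sq hf S.ne he hr
  obtain ⟨Q1, rfl⟩ := AdjoinRoot.mk_surjective w
  obtain ⟨Q0, rfl⟩ := Polynomial.map_surjective L.red L.surj Q1
  have hd : S.f.map L.red ∣ (Q0.map L.red) ^ 2 - u.map L.red := by
    rw [← AdjoinRoot.mk_eq_zero, map_sub, map_pow, hw, sub_self]
  have hc := ua_cop hu hd
  rw [← Polynomial.map_pow, ← Polynomial.map_sub] at hd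
  obtain ⟨Q, hQ⟩ := Pool.Agent.H94.PN.hel L.red L.surj L.ker L.hϖ (ℓ := 2) (by
    rw [Nat.cast_ofNat]
    exact two_val L h2) S.f_monic hc hd
  refine ⟨S.cl Q, ?_⟩
  show AdjoinRoot.mk S.fM (u.map (OO M).subtype) = AdjoinRoot.mk S.fM (Q.map (OO M).subtype) ^ 2
  rw [← map_pow]
  symm
  rw [AdjoinRoot.mk_eq_mk, ← Polynomial.map_pow, ← Polynomial.map_sub]
  exact Polynomial.map_dvd (OO M).subtype hQ

end Pool.Agent.H74.GR
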