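import Pool.Agent.H74.GR.UA

set_option autoImplicit false

namespace Pool.Agent.H74.GR

open Polynomial WithZero
open Pool.Agent.H94.GG

variable {M : Type} [Field M] [hv : Valued M ℤᵐ⁰]

private theorem ub_norm {A : Type} [CommRing A] [Algebra M A] {z c : A} (hz : IsUnit z)
    (h : ∃ y : M, Algebra.norm M (z ^ 2 * c) = y ^ 2) : ∃ y : M, Algebra.norm M c = y ^ 2 := by
  obtain ⟨y, hy⟩ := h
  rw [map_mul, map_pow] at hy
  have h0 : Algebra.norm M z ≠ 0 := (hz.map (Algebra.norm M)).ne_zero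
  refine ⟨y / Algebra.norm M z, ?_⟩
  rw [div_pow, eq_div_iff (pow_ne_zero 2 h0)]
  linear_combination hy

private theorem ub_sq {κ : Type} [Field κ] [Finite κ] {a b : κ} (ha : a ≠ 0) (hb : b ≠ 0) :
    (∃ x, a = x ^ 2) ∨ (∃ x, b = x ^ 2) ∨ ∃ x, a * b = x ^ 2 := by
  classical
  haveI := Fintype.ofFinite κ
  have hs : ∀ x : κ, IsSquare x → ∃ y, x = y ^ 2 := fun x hx => by
    obtain ⟨y, hy⟩ := hx
    exact ⟨y, by rw [hy, sq]⟩
  by_cases h1 : IsSquare a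
  · exact Or.inl (hs a h1)
  by_cases h2 : IsSquare b
  · exact Or.inr (Or.inl (hs b h2))
  refine Or.inr (Or.inr (hs _ ?_))
  rw [← quadraticChar_one_iff_isSquare (mul_ne_zero ha hb), map_mul,
    quadraticChar_neg_one_iff_not_isSquare.2 h1, quadraticChar_neg_one_iff_not_isSquare.2 h2]
  norm_num

theorem ev_ev [CompleteSpace M] {κ : Type} [Field κ] [Finite κ] (h2 : (2 : κ) ≠ 0) {L : Loc M κ}
    (S : Spl L) {δ δ' : AdjoinRoot S.fM} (hδ : S.Ev δ) (hδ' : S.Ev δ')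
    (hN : ∃ y : M, Algebra.norm M δ = y ^ 2) (hN' : ∃ y : M, Algebra.norm M δ' = y ^ 2) :
    (∃ z : AdjoinRoot S.fM, δ = z ^ 2) ∨ (∃ z : AdjoinRoot S.fM, δ' = z ^ 2) ∨
      ∃ z : AdjoinRoot S.fM, δ * δ' = z ^ 2 := by
  obtain ⟨z, u, hz, hu, rfl⟩ := hδ
  obtain ⟨z', u', hz', hu', rfl⟩ := hδ'
  have hn := ub_norm hz hN
  have hn' := ub_norm hz' hN'
  obtain ⟨hu1, -⟩ := (S.cop_iff u).1 hu
  obtain ⟨hu1', -⟩ := (S.cop_iff u').1 hu'
  rcases ub_sq hu1 hu1' with h | h | h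
  · obtain ⟨t, ht⟩ := ev_sq_of h2 S hu hn h
    exact Or.inl ⟨z * t, by rw [ht]; ring⟩
  · obtain ⟨t, ht⟩ := ev_sq_of h2 S hu' hn' h
    exact Or.inr (Or.inl ⟨z' * t, by rw [ht]; ring⟩)
  · have hc : IsCoprime ((u * u').map L.red) (S.f.map L.red) := by
      rw [Polynomial.map_mul]
      exact hu.mul_left hu'
    have hnn : ∃ y : M, Algebra.norm M (S.cl (u * u')) = y ^ 2 := by
      obtain ⟨y, hy⟩ := hn
      obtain ⟨y', hy'⟩ := hn'
      refine ⟨y * y', ?_⟩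
      rw [S.cl_mul, map_mul, hy, hy', mul_pow]
    have hsq : ∃ a : κ, L.red ((u * u').eval S.c) = a ^ 2 := by
      rw [eval_mul, map_mul]
      exact h
    obtain ⟨t, ht⟩ := ev_sq_of h2 S hc hnn hsq
    refine Or.inr (Or.inr ⟨z * z' * t, ?_⟩)
    rw [S.cl_mul] at ht
    linear_combination (z ^ 2 * z' ^ 2) * ht

theorem od_mul_od {κ : Type} [Field κ] {L : Loc M κ} (S : Spl L) {δ δ' : AdjoinRoot S.fM}
    (hδ : S.Od δ) (hδ' : S.Od δ') : S.Ev (δ * δ') := by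
  obtain ⟨z, u, w, hz, hu, hw1, hw2, rfl⟩ := hδ
  obtain ⟨z', u', w', hz', hu', hw1', hw2', rfl⟩ := hδ'
  have hcop : IsCoprime (X - C S.c) S.G := by
    refine cop_lift L (monic_X_sub_C _) ?_
    rw [Polynomial.map_sub, map_X, map_C]
    refine (irreducible_X_sub_C _).coprime_iff_not_dvd.2 fun hd => S.ne ?_
    exact dvd_iff_isRoot.1 hd
  have h1 : X - C S.c ∣ w - w' := by
    rw [dvd_iff_isRoot, IsRoot, eval_sub, hw1, hw1', sub_self]
  have h3 : S.G ∣ w - w' := by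
    have h4 := dvd_sub hw2 hw2'
    rwa [sub_sub_sub_cancel_right] at h4
  have h5 : S.f ∣ w - w' := hcop.mul_dvd h1 h3
  have hcl : S.cl w' = S.cl w := by
    rw [Spl.cl, Spl.cl, AdjoinRoot.mk_eq_mk, ← Polynomial.map_sub]
    refine Polynomial.map_dvd (OO M).subtype ?_
    rw [← neg_sub]
    exact h5.neg_right
  refine ⟨z * z' * S.cl w, u * u', (hz.mul hz').mul (S.cl_w_unit hw1 hw2), ?_, ?_⟩
  · rw [Polynomial.map_mul]
    exact hu.mul_left hu'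
  · rw [S.cl_mul, S.cl_mul, S.cl_mul, hcl]
    ring

theorem ev_of_mul {κ : Type} [Field κ] {L : Loc M κ} (S : Spl L) {δ δ' : AdjoinRoot S.fM}
    (hδ : S.Ev δ) (h : S.Ev (δ * δ')) : S.Ev δ' := by
  obtain ⟨e, he⟩ := (S.ev_unit hδ).exists_right_inv
  have heu : IsUnit e := IsUnit.of_mul_eq_one δ (by rw [mul_comm]; exact he)
  have h1 := S.ev_mul (S.ev_mul h hδ) (S.sq_ev heu)
  have h2 : δ * δ' * δ * e ^ 2 = δ' := by
    linear_combination (δ' * (δ * e + 1)) * he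
  rwa [h2] at h1

end Pool.Agent.H74.GR
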