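import Pool.Agent.H74.GR.UB

set_option autoImplicit false

/-!
# [H74 GR UC] The homomorphism to `F_2 ^ 2` over the completion

`NM δ`: `δ` is a unit with square norm.  `τ` = the element of `exists_tauD S L.hϖ` (with `D = L.ϖ`): of odd type, a value for `ϖ`, so isotropic (`isot_of_isVal`, see the proof of `val_ev_sq` in `H94/GG/TWO`), with square norm, a unit.
`c δ = (x, y)`: `y = 0` if `S.Ev δ`, `y = 1` otherwise; `ε δ = δ` if `y = 0`, `δ * τ` if `y = 1`; `x = 0` if `ε δ` is a square, `x = 1` otherwise (classical `if`).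
For `δ` with `NM δ`: `S.Ev δ` or `S.Od δ` (`ev_or_od`), so `ε δ` is of even type (`od_mul_od`) with square norm, a unit.
* `mul`: `y` is additive: both even: `S.ev_mul`; one even and the other not: the product is not even (`ev_of_mul`, commutativity); both not even: both odd: `od_mul_od`.  `x` is additive: `ε (δ δ')` and `ε δ * ε δ'` differ by the square of a unit (`1` or `τ ^ 2`), so one is a square iff the other is (divide by the square of
  the unit `τ`); `ε δ`, `ε δ'` of even type with square norms: if both are squares so is the product; if exactly one is a square the product is not (`ε δ'= (product) / ε δ`, a square divided by the square of a unit; `z ^ 2` a unit implies `z` a unit); if none is a square the product is a square (`ev_ev`).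
* `sq`: `c δ = 0` means `S.Ev δ` and `δ` is a square; a square which is a unit is of even type (`S.sq_ev`).  * `ev`: by definition.
* `iso`: `(c δ).2 = 1`: `δ` is of odd type.  `x = 0`: `δ τ = s ^ 2`, `δ = (s τ⁻¹) ^ 2 τ` is isotropic as `τ` is (`isot_mul_sq_iff`).  Conversely if `δ` is isotropic `δ τ` is a square (`od_od`).
* `val`: `v D = exp (-1)`, `IsVal D S.fM δ`: if `S.Ev δ` then `δ` is a square (`val_ev_sq`); otherwise `δ` is of odd type and isotropic (`isot_of_isVal`), so `x = 0` by `iso`.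
-/

namespace Pool.Agent.H74.GR

open Polynomial WithZero
open Pool.Agent.H94.GG

variable {M : Type} [Field M] [hv : Valued M ℤᵐ⁰]

/-- a unit with square norm -/
def NM {g : M[X]} (δ : AdjoinRoot g) : Prop :=
  IsUnit δ ∧ ∃ y : M, Algebra.norm M δ = y ^ 2

/-- even type, for a polynomial `g` which is equal to `S.fM` -/
def EvG {κ : Type} [Field κ] {L : Loc M κ} (S : Spl L) (g : M[X]) (δ : AdjoinRoot g) : Prop :=
  ∃ (z : AdjoinRoot g) (u : (OO M)[X]), IsUnit z ∧ IsCoprime (u.map L.red) (S.f.map L.red) ∧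
    δ = z ^ 2 * AdjoinRoot.mk g (u.map (OO M).subtype)

/-- the local classification -/
structure LHom {κ : Type} [Field κ] {L : Loc M κ} (S : Spl L) (g : M[X])
    (c : AdjoinRoot g → ZMod 2 × ZMod 2) : Prop where
  mul : ∀ δ δ', NM δ → NM δ' → c (δ * δ') = c δ + c δ'
  sq : ∀ δ, NM δ → (c δ = 0 ↔ ∃ z, δ = z ^ 2)
  ev : ∀ δ, NM δ → ((c δ).2 = 0 ↔ EvG S g δ)
  iso : ∀ δ, NM δ → (c δ).2 ≠ 0 → (Isot g δ ↔ (c δ).1 = 0)
  val : ∀ (D : OO M) (δ), (Valued.v : Valuation M ℤᵐ⁰) (D : M) = exp (-1 : ℤ) → NM δ →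
    IsVal (D : M) g δ → (c δ).1 = 0

open Classical in
/-- `0` for squares, `1` otherwise -/
private noncomputable def sqb {A : Type} [CommRing A] (β : A) : ZMod 2 :=
  if ∃ z, β = z ^ 2 then 0 else 1

open Classical in
/-- `0` for the even type, `1` otherwise -/
private noncomputable def evb {κ : Type} [Field κ] {L : Loc M κ} (S : Spl L)
    (β : AdjoinRoot S.fM) : ZMod 2 := if S.Ev β then 0 else 1

open Classical in
/-- the even element -/
private noncomputable def eps {κ : Type} [Field κ] {L : Loc M κ} (S : Spl L)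
    (τ β : AdjoinRoot S.fM) : AdjoinRoot S.fM := if S.Ev β then β else β * τ

private theorem sqb_pos {A : Type} [CommRing A] {β : A} (h : ∃ z, β = z ^ 2) : sqb β = 0 :=
  if_pos h

private theorem sqb_neg {A : Type} [CommRing A] {β : A} (h : ¬ ∃ z, β = z ^ 2) : sqb β = 1 :=
  if_neg h

private theorem sqb_zero {A : Type} [CommRing A] {β : A} (h : sqb β = 0) : ∃ z, β = z ^ 2 := by
  by_contra hn
  rw [sqb_neg hn] at h
  exact one_ne_zero h

private theorem unit_of_sq {A : Type} [CommRing A] {β z : A} (hβ : IsUnit β) (h : β = z ^ 2) :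
    IsUnit z := by
  rw [h] at hβ
  exact (isUnit_pow_iff two_ne_zero).1 hβ

/-- a factor which is the square of a unit can be cancelled -/
private theorem sq_cancel {A : Type} [CommRing A] {β z : A} (hz : IsUnit z)
    (h : ∃ s, β * z ^ 2 = s ^ 2) : ∃ s, β = s ^ 2 := by
  obtain ⟨s, hs⟩ := h
  obtain ⟨u, rfl⟩ := hz
  refine ⟨s * ((u⁻¹ : Aˣ) : A), ?_⟩
  have h1 : (u : A) * ((u⁻¹ : Aˣ) : A) = 1 := Units.mul_inv u
  rw [mul_pow, ← hs]
  linear_combination -(β * ((u : A) * ((u⁻¹ : Aˣ) : A) + 1)) * h1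

private theorem sqb_mul_sq {A : Type} [CommRing A] {β z : A} (hz : IsUnit z) :
    sqb (β * z ^ 2) = sqb β := by
  by_cases h : ∃ s, β = s ^ 2
  · rw [sqb_pos h]
    obtain ⟨s, rfl⟩ := h
    exact sqb_pos ⟨s * z, by ring⟩
  · rw [sqb_neg h, sqb_neg fun h' => h (sq_cancel hz h')]

section

variable {κ : Type} [Field κ] {L : Loc M κ} (S : Spl L)

private theorem evb_pos {β : AdjoinRoot S.fM} (h : S.Ev β) : evb S β = 0 := if_pos h

private theorem evb_neg {β : AdjoinRoot S.fM} (h : ¬ S.Ev β) : evb S β = 1 := if_neg h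

private theorem evb_zero {β : AdjoinRoot S.fM} : evb S β = 0 ↔ S.Ev β := by
  refine ⟨fun h => ?_, evb_pos S⟩
  by_contra hn
  rw [evb_neg S hn] at h
  exact one_ne_zero h

private theorem eps_pos {τ β : AdjoinRoot S.fM} (h : S.Ev β) : eps S τ β = β := if_pos h

private theorem eps_neg {τ β : AdjoinRoot S.fM} (h : ¬ S.Ev β) : eps S τ β = β * τ := if_neg h

private theorem nm_mul {δ δ' : AdjoinRoot S.fM} (h : NM δ) (h' : NM δ') : NM (δ * δ') := by
  obtain ⟨hu, y, hy⟩ := h
  obtain ⟨hu', y', hy'⟩ := h'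
  exact ⟨hu.mul hu', y * y', by rw [map_mul, hy, hy', mul_pow]⟩

private theorem od_of {δ : AdjoinRoot S.fM} (h : NM δ) (hn : ¬ S.Ev δ) : S.Od δ :=
  (ev_or_od S h.1 h.2).resolve_left hn

private theorem eps_nm {τ δ : AdjoinRoot S.fM} (hτ : NM τ) (h : NM δ) : NM (eps S τ δ) := by
  by_cases he : S.Ev δ
  · rw [eps_pos S he]
    exact h
  · rw [eps_neg S he]
    exact nm_mul S h hτ

private theorem eps_ev {τ δ : AdjoinRoot S.fM} (hτ : S.Od τ) (h : NM δ) : S.Ev (eps S τ δ) := by
  by_cases he : S.Ev δ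
  · rw [eps_pos S he]
    exact he
  · rw [eps_neg S he]
    exact od_mul_od S (od_of S h he) hτ

private theorem evb_mul {δ δ' : AdjoinRoot S.fM} (h : NM δ) (h' : NM δ') :
    evb S (δ * δ') = evb S δ + evb S δ' := by
  by_cases he : S.Ev δ <;> by_cases he' : S.Ev δ'
  · rw [evb_pos S he, evb_pos S he', evb_pos S (S.ev_mul he he'), add_zero]
  · rw [evb_pos S he, evb_neg S he', evb_neg S fun hm => he' (ev_of_mul S he hm), zero_add]
  · rw [evb_neg S he, evb_pos S he', evb_neg S fun hm => he (ev_of_mul S he' (by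
      rwa [mul_comm] at hm)), add_zero]
  · rw [evb_neg S he, evb_neg S he', evb_pos S (od_mul_od S (od_of S h he) (od_of S h' he'))]
    decide

private theorem eps_mul {τ δ δ' : AdjoinRoot S.fM} (hτ : IsUnit τ) (h : NM δ) (h' : NM δ') :
    sqb (eps S τ (δ * δ')) = sqb (eps S τ δ * eps S τ δ') := by
  by_cases he : S.Ev δ <;> by_cases he' : S.Ev δ'
  · rw [eps_pos S he, eps_pos S he', eps_pos S (S.ev_mul he he')]
  · rw [eps_pos S he, eps_neg S he', eps_neg S fun hm => he' (ev_of_mul S he hm), mul_assoc]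
  · rw [eps_neg S he, eps_pos S he', eps_neg S fun hm => he (ev_of_mul S he' (by
      rwa [mul_comm] at hm)), mul_right_comm]
  · rw [eps_neg S he, eps_neg S he', eps_pos S (od_mul_od S (od_of S h he) (od_of S h' he')),
      ← sqb_mul_sq (β := δ * δ') hτ]
    congr 1
    ring

private theorem sqb_mul [CompleteSpace M] [Finite κ] (h2 : (2 : κ) ≠ 0)
    {α α' : AdjoinRoot S.fM} (h : NM α) (h' : NM α') (he : S.Ev α) (he' : S.Ev α') :
    sqb (α * α') = sqb α + sqb α' := by
  by_cases hs : ∃ z, α = z ^ 2 <;> by_cases hs' : ∃ z, α' = z ^ 2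
  · rw [sqb_pos hs, sqb_pos hs']
    obtain ⟨z, rfl⟩ := hs
    obtain ⟨z', rfl⟩ := hs'
    rw [add_zero]
    exact sqb_pos ⟨z * z', by ring⟩
  · rw [sqb_pos hs]
    obtain ⟨z, rfl⟩ := hs
    rw [zero_add, mul_comm]
    exact sqb_mul_sq (unit_of_sq h.1 rfl)
  · rw [sqb_pos hs']
    obtain ⟨z, rfl⟩ := hs'
    rw [add_zero]
    exact sqb_mul_sq (unit_of_sq h'.1 rfl)
  · rw [sqb_neg hs, sqb_neg hs']
    rcases ev_ev h2 S he he' h.2 h'.2 with h3 | h3 | h3
    · exact absurd h3 hs
    · exact absurd h3 hs'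
    · rw [sqb_pos h3]
      decide

end

theorem exists_lhom [CompleteSpace M] {κ : Type} [Field κ] [Finite κ] (h2 : (2 : κ) ≠ 0)
    {L : Loc M κ} (S : Spl L) : ∃ c, LHom S S.fM c := by
  have hinf := infinite_of_loc L
  obtain ⟨τ, hτ, hτv, hτN⟩ := exists_tauD S L.hϖ
  have hϖ0 : (L.ϖ : M) ≠ 0 := by
    intro h0
    have h1 := L.hϖ
    rw [h0, map_zero] at h1
    exact exp_ne_zero h1.symm
  have h2M : (2 : M) ≠ 0 := by
    intro h0
    have h1 := two_val L h2
    rw [h0, map_zero] at h1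
    exact zero_ne_one h1
  have hmon := S.fM_monic
  have hodd : Odd S.fM.natDegree := by
    rw [S.natDegree_fM]
    exact S.even.add_one
  have hτu : IsUnit τ := S.od_unit hτ
  have hτi : Isot S.fM τ := isot_of_isVal h2M hϖ0 hmon hodd hτv
  have hτM : NM τ := ⟨hτu, hτN⟩
  have hiso : ∀ δ, NM δ → ¬ S.Ev δ → (Isot S.fM δ ↔ sqb (eps S τ δ) = 0) := by
    intro δ hδ he
    rw [eps_neg S he]
    have hod := od_of S hδ he
    constructor
    · intro hi
      exact sqb_pos (od_od h2 S hod hτ hδ.2 hτN hi hτi)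
    · intro h0
      obtain ⟨s, hs⟩ := sqb_zero h0
      have hsu : IsUnit s := unit_of_sq (hδ.1.mul hτu) hs
      rw [← isot_mul_sq_iff hτu]
      have h3 : δ * τ ^ 2 = τ * s ^ 2 := by
        rw [← hs]
        ring
      rw [h3, isot_mul_sq_iff hsu]
      exact hτi
  refine ⟨fun δ => (sqb (eps S τ δ), evb S δ), ?_, ?_, ?_, ?_, ?_⟩
  · intro δ δ' h h'
    refine Prod.ext ?_ (evb_mul S h h')
    show sqb (eps S τ (δ * δ')) = sqb (eps S τ δ) + sqb (eps S τ δ')
    rw [eps_mul S hτu h h', sqb_mul S h2 (eps_nm S hτM h) (eps_nm S hτM h') (eps_ev S hτ h)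
      (eps_ev S hτ h')]
  · intro δ h
    constructor
    · intro h0
      have h3 : sqb (eps S τ δ) = 0 := congrArg Prod.fst h0
      have h4 : evb S δ = 0 := congrArg Prod.snd h0
      rw [eps_pos S ((evb_zero S).1 h4)] at h3
      exact sqb_zero h3
    · rintro ⟨z, rfl⟩
      have he : S.Ev (z ^ 2) := S.sq_ev (unit_of_sq h.1 rfl)
      refine Prod.ext ?_ ?_
      · show sqb (eps S τ (z ^ 2)) = 0
        rw [eps_pos S he]
        exact sqb_pos ⟨z, rfl⟩
      · exact evb_pos S he
  · intro δ h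
    exact evb_zero S
  · intro δ h h0
    exact hiso δ h fun he => h0 (evb_pos S he)
  · intro D δ hD h hval
    show sqb (eps S τ δ) = 0
    have hD0 : (D : M) ≠ 0 := by
      intro h0
      rw [h0, map_zero] at hD
      exact exp_ne_zero hD.symm
    by_cases he : S.Ev δ
    · rw [eps_pos S he]
      exact sqb_pos (val_ev_sq h2 S hD h.2 hval he)
    · exact (hiso δ h he).1 (isot_of_isVal h2M hD0 hmon hodd hval)

theorem exists_lhom_of_eq [CompleteSpace M] {κ : Type} [Field κ] [Finite κ] (h2 : (2 : κ) ≠ 0)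
    {L : Loc M κ} (S : Spl L) (g : M[X]) (hg : g = S.fM) : ∃ c, LHom S g c := by
  subst hg
  exact exists_lhom h2 S

end Pool.Agent.H74.GR
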