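import Pool.Agent.H94.GG.SEL
import Pool.Agent.H74.GR.UC

/-!
# [H74 GR UD] Even type over `K_v` implies even at `v`

`toLv f v δ = z ^ 2 * mk (u_M)` with `z` a unit and `u ∈ (OO K_v)[X]` coprime modulo `ϖ` to `f`.  Then `EvAt f v δ`.
PROOF.  `exists_bc` (`H94/GG/SEL`): `b`, `c` with `δ c ^ 2 = b`, `b, c ≠ 0`.  By `evAt_of_evB` it is enough that `EvB f v b`; by `par_even` with `j = 0` it is enough that for every prime `w` of `O` above `v` `2 ∣ multiplicity w (b) + e * 0`, and this is `par_of_val` (`H94/GG/SW`) with `j = 0` if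
`w.valuation L δ = s ^ 2`.  For this let `φ = H94.TC.phi (RatFunc F) L v w : K_v[X] → L_w` (the value at the image of the root; `H94/TC/Local.lean`, see how `H80/CC/LocVal.lean` (`local_val`) and the proof of `evB_of_val` in `H94/GG/SV` use it and set up the instances): `δ = mk Δ`, `z = mk Z`,
`overKv f v ∣ Δ_v - Z ^ 2 * u_M` (`AdjoinRoot.mk_eq_mk`), `φ (overKv f v) = 0`, `φ Δ_v` is the image of `δ` (`phi_map`), with value `w.valuation L δ` (`valued_algebraMap`).  So `w.valuation L δ = v (φ Z) ^ 2 * v (φ u_M)`.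
`v (φ u_M) = 1`: `u` and `S.f` are coprime in `(OO K_v)[X]` (`cop_lift`, `S.f` is monic): `a u + b' S.f = 1`, so `φ a_M * φ u_M = 1` (`S.f` maps to `overKv f v`), and `v (φ p_M) ≤ 1` for every `p ∈ (OO K_v)[X]`: the root is integral (`valuation_le_one` of the image of an element of `O`), the coefficients have
value `≤ 1` (`valued_compMap`: `v (compMap x) = v (x) ^ e`), `φ (C a) = compMap a`; sum of terms of value `≤ 1` (`Valuation.map_sum_le`).
-/

set_option autoImplicit false

namespace Pool.Agent.H74.GR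

open Polynomial WithZero IsDedekindDomain
open Pool.Agent.H94.GG
open Pool.Agent.H80.CC.Plane (overK overKv constKv toL toLv)

section

variable {F : Type} [Field F] {L : Type*} {f : F[X][X]} [IsDedekindDomain (AdjoinRoot f)]
  [Module.IsTorsionFree F[X] (AdjoinRoot f)]
  [Field L] [Algebra (RatFunc F) L] [Algebra F[X] L] [IsScalarTower F[X] (RatFunc F) L]
  [Algebra (AdjoinRoot f) L] [IsFractionRing (AdjoinRoot f) L]
  [IsScalarTower F[X] (AdjoinRoot f) L]
  (v : HeightOneSpectrum F[X]) (w : HeightOneSpectrum (AdjoinRoot f))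
  [w.asIdeal.LiesOver v.asIdeal]

theorem valued_phi_le_one (p : (OO (v.adicCompletion (RatFunc F)))[X]) :
    (Valued.v (H94.TC.phi (RatFunc F) L v w
      (p.map (OO (v.adicCompletion (RatFunc F))).subtype)) : ℤᵐ⁰) ≤ 1 := by
  induction p using Polynomial.induction_on' with
  | add P1 P2 h1 h2 =>
    rw [Polynomial.map_add, map_add]
    exact (Valuation.map_add _ _ _).trans (max_le h1 h2)
  | monomial m a =>
    rw [Polynomial.map_monomial, H94.TC.phi,
      coe_eval₂RingHom, eval₂_monomial, map_mul, map_pow, H94.TC.valued_compMap,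
      H94.TC.valued_algebraMap]
    exact mul_le_one' (pow_le_one' a.2 _) (pow_le_one' (w.valuation_le_one _) _)

theorem phi_overKv : H94.TC.phi (RatFunc F) L v w (overKv f v) = 0 := by
  have h : overKv f v = (f.map (algebraMap F[X] (RatFunc F))).map
    (algebraMap (RatFunc F) (v.adicCompletion (RatFunc F))) := rfl
  rw [h, H94.TC.phi_map, aeval_map_algebraMap, aeval_algebraMap_apply, AdjoinRoot.aeval_eq,
    AdjoinRoot.mk_self, map_zero, map_zero]

theorem valued_phi_unit {u a b : (OO (v.adicCompletion (RatFunc F)))[X]}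
    (h : a * u + b * f.map (embO v) = 1) :
    (Valued.v (H94.TC.phi (RatFunc F) L v w
      (u.map (OO (v.adicCompletion (RatFunc F))).subtype)) : ℤᵐ⁰) = 1 := by
  have h1 := congrArg (fun p => H94.TC.phi (RatFunc F) L v w
    (p.map (OO (v.adicCompletion (RatFunc F))).subtype)) h
  simp only [Polynomial.map_add, Polynomial.map_mul, Polynomial.map_one, map_embO, map_add,
    map_mul, map_one, phi_overKv, mul_zero, add_zero] at h1
  have h2 := congrArg (fun x => (Valued.v x : ℤᵐ⁰)) h1
  simp only [map_mul, map_one] at h2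
  have h3 := valued_phi_le_one (L := L) v w a
  have h4 := valued_phi_le_one (L := L) v w u
  refine le_antisymm h4 ?_
  rw [← h2]
  exact mul_le_of_le_one_left' h3

end

theorem evAt_of_ev {F : Type} [Field F] {f : F[X][X]} (hf : f.Monic) (hodd : Odd f.natDegree)
    [IsDedekindDomain (AdjoinRoot f)] {v : HeightOneSpectrum F[X]} {κ : Type} [Field κ]
    {L : Loc (v.adicCompletion (RatFunc F)) κ} (S : Spl L) (hS : S.f = f.map (embO v))
    {δ : AdjoinRoot (overK f)} (hδ : δ ≠ 0)
    (hN : ∃ y : RatFunc F, Algebra.norm (RatFunc F) δ = y ^ 2)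
    (h : EvG S (overKv f v) (toLv f v δ)) : EvAt f v δ := by
  classical
  obtain ⟨b, c, hb, hc, he⟩ := exists_bc hf hδ
  refine evAt_of_evB hf hb hc he ?_
  refine par_even hf hodd hb hδ hc he hN (j := 0) fun w hw => ?_
  let _ : Fact (Irreducible (overK f)) := ⟨H94.TC.irreducible_map (RatFunc F) f hf⟩
  let _ := (toL f).toAlgebra
  have : IsFractionRing (AdjoinRoot f) (AdjoinRoot (overK f)) :=
    H94.TC.isFractionRing_toField (RatFunc F) f hf
  have := H94.TC.torsionFree_adjoinRoot f hf
  have : Module.Finite F[X] (AdjoinRoot f) := hf.finite_adjoinRoot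
  have : Module.Free F[X] (AdjoinRoot f) := hf.free_adjoinRoot
  have : IsScalarTower F[X] (AdjoinRoot f) (AdjoinRoot (overK f)) := by
    refine IsScalarTower.of_algebraMap_eq fun x => ?_
    show _ = H94.TC.toField (RatFunc F) f _
    have h1 : algebraMap F[X] (AdjoinRoot f) x = AdjoinRoot.mk f (C x) := rfl
    rw [h1, H94.TC.toField_mk, Polynomial.map_C]
    rfl
  have hroot : algebraMap (AdjoinRoot f) (AdjoinRoot (overK f)) (AdjoinRoot.root f) =
      AdjoinRoot.root (overK f) := by
    show H94.TC.toField (RatFunc F) f _ = _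
    rw [H94.TC.toField, AdjoinRoot.map_root]
    rfl
  obtain ⟨z, u, hz, hu, hzu⟩ := h
  obtain ⟨Δ, hΔ⟩ := AdjoinRoot.mk_surjective δ
  obtain ⟨Z, hZ⟩ := AdjoinRoot.mk_surjective z
  have haev : aeval (algebraMap (AdjoinRoot f) (AdjoinRoot (overK f))
      (AdjoinRoot.root f)) Δ = δ := by
    rw [hroot, AdjoinRoot.aeval_eq, hΔ]
  rw [← hΔ, ← hZ] at hzu
  have h1 : toLv f v (AdjoinRoot.mk (overK f) Δ) =
      AdjoinRoot.mk (overKv f v) (Δ.map (algebraMap (RatFunc F)
        (v.adicCompletion (RatFunc F)))) := H80.CC.toAdic_mk (RatFunc F) f v Δ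
  rw [h1, ← map_pow, ← map_mul, AdjoinRoot.mk_eq_mk] at hzu
  obtain ⟨R, hR⟩ := hzu
  have h2 := congrArg (H94.TC.phi (RatFunc F) (AdjoinRoot (overK f)) v w) hR
  rw [map_sub, map_mul, map_mul, map_pow, phi_overKv, zero_mul, sub_eq_zero, H94.TC.phi_map,
    haev] at h2
  have h3 := congrArg (fun x => (Valued.v x : ℤᵐ⁰)) h2
  simp only [map_mul, map_pow, H94.TC.valued_algebraMap] at h3
  have h4 : IsCoprime (S.f) u := by
    refine cop_lift L ?_ hu.symm
    rw [hS]
    exact hf.map _
  obtain ⟨a, b', hab⟩ := h4.symm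
  rw [hS] at hab
  have h5 := valued_phi_unit (L := AdjoinRoot (overK f)) v w hab
  rw [h5, mul_one] at h3
  refine par_of_val (L := AdjoinRoot (overK f)) w hb he
    (s := (Valued.v (H94.TC.phi (RatFunc F) (AdjoinRoot (overK f)) v w Z) : ℤᵐ⁰)) ?_
  rw [pow_zero, mul_one]
  exact h3

end Pool.Agent.H74.GR
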