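import Pool.Agent.H74.GR.Spl

set_option autoImplicit false

/-!
# [H74 GR Udi] A unimodular symmetric matrix over a valuation ring is diagonalizable

`v` a valuation on the field `k` with `v 2 = 1`, `G` symmetric of size `n`, all entries of value `≤ 1`, `v (det G) = 1`.  Induction on `n`.
* `n = 0`: trivial.
* `n + 1`.  Step 1: there is a vector `u` with coordinates of value `≤ 1`, one coordinate (say `i₀`) EQUAL TO ONE, and `v (u ⬝ᵥ G *ᵥ u) = 1`.  If some `v (G i i) = 1`: `u = e_i`.  Otherwise all `v (G i i) < 1`; there are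
  `i ≠ j` with `v (G i j) = 1` (otherwise all entries have value `< 1` and `v (det G) < 1`: `det` is a sum of products, `n + 1 ≥ 1`; `Matrix.det_apply`, `Valuation.map_sum_lt`), `u = e_i + e_j`:
  `u G u = G i i + G j j + 2 G i j` has value `1` (`Valuation.map_add_eq_of_lt_left`).
  Step 2: let `β = u G u` and, for `κ = Fin 1 ⊕ {i // i ≠ i₀}`, or simply after `Fin.succAbove`: the matrix `P` of size `n + 1` with first column `u` and the other columns `w_j = e_(i₀.succAbove j) - (u G e_(i₀.succAbove j) / β) u`,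
  `j : Fin n`.  All entries have value `≤ 1`, and `det P = ± 1`: expand; or: `P = P₁ P₂`, `P₁` has the columns `u`, `e_(succAbove j)` (determinant `± 1` by expansion along row `i₀`, `Matrix.det_succ_row`, the minor is the
  identity), `P₂` unitriangular.  `Pᵀ G P = fromBlocks (β) 0 0 G'` in the sense of `Fin.cons`; `G' i j = w_i G w_j` is symmetric with entries of value `≤ 1`, `det (Pᵀ G P) = β det G'`, so `v (det G') = 1`.
  Induction for `G'`: `P'`, `d'`; the new matrix is `P * (1 ⊕ P')`, `d = Fin.cons β d'`.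
It is easier to prove it in the following form, with vectors: `∀ n, ∀ G, ... → ∃ b : Fin n → (Fin n → k), (∀ i, v (b i ⬝ᵥ G *ᵥ b i) = 1) ∧ (∀ i j, i ≠ j → b i ⬝ᵥ G *ᵥ b j = 0)`: such a family is automatically
linearly independent (`∑ c_i b_i = 0`, apply `b_j ⬝ᵥ G *ᵥ ·`).  Only this statement is needed (`unimod_diag`).
-/

namespace Pool.Agent.H74.GR

open Matrix

private theorem udi_le {k Γ : Type*} [Field k] [LinearOrderedCommGroupWithZero Γ] (v : Valuation k Γ)
    {n : ℕ} (G : Matrix (Fin n) (Fin n) k) (hi : ∀ i j, v (G i j) ≤ 1) (x y : Fin n → k)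
    (hx : ∀ l, v (x l) ≤ 1) (hy : ∀ l, v (y l) ≤ 1) : v (x ⬝ᵥ G *ᵥ y) ≤ 1 := by
  refine Valuation.map_sum_le v fun l _ => ?_
  rw [map_mul]
  refine mul_le_one' (hx l) ?_
  show v (∑ m, G l m * y m) ≤ 1
  refine Valuation.map_sum_le v fun m _ => ?_
  rw [map_mul]
  exact mul_le_one' (hi l m) (hy m)

private theorem udi_symm {k : Type*} [Field k] {n : ℕ} (G : Matrix (Fin n) (Fin n) k) (hG : G.IsSymm)
    (x y : Fin n → k) : x ⬝ᵥ G *ᵥ y = y ⬝ᵥ G *ᵥ x := by
  rw [Matrix.dotProduct_mulVec, ← Matrix.mulVec_transpose, hG.eq, dotProduct_comm]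

private theorem udi_vec {k Γ : Type*} [Field k] [LinearOrderedCommGroupWithZero Γ] (v : Valuation k Γ)
    (h2 : v 2 = 1) (n : ℕ) (G : Matrix (Fin (n + 1)) (Fin (n + 1)) k) (hG : G.IsSymm)
    (hi : ∀ i j, v (G i j) ≤ 1) (hd : v G.det = 1) :
    ∃ (u : Fin (n + 1) → k) (i₀ : Fin (n + 1)), (∀ l, v (u l) ≤ 1) ∧ u i₀ = 1 ∧
      v (u ⬝ᵥ G *ᵥ u) = 1 := by
  by_cases h : ∃ i, v (G i i) = 1
  · obtain ⟨i, h⟩ := h
    refine ⟨Pi.single i 1, i, fun l => ?_, by simp, ?_⟩
    · by_cases hl : l = i
      · subst hl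
        simp
      · simp [Pi.single_eq_of_ne hl]
    · rw [Matrix.mulVec_single_one, single_one_dotProduct]
      exact h
  · push Not at h
    have hlt : ∀ i, v (G i i) < 1 := fun i => lt_of_le_of_ne (hi i i) (h i)
    have hex : ∃ i j, v (G i j) = 1 := by
      by_contra hc
      push Not at hc
      have hlt2 : ∀ i j, v (G i j) < 1 := fun i j => lt_of_le_of_ne (hi i j) (hc i j)
      have h3 : v G.det < 1 := by
        rw [Matrix.det_apply]
        refine Valuation.map_sum_lt v one_ne_zero fun σ _ => ?_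
        have h4 : v ((Equiv.Perm.sign σ) • ∏ i, G (σ i) i) = v (∏ i, G (σ i) i) := by
          rcases Int.units_eq_one_or (Equiv.Perm.sign σ) with h5 | h5
          · rw [h5, one_smul]
          · rw [h5, Units.neg_smul, one_smul, Valuation.map_neg]
        rw [h4, map_prod, Fin.prod_univ_succ]
        refine mul_lt_one_of_lt_of_le (hlt2 _ _) ?_
        exact Finset.prod_le_one' fun i _ => hi _ _
      exact (ne_of_lt h3) hd
    obtain ⟨i, j, hij⟩ := hex
    have hne : i ≠ j := by
      rintro rfl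
      exact h i hij
    refine ⟨Pi.single i 1 + Pi.single j 1, i, fun l => ?_, ?_, ?_⟩
    · rw [Pi.add_apply]
      by_cases hl : l = i
      · subst hl
        rw [Pi.single_eq_same, Pi.single_eq_of_ne hne, add_zero, map_one]
      · rw [Pi.single_eq_of_ne hl, zero_add]
        by_cases hl2 : l = j
        · subst hl2
          rw [Pi.single_eq_same, map_one]
        · rw [Pi.single_eq_of_ne hl2, map_zero]
          exact zero_le_one
    · rw [Pi.add_apply, Pi.single_eq_same, Pi.single_eq_of_ne hne, add_zero]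
    · have hs : G j i = G i j := hG.apply i j
      rw [Matrix.mulVec_add, dotProduct_add, add_dotProduct, add_dotProduct, Matrix.mulVec_single_one,
        Matrix.mulVec_single_one, single_one_dotProduct, single_one_dotProduct, single_one_dotProduct,
        single_one_dotProduct]
      show v (G i i + G j i + (G i j + G j j)) = 1
      rw [hs, show G i i + G i j + (G i j + G j j) = (G i i + G j j) + 2 * G i j by ring]
      have h6 : v (2 * G i j) = 1 := by rw [map_mul, h2, hij, one_mul]
      have h7 : v (G i i + G j j) < v (2 * G i j) := by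
        rw [h6]
        exact lt_of_le_of_lt (Valuation.map_add v _ _) (max_lt (hlt i) (hlt j))
      rw [Valuation.map_add_eq_of_lt_right v h7, h6]

theorem unimod_diag {k Γ : Type*} [Field k] [LinearOrderedCommGroupWithZero Γ] (v : Valuation k Γ)
    (h2 : v 2 = 1) (n : ℕ) (G : Matrix (Fin n) (Fin n) k) (hG : G.IsSymm)
    (hi : ∀ i j, v (G i j) ≤ 1) (hd : v G.det = 1) :
    ∃ b : Fin n → (Fin n → k), (∀ i, v (b i ⬝ᵥ G *ᵥ b i) = 1) ∧
      ∀ i j, i ≠ j → b i ⬝ᵥ G *ᵥ b j = 0 := by
  induction n with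
  | zero => exact ⟨fun i => i.elim0, fun i => i.elim0, fun i => i.elim0⟩
  | succ n ih =>
    obtain ⟨u, i₀, hu, hu1, hβ⟩ := udi_vec v h2 n G hG hi hd
    obtain ⟨β, hβd⟩ : ∃ β, β = u ⬝ᵥ G *ᵥ u := ⟨_, rfl⟩
    rw [← hβd] at hβ
    have hβ0 : β ≠ 0 := by
      intro h
      rw [h, map_zero] at hβ
      exact zero_ne_one hβ
    let c : Fin n → k := fun j => (u ⬝ᵥ G *ᵥ Pi.single (i₀.succAbove j) 1) / β
    let w : Fin n → (Fin (n + 1) → k) := fun j => Pi.single (i₀.succAbove j) 1 - c j • u
    have hsing : ∀ (i l : Fin (n + 1)), v ((Pi.single i 1 : Fin (n + 1) → k) l) ≤ 1 := by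
      intro i l
      by_cases hl : l = i
      · subst hl
        rw [Pi.single_eq_same, map_one]
      · rw [Pi.single_eq_of_ne hl, map_zero]
        exact zero_le_one
    have hc : ∀ j, v (c j) ≤ 1 := by
      intro j
      show v ((u ⬝ᵥ G *ᵥ Pi.single (i₀.succAbove j) 1) / β) ≤ 1
      rw [map_div₀, hβ, div_one]
      exact udi_le v G hi _ _ hu (hsing _)
    have hw : ∀ j l, v (w j l) ≤ 1 := by
      intro j l
      show v ((Pi.single (i₀.succAbove j) 1 : Fin (n + 1) → k) l - c j * u l) ≤ 1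
      refine (Valuation.map_sub v _ _).trans (max_le (hsing _ _) ?_)
      rw [map_mul]
      exact mul_le_one' (hc j) (hu l)
    have huw : ∀ j, u ⬝ᵥ G *ᵥ w j = 0 := by
      intro j
      show u ⬝ᵥ G *ᵥ (Pi.single (i₀.succAbove j) 1 - c j • u) = 0
      rw [Matrix.mulVec_sub, Matrix.mulVec_smul, dotProduct_sub, dotProduct_smul, ← hβd]
      show (u ⬝ᵥ G *ᵥ Pi.single (i₀.succAbove j) 1) -
        ((u ⬝ᵥ G *ᵥ Pi.single (i₀.succAbove j) 1) / β) * β = 0
      rw [div_mul_cancel₀ _ hβ0, sub_self]
    let G' : Matrix (Fin n) (Fin n) k := Matrix.of fun i j => w i ⬝ᵥ G *ᵥ w j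
    have hG'a : ∀ i j, G' i j = w i ⬝ᵥ G *ᵥ w j := fun i j => rfl
    have hG' : G'.IsSymm := by
      refine Matrix.IsSymm.ext fun i j => ?_
      rw [hG'a, hG'a]
      exact udi_symm G hG _ _
    let P : Matrix (Fin (n + 1)) (Fin (n + 1)) k := Matrix.of (Fin.cons u w)
    have hP0 : P 0 = u := rfl
    have hPs : ∀ j : Fin n, P j.succ = w j := fun j => rfl
    have hM : ∀ i j, (P * G * Pᵀ) i j = P i ⬝ᵥ G *ᵥ P j := by
      intro i j
      rw [Matrix.mul_assoc, Matrix.mul_apply]
      rfl
    have hdetM : (P * G * Pᵀ).det = β * G'.det := by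
      rw [Matrix.det_succ_row_zero, Fin.sum_univ_succ]
      rw [Finset.sum_eq_zero (fun j _ => by
        rw [hM, hP0, hPs, huw, mul_zero, zero_mul])]
      rw [hM, hP0, ← hβd, add_zero, Fin.val_zero, pow_zero, one_mul]
      congr 2
      ext i j
      rw [Matrix.submatrix_apply, Fin.succAbove_zero, hM, hPs, hPs]
      rfl
    have hdetP : P.det = (-1) ^ (i₀ : ℕ) := by
      let P₁ : Matrix (Fin (n + 1)) (Fin (n + 1)) k :=
        Matrix.of (Fin.cons u fun j => Pi.single (i₀.succAbove j) 1)
      have h1 : P.det = P₁.det := by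
        refine Matrix.det_eq_of_forall_row_eq_smul_add_const
          (Fin.cons 0 (fun j => -c j) : Fin (n + 1) → k) 0 rfl ?_
        intro i j
        refine Fin.cases ?_ (fun i => ?_) i
        · show u j = u j + 0 * u j
          ring
        · show (Pi.single (i₀.succAbove i) 1 : Fin (n + 1) → k) j - c i * u j =
            (Pi.single (i₀.succAbove i) 1 : Fin (n + 1) → k) j + -c i * u j
          ring
      rw [h1, Matrix.det_succ_column P₁ i₀, Fin.sum_univ_succ]
      rw [Finset.sum_eq_zero (fun j _ => by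
        have h2 : P₁ j.succ i₀ = 0 := by
          show (Pi.single (i₀.succAbove j) 1 : Fin (n + 1) → k) i₀ = 0
          exact Pi.single_eq_of_ne (Fin.succAbove_ne i₀ j).symm _
        rw [h2, mul_zero, zero_mul])]
      have h3 : P₁ 0 i₀ = 1 := hu1
      have h4 : P₁.submatrix (Fin.succAbove 0) i₀.succAbove = 1 := by
        ext i j
        rw [Matrix.submatrix_apply, Fin.succAbove_zero]
        show (Pi.single (i₀.succAbove i) 1 : Fin (n + 1) → k) (i₀.succAbove j) = _
        by_cases hij : i = j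
        · subst hij
          rw [Pi.single_eq_same, Matrix.one_apply_eq]
        · rw [Matrix.one_apply_ne hij]
          exact Pi.single_eq_of_ne (fun h => hij (Fin.succAbove_right_injective h).symm) _
      rw [h3, h4, Matrix.det_one, mul_one, mul_one, add_zero, Fin.val_zero, zero_add]
    have hd' : v G'.det = 1 := by
      have h1 : v ((P * G * Pᵀ).det) = 1 := by
        rw [Matrix.det_mul, Matrix.det_mul, Matrix.det_transpose, map_mul, map_mul, hd, hdetP, map_pow,
          Valuation.map_neg, map_one, one_pow, one_mul, one_mul]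
      rw [hdetM, map_mul, hβ, one_mul] at h1
      exact h1
    obtain ⟨b', hb1, hb2⟩ := ih G' hG' (fun i j => udi_le v G hi _ _ (hw i) (hw j)) hd'
    let B : Fin n → (Fin (n + 1) → k) := fun j => ∑ l, b' j l • w l
    have hBB : ∀ i j, B i ⬝ᵥ G *ᵥ B j = b' i ⬝ᵥ G' *ᵥ b' j := by
      intro i j
      show (∑ l, b' i l • w l) ⬝ᵥ G *ᵥ (∑ m, b' j m • w m) = ∑ l, b' i l * ∑ m, G' l m * b' j m
      rw [sum_dotProduct]
      refine Finset.sum_congr rfl fun l _ => ?_
      rw [smul_dotProduct, Matrix.mulVec_sum, dotProduct_sum, smul_eq_mul]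
      congr 1
      refine Finset.sum_congr rfl fun m _ => ?_
      rw [Matrix.mulVec_smul, dotProduct_smul, smul_eq_mul, mul_comm]
      rfl
    have hBu : ∀ j, u ⬝ᵥ G *ᵥ B j = 0 := by
      intro j
      show u ⬝ᵥ G *ᵥ (∑ m, b' j m • w m) = 0
      rw [Matrix.mulVec_sum, dotProduct_sum]
      refine Finset.sum_eq_zero fun m _ => ?_
      rw [Matrix.mulVec_smul, dotProduct_smul, huw, smul_zero]
    refine ⟨Fin.cons u B, fun i => ?_, fun i j hij => ?_⟩
    · refine Fin.cases ?_ (fun i => ?_) i
      · show v (u ⬝ᵥ G *ᵥ u) = 1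
        rw [← hβd]
        exact hβ
      · show v (B i ⬝ᵥ G *ᵥ B i) = 1
        rw [hBB]
        exact hb1 i
    · revert hij
      refine Fin.cases ?_ (fun i => ?_) i
      · refine Fin.cases ?_ (fun j => ?_) j
        · intro h
          exact absurd rfl h
        · intro _
          show u ⬝ᵥ G *ᵥ B j = 0
          exact hBu j
      · refine Fin.cases ?_ (fun j => ?_) j
        · intro _
          show B i ⬝ᵥ G *ᵥ u = 0
          rw [udi_symm G hG]
          exact hBu i
        · intro h
          show B i ⬝ᵥ G *ᵥ B j = 0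
          rw [hBB]
          exact hb2 i j fun h' => h (by rw [h'])

end Pool.Agent.H74.GR
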