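import Pool.Agent.H74.GR.Loc
import Pool.Agent.H74.GR.Pla
import Pool.Agent.H74.GR.Evu
import Pool.Agent.H74.GR.Uni

set_option autoImplicit false

/-!
# [H74 GR Unf] Even at `w` implies an isotropic subspace over `K_w`

`evat_unit` gives `z, a, a', s`.  Let `a = mk u₀`, `a' = mk u₀'` with `u₀, u₀' ∈ F[X][X]` (`AdjoinRoot.mk_surjective`), `u, u'` their images over `K_w` (coefficients in the image of `F[X]`, of value `≤ 1`: see the lemma `val_alg` or
`HeightOneSpectrum.valuedAdicCompletion_eq_valuation`, `valuation_le_one`), `c` the image of `s` (value `1`, as `s ∉ w`: `intValuation_eq_one_iff`), `E = 0`.  `f ∣ u₀ u₀' - C s` (`AdjoinRoot.mk_eq_mk`), map to `K_w`.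
`loc_unim` for `v` = the valuation `Valued.v` of `K_w`, `g = overKv f w`: the Gram matrix of `toLv f w (β z ^ 2) = mk u` is integral with a determinant of value one, and it is symmetric (`gram_symm`).  `uni` for the place
`some P`, `w = LT.place P hi` (`exists_pl`; `Kw`, `vw` are by definition the completion and its valuation) gives `IsoM`, `isot_iff` gives `Isot (overKv f w) (toLv f w (β z ^ 2))`, and `isot_sq` with the unit `toLv f w z`
(`z ≠ 0` in the field `L`, so it is a unit, and the image of a unit is a unit).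
-/

namespace Pool.Agent.H74.GR

open Polynomial Matrix IsDedekindDomain
open Pool.Agent.H94.GG (tau Isot EvAt)
open Pool.Agent.H80.CC.Plane (overK overKv constKv toL toLv)
open Pool.Agent.H74.FS

private theorem two_dvd_q {F : Type} [Field F] [Finite F] (h2 : (2 : F) ≠ 0) :
    2 ∣ Nat.card F - 1 := by
  have : Fintype F := Fintype.ofFinite F
  have h := FiniteField.odd_card_of_char_ne_two (F := F) (fun h => by
    have := ringChar.of_eq h
    exact h2 (by exact_mod_cast CharP.cast_eq_zero F 2))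
  rw [Nat.card_eq_fintype_card]
  obtain ⟨j, hj⟩ := Nat.odd_iff.2 h
  exact ⟨j, by omega⟩

private theorem toL_mk' {F : Type} [Field F] (f p : F[X][X]) :
    toL f (AdjoinRoot.mk f p) = AdjoinRoot.mk (overK f) (p.map (algebraMap F[X] (RatFunc F))) :=
  Pool.Agent.H94.TC.toField_mk (RatFunc F) f p

private theorem map_mk' {k k' : Type} [Field k] [Field k'] (φ : k →+* k') (g p : k[X]) :
    AdjoinRoot.map φ g (g.map φ) dvd_rfl (AdjoinRoot.mk g p) =
      AdjoinRoot.mk (g.map φ) (p.map φ) := by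
  induction p using Polynomial.induction_on' with
  | add p q hp hq => rw [map_add, map_add, hp, hq, Polynomial.map_add, map_add]
  | monomial n a =>
    rw [Polynomial.map_monomial, ← C_mul_X_pow_eq_monomial, ← C_mul_X_pow_eq_monomial]
    simp only [map_mul, map_pow, AdjoinRoot.mk_C, AdjoinRoot.mk_X]
    rw [AdjoinRoot.map_of, AdjoinRoot.map_root]

private theorem toLw_mk' {F : Type} [Field F] [DecidableEq (RatFunc F)] (f : F[X][X]) (w : Pl F)
    (p : (RatFunc F)[X]) :
    toLw f w (AdjoinRoot.mk (overK f) p) = AdjoinRoot.mk (fw f w) (p.map (iw w)) :=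
  map_mk' (iw w) (overK f) p

theorem uni_fin {F : Type} [Field F] [Finite F] (h2 : (2 : F) ≠ 0) (f : F[X][X]) (hf : f.Monic)
    {g : ℕ} (hm : f.natDegree = 2 * g + 1) (hirr : Irreducible (overK f))
    [IsDedekindDomain (AdjoinRoot f)] (w : HeightOneSpectrum F[X]) (β : AdjoinRoot (overK f))
    (hβ : β ≠ 0) (h : EvAt f w β) : Isot (overKv f w) (toLv f w β) := by
  classical
  have hq := two_dvd_q h2
  obtain ⟨z, a, a', s, hz, hs, hza, haa⟩ := evat_unit f hf hirr w β hβ h
  obtain ⟨P, hP, hi, rfl⟩ := exists_pl w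
  obtain ⟨u₀, rfl⟩ := AdjoinRoot.mk_surjective a
  obtain ⟨u₁, rfl⟩ := AdjoinRoot.mk_surjective a'
  rw [← isot_some f hP hi β]
  obtain ⟨w, hw⟩ : ∃ w : Pl F, w = some ⟨P, hP, hi⟩ := ⟨_, rfl⟩
  obtain ⟨φ, hφ⟩ : ∃ φ : F[X] →+* Kw F w, φ = (iw w).comp (algebraMap F[X] (RatFunc F)) := ⟨_, rfl⟩
  have hφ1 : ∀ p, vw w (φ p) ≤ 1 := by
    intro p
    rw [hφ]
    subst hw
    exact Pool.Agent.H94.PL.wP_le_one P hi p
  have hφ2 : vw w (φ s) = 1 := by
    rw [hφ]
    subst hw
    refine Pool.Agent.H94.PL.wP_eq_one hi ?_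
    intro hd
    exact hs (Ideal.mem_span_singleton.2 hd)
  rw [← hw]
  have hgm : (fw f w).Monic := (hf.map _).map _
  have hgd : (fw f w).natDegree = 2 * g + 1 := by
    have h1 : (overK f).Monic := hf.map _
    rw [fw, h1.natDegree_map, overK, hf.natDegree_map, hm]
  have hfw : fw f w = f.map φ := by rw [fw, overK, Polynomial.map_map, hφ]
  have hdiv : fw f w ∣ u₀.map φ * u₁.map φ - (C (φ s) + 0) := by
    have h1 : AdjoinRoot.mk f (u₀ * u₁) = AdjoinRoot.mk f (C s) := by
      rw [map_mul, haa]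
      rfl
    have h3 := (AdjoinRoot.mk_eq_mk.1 h1)
    have h4 := Polynomial.map_dvd φ h3
    rw [Polynomial.map_sub, Polynomial.map_mul, Polynomial.map_C] at h4
    rw [hfw, add_zero]
    exact h4
  obtain ⟨h5, h6⟩ := loc_unim (vw w) hgm hgd (fun i => by rw [hfw, coeff_map]; exact hφ1 _)
    (u₀.map φ) (u₁.map φ) 0 (φ s) (fun i => by rw [coeff_map]; exact hφ1 _)
    (fun i => by rw [coeff_map]; exact hφ1 _) (fun i => by rw [coeff_zero, map_zero]; exact zero_lt_one)
    hφ2 hdiv
  have h7 := (isot_iff hgm hgd (AdjoinRoot.mk (fw f w) (u₀.map φ))).2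
    (uni hq w g _ (gram_symm hgm g _) h5 h6)
  have h9 : toLw f w (β * z ^ 2) = AdjoinRoot.mk (fw f w) (u₀.map φ) := by
    rw [hza, toL_mk', toLw_mk', Polynomial.map_map, hφ]
  rw [← h9, map_mul, map_pow] at h7
  have hzu : IsUnit z := by
    let _ : Fact (Irreducible (overK f)) := ⟨hirr⟩
    exact isUnit_iff_ne_zero.2 hz
  exact (isot_sq hgm _ _ (hzu.map (toLw f w))).1 h7

end Pool.Agent.H74.GR
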