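import Pool.Agent.H94.GG.Defs

set_option autoImplicit false

/-!
# [H74 GR VA] THEOREM G1: twist by `D` = scaling of the root by `D`

`k` a field, `g` monic of odd degree `m`, `s ≠ 0`, `g' = g.scaleRoots s` (`g'(s x) = s ^ m g(x)`, coefficients `g.coeff i * s ^ (m - i)`).
* `scale_dvd`: `g ∣ p` iff `g' ∣ p.comp (C s⁻¹ * X)`: substitution is an automorphism of `k[X]`, and `g' = C (s ^ m) * g.comp (C s⁻¹ * X)` (compare the coefficients: `(g.comp (C s⁻¹ * X)).coeff i = g.coeff i * s⁻¹ ^ i`: `Polynomial.comp_C_mul_X_coeff`), `C (s ^ m)` a unit.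
* `isVal_scale`: let `P', Q'` be a Mumford pair of `y ^ 2 = g'`: `P'` monic of degree `n`, coprime to `g'`, `P' ∣ C 1 * Q' ^ 2 - g'`.  Put `P = C (s ^ n)⁻¹ * P'.comp (C s * X)` (monic of degree `n`), `Q = C (s ^ ((m + 1) / 2))⁻¹ * Q'.comp (C s * X)`.  `g'.comp (C s * X) = C (s ^ m) * g`.
  Substitution `X ↦ s X` in `P' ∣ Q' ^ 2 - g'`: `P ∣ C (s ^ (m + 1)) Q ^ 2 - C (s ^ m) g = C (s ^ m) (C s * Q ^ 2 - g)`, so `P ∣ C s * Q ^ 2 - g`; `IsCoprime P g` (substitution is a ring automorphism, units).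
  Values: `δ' γ' ^ 2 = ∏ desc 1 g' (P'_i)`, `δ' = mk g' (p.comp (C s⁻¹ * X))`, `γ' = mk g' G'`, `desc 1 g' P' = mk g' (C (-1) ^ n * P')`: so `g' ∣ (p.comp (C s⁻¹ X)) * G' ^ 2 - ∏ C (-1) ^ n_i * P'_i`; by `scale_dvd` (the polynomial on the right is the composition of
  `p * (G'.comp (C s * X)) ^ 2 - ∏ C (-1) ^ n_i * P'_i.comp (C s * X)` with `C s⁻¹ * X`) `g ∣ p * G ^ 2 - ∏ C (-1) ^ n_i * C (s ^ n_i) * P_i = p * G ^ 2 - ∏ C (-s) ^ n_i * P_i`.
* `sq_scale`: `mk g p = z ^ 2` implies `mk g' (p.comp (C s⁻¹ * X))` is a square: `z = mk q`, `scale_dvd` for `p - q ^ 2`.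
* `exists_comp`: every element of `AdjoinRoot g'` is `mk g' (p.comp (C s⁻¹ * X))`: `δ' = mk p'`, `p = p'.comp (C s * X)`.
-/

namespace Pool.Agent.H74.GR

open Polynomial
open Pool.Agent.H94.GG (IsVal IsMum desc)

variable {k : Type} [Field k] {g : k[X]}

private lemma comp_one' {s t : k} (h : s * t = 1) (p : k[X]) :
    (p.comp (C s * X)).comp (C t * X) = p := by
  rw [comp_assoc]
  have e : (C s * X : k[X]).comp (C t * X) = X := by
    rw [mul_comp, C_comp, X_comp, ← mul_assoc, ← C_mul, h, C_1, one_mul]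
  rw [e, comp_X]

private lemma scale_eq (g : k[X]) {s : k} (hs : s ≠ 0) :
    g.scaleRoots s = C (s ^ g.natDegree) * g.comp (C s⁻¹ * X) := by
  ext i
  rw [coeff_scaleRoots, coeff_C_mul, comp_C_mul_X_coeff]
  by_cases hi : i ≤ g.natDegree
  · have h1 : s ^ g.natDegree = s ^ (g.natDegree - i) * s ^ i := by rw [← pow_add, Nat.sub_add_cancel hi]
    have h2 : s ^ i ≠ 0 := pow_ne_zero _ hs
    rw [h1, inv_pow]
    field_simp
  · rw [coeff_eq_zero_of_natDegree_lt (by omega), zero_mul, zero_mul, mul_zero]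

private lemma scale_comp (g : k[X]) {s : k} (hs : s ≠ 0) :
    (g.scaleRoots s).comp (C s * X) = C (s ^ g.natDegree) * g := by
  rw [scale_eq g hs, mul_comp, C_comp, comp_one' (inv_mul_cancel₀ hs)]

private lemma unit_C {a : k} (ha : a ≠ 0) : IsUnit (C a : k[X]) := isUnit_C.2 (isUnit_iff_ne_zero.2 ha)

theorem scale_dvd (hg : g.Monic) {s : k} (hs : s ≠ 0) (p : k[X]) :
    g.scaleRoots s ∣ p.comp (C s⁻¹ * X) ↔ g ∣ p := by
  have hu : IsUnit (C (s ^ g.natDegree) : k[X]) := unit_C (pow_ne_zero _ hs)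
  rw [scale_eq g hs, hu.mul_left_dvd]
  constructor
  · rintro ⟨q, hq⟩
    have h1 := congrArg (fun r : k[X] => r.comp (C s * X)) hq
    simp only [mul_comp] at h1
    rw [comp_one' (inv_mul_cancel₀ hs), comp_one' (inv_mul_cancel₀ hs)] at h1
    exact ⟨_, h1⟩
  · rintro ⟨q, hq⟩
    exact ⟨q.comp (C s⁻¹ * X), by rw [hq, mul_comp]⟩

theorem isVal_scale (hg : g.Monic) (hodd : Odd g.natDegree) {s : k} (hs : s ≠ 0) (p : k[X])
    (h : IsVal 1 (g.scaleRoots s) (AdjoinRoot.mk (g.scaleRoots s) (p.comp (C s⁻¹ * X)))) :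
    IsVal s g (AdjoinRoot.mk g p) := by
  obtain ⟨r, P', Q', γ', hM, hγ⟩ := h
  obtain ⟨G', rfl⟩ := AdjoinRoot.mk_surjective γ'
  set m := g.natDegree with hm
  obtain ⟨l, hl⟩ := hodd
  have hsn : ∀ n : ℕ, s ^ n ≠ 0 := fun n => pow_ne_zero n hs
  have hdeg : ∀ i, ((P' i).comp (C s * X)).natDegree ≤ (P' i).natDegree := by
    intro i
    refine natDegree_le_iff_coeff_eq_zero.2 fun N hN => ?_
    rw [comp_C_mul_X_coeff, coeff_eq_zero_of_natDegree_lt hN, zero_mul]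
  have hmon : ∀ i, (C ((s ^ (P' i).natDegree)⁻¹) * (P' i).comp (C s * X)).Monic := by
    intro i
    refine monic_of_natDegree_le_of_coeff_eq_one (P' i).natDegree ((natDegree_C_mul_le _ _).trans (hdeg i)) ?_
    rw [coeff_C_mul, comp_C_mul_X_coeff, (hM i).1.coeff_natDegree, one_mul, inv_mul_cancel₀ (hsn _)]
  have hnd : ∀ i, (C ((s ^ (P' i).natDegree)⁻¹) * (P' i).comp (C s * X)).natDegree = (P' i).natDegree := by
    intro i
    refine le_antisymm ((natDegree_C_mul_le _ _).trans (hdeg i)) (le_natDegree_of_ne_zero ?_)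
    rw [coeff_C_mul, comp_C_mul_X_coeff, (hM i).1.coeff_natDegree, one_mul, inv_mul_cancel₀ (hsn _)]
    exact one_ne_zero
  refine ⟨r, fun i => C ((s ^ (P' i).natDegree)⁻¹) * (P' i).comp (C s * X),
    fun i => C ((s ^ (l + 1))⁻¹) * (Q' i).comp (C s * X), AdjoinRoot.mk g (G'.comp (C s * X)), fun i => ⟨hmon i, ?_, ?_⟩, ?_⟩
  · rw [isCoprime_mul_unit_left_left (unit_C (inv_ne_zero (hsn _)))]
    have h1 := (hM i).2.1.map (compRingHom (C s * X))
    rw [coe_compRingHom_apply, coe_compRingHom_apply, scale_comp g hs] at h1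
    exact h1.of_mul_right_right
  · rw [(unit_C (inv_ne_zero (hsn _))).mul_left_dvd]
    have h1 := map_dvd (compRingHom (C s * X)) (hM i).2.2
    rw [coe_compRingHom_apply, coe_compRingHom_apply, sub_comp, mul_comp, pow_comp, C_comp, scale_comp g hs, ← hm,
      C_1, one_mul] at h1
    have h2 : (Q' i).comp (C s * X) ^ 2 - C (s ^ m) * g =
        C (s ^ m) * (C s * (C ((s ^ (l + 1))⁻¹) * (Q' i).comp (C s * X)) ^ 2 - g) := by
      have h3 : C (s ^ m) * (C s * (C ((s ^ (l + 1))⁻¹)) ^ 2) = (1 : k[X]) := by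
        rw [← C_pow, ← C_mul, ← C_mul, ← C_1]
        congr 1
        rw [inv_pow, ← pow_mul, ← mul_assoc, ← pow_succ, hl]
        have h4 : 2 * l + 1 + 1 = (l + 1) * 2 := by ring
        rw [h4]
        exact mul_inv_cancel₀ (hsn _)
      linear_combination (-(Q' i).comp (C s * X) ^ 2) * h3
    rw [h2] at h1
    exact (unit_C (hsn m)).dvd_mul_left.1 h1
  · have h1 : ∀ i, desc s g (C ((s ^ (P' i).natDegree)⁻¹) * (P' i).comp (C s * X)) =
        AdjoinRoot.mk g ((C (-1) ^ (P' i).natDegree * P' i).comp (C s * X)) := by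
      intro i
      rw [desc, hnd, ← map_pow, ← map_mul, mul_comp, pow_comp, C_comp]
      congr 1
      rw [← mul_assoc, ← C_pow, ← C_mul, ← C_pow]
      congr 2
      have h2 : -s = -1 * s := by ring
      rw [h2, mul_pow, mul_assoc, mul_inv_cancel₀ (hsn _), mul_one]
    have h3 : ∏ i, desc s g (C ((s ^ (P' i).natDegree)⁻¹) * (P' i).comp (C s * X)) =
        AdjoinRoot.mk g ((∏ i, C (-1) ^ (P' i).natDegree * P' i).comp (C s * X)) := by
      rw [Finset.prod_congr rfl fun i _ => h1 i, ← map_prod]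
      congr 1
      rw [← coe_compRingHom_apply, map_prod]
      rfl
    show _ = ∏ i, desc s g (C ((s ^ (P' i).natDegree)⁻¹) * (P' i).comp (C s * X))
    rw [h3, ← map_pow, ← map_mul, AdjoinRoot.mk_eq_mk, ← scale_dvd hg hs, sub_comp, mul_comp, pow_comp,
      comp_one' (mul_inv_cancel₀ hs), comp_one' (mul_inv_cancel₀ hs), ← AdjoinRoot.mk_eq_mk, map_mul, map_pow, hγ,
      map_prod]
    refine Finset.prod_congr rfl fun i _ => ?_
    rw [desc, map_mul, map_pow]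

theorem sq_scale (hg : g.Monic) {s : k} (hs : s ≠ 0) (p : k[X])
    (h : ∃ z : AdjoinRoot g, AdjoinRoot.mk g p = z ^ 2) :
    ∃ z : AdjoinRoot (g.scaleRoots s), AdjoinRoot.mk (g.scaleRoots s) (p.comp (C s⁻¹ * X)) = z ^ 2 := by
  obtain ⟨z, hz⟩ := h
  obtain ⟨q, rfl⟩ := AdjoinRoot.mk_surjective z
  rw [← map_pow, AdjoinRoot.mk_eq_mk, ← scale_dvd hg hs, sub_comp, pow_comp] at hz
  exact ⟨AdjoinRoot.mk _ (q.comp (C s⁻¹ * X)), by rw [← map_pow, AdjoinRoot.mk_eq_mk]; exact hz⟩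

theorem exists_comp {s : k} (hs : s ≠ 0) (δ : AdjoinRoot (g.scaleRoots s)) :
    ∃ p : k[X], δ = AdjoinRoot.mk (g.scaleRoots s) (p.comp (C s⁻¹ * X)) := by
  obtain ⟨p, rfl⟩ := AdjoinRoot.mk_surjective δ
  exact ⟨p.comp (C s * X), by rw [comp_one' (mul_inv_cancel₀ hs)]⟩

end Pool.Agent.H74.GR
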