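import Pool.Agent.H74.GR.VA
import Pool.Agent.H74.GR.Sca

set_option autoImplicit false

/-!
# [H74 GR VB] THEOREM G1: the Selmer group of `y ^ 2 = D ^ m f(x / D)`

`f ∈ F[t][x]` monic of odd degree `m`, `D ≠ 0`, `f' = f.scaleRoots D`.
* `overK f' = (overK f).scaleRoots (algebraMap D)` and `overKv f' v = (overKv f v).scaleRoots (constKv D v)` (`Polynomial.map_scaleRoots` twice, or compare the coefficients; all leading coefficients are one).
* `selTriv_scale`: `Irreducible f`: so is `f'` : both are irreducible over `K` (`Monic.irreducible_iff_irreducible_map_fraction_map` or Gauss' lemma `H94.TC.irreducible_map`), and `scaleRoots` over a field with `s ≠ 0` preserves irreducibility (`scaleRoots` is multiplicative up to ..., or `scale_dvd`: if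
  `g' = a b` then `g = (unit) a.comp (C s * X) * b.comp (C s * X)`).
  Let `δ'` be in the Selmer group of `(1, f')`: `δ' = mk (p.comp (C D⁻¹ * X))` over `K` (`exists_comp`), `δ = mk (overK f) p`: `δ ≠ 0` (`scale_dvd`), its norm is that of `δ'` (`norm_scale`), and for each `v` the image of `δ'` in `AdjoinRoot (overKv f' v)` is `mk (p_v.comp (C D⁻¹ * X))`, `p_v` the image of `p`,
  so `isVal_scale` gives `IsVal (constKv D v) (overKv f v) (toLv f v δ)` (`constKv 1 v = 1`; `toLv f v (mk p) = mk p_v`: `H80.CC.toAdic_mk` or `AdjoinRoot.map` on `mk`).  So `IsSel D f δ`, `δ` is a square by hypothesis, and `δ'` is a square by `sq_scale`.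
  (The types `AdjoinRoot (overKv f' v)` and `AdjoinRoot ((overKv f v).scaleRoots _)` are different: state the steps for an arbitrary polynomial `G` with `G = (overK f).scaleRoots D`, `subst`.)
* `fam_scale`: `Fam m h f` implies `Fam m (h + natDegree D) f'` (`coeff_scaleRoots`, `natDegree_mul_le`, `natDegree_pow_le`, `monic_scaleRoots_iff`, `natDegree_scaleRoots`).
* `scale_inj`: `f₁.scaleRoots D = f₂.scaleRoots D`, `D ≠ 0`, same degree: equal coefficients after cancelling `D ^ (m - i)`.
-/

namespace Pool.Agent.H74.GR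

open Polynomial IsDedekindDomain
open Pool.Agent.H94.GG (IsVal IsMum desc IsSel SelTriv Fam)
open Pool.Agent.H80.CC.Plane (overK overKv constKv toL toLv)

variable {F : Type} [Field F]

private lemma irr_scale {k : Type} [Field k] {g : k[X]} (hg : g.Monic) {s : k} (hs : s ≠ 0)
    (hirr : Irreducible g) : Irreducible (g.scaleRoots s) := by
  have hp := hirr.prime
  have hc : ∀ a : k[X], (a.comp (C s * X)).comp (C s⁻¹ * X) = a := by
    intro a
    rw [comp_assoc]
    have e : (C s * X : k[X]).comp (C s⁻¹ * X) = X := by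
      rw [mul_comp, C_comp, X_comp, ← mul_assoc, ← C_mul, mul_inv_cancel₀ hs, C_1, one_mul]
    rw [e, comp_X]
  have h1 : Prime (g.scaleRoots s) := by
    refine ⟨((monic_scaleRoots_iff s).2 hg).ne_zero, fun hu => ?_, fun a b hab => ?_⟩
    · have h2 : g.scaleRoots s ∣ (1 : k[X]).comp (C s⁻¹ * X) := by
        rw [one_comp]
        exact hu.dvd
      exact hp.not_isUnit (isUnit_of_dvd_one ((scale_dvd hg hs 1).1 h2))
    · rw [← hc a, ← hc b, ← mul_comp, scale_dvd hg hs] at hab
      rcases hp.dvd_or_dvd hab with h2 | h2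
      · left
        rw [← hc a]
        exact (scale_dvd hg hs _).2 h2
      · right
        rw [← hc b]
        exact (scale_dvd hg hs _).2 h2
  exact h1.irreducible

private lemma aux_exists {k : Type} [Field k] {g G : k[X]} {s : k} (hs : s ≠ 0) (hG : G = g.scaleRoots s)
    (δ : AdjoinRoot G) : ∃ p : k[X], δ = AdjoinRoot.mk G (p.comp (C s⁻¹ * X)) := by
  subst hG
  exact exists_comp hs δ

private lemma aux_norm {k : Type} [Field k] {g G : k[X]} (hg : g.Monic) {s : k} (hs : s ≠ 0)
    (hG : G = g.scaleRoots s) (p : k[X]) :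
    Algebra.norm k (AdjoinRoot.mk G (p.comp (C s⁻¹ * X))) = Algebra.norm k (AdjoinRoot.mk g p) := by
  subst hG
  exact norm_scale hg hs p

private lemma aux_val {k : Type} [Field k] {g G : k[X]} (hg : g.Monic) (hodd : Odd g.natDegree) {s : k}
    (hs : s ≠ 0) (hG : G = g.scaleRoots s) (p : k[X])
    (h : IsVal 1 G (AdjoinRoot.mk G (p.comp (C s⁻¹ * X)))) : IsVal s g (AdjoinRoot.mk g p) := by
  subst hG
  exact isVal_scale hg hodd hs p h

private lemma aux_sq {k : Type} [Field k] {g G : k[X]} (hg : g.Monic) {s : k}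
    (hs : s ≠ 0) (hG : G = g.scaleRoots s) (p : k[X]) (h : ∃ z : AdjoinRoot g, AdjoinRoot.mk g p = z ^ 2) :
    ∃ z : AdjoinRoot G, AdjoinRoot.mk G (p.comp (C s⁻¹ * X)) = z ^ 2 := by
  subst hG
  exact sq_scale hg hs p h

private lemma aux_toLv (f : F[X][X]) (v : HeightOneSpectrum F[X]) (p : (RatFunc F)[X]) :
    toLv f v (AdjoinRoot.mk (overK f) p) =
      AdjoinRoot.mk (overKv f v) (p.map (algebraMap (RatFunc F) (v.adicCompletion (RatFunc F)))) :=
  Pool.Agent.H80.CC.toAdic_mk (RatFunc F) f v p

theorem selTriv_scale {f : F[X][X]} (hf : f.Monic) (hodd : Odd f.natDegree) (hirr : Irreducible f)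
    {D : F[X]} (hD : D ≠ 0) (h : ∀ δ, IsSel D f δ → ∃ z : AdjoinRoot (overK f), δ = z ^ 2) :
    SelTriv 1 (f.scaleRoots D) := by
  have hsK : algebraMap F[X] (RatFunc F) D ≠ 0 := by
    intro h0
    exact hD (IsFractionRing.injective F[X] (RatFunc F) (by rw [h0, map_zero]))
  have hfK : (overK f).Monic := hf.map _
  have hK : overK (f.scaleRoots D) = (overK f).scaleRoots (algebraMap F[X] (RatFunc F) D) := by
    refine map_scaleRoots f D _ ?_
    rw [hf.leadingCoeff, map_one]
    exact one_ne_zero
  have hf' : (f.scaleRoots D).Monic := (monic_scaleRoots_iff D).2 hf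
  refine ⟨?_, fun δ hδ => ?_⟩
  · rw [hf'.irreducible_iff_irreducible_map_fraction_map (K := RatFunc F)]
    show Irreducible (overK (f.scaleRoots D))
    rw [hK]
    refine irr_scale hfK hsK ?_
    exact (hf.irreducible_iff_irreducible_map_fraction_map (K := RatFunc F)).1 hirr
  · obtain ⟨p, hp⟩ := aux_exists hsK hK δ
    have hsel : IsSel D f (AdjoinRoot.mk (overK f) p) := by
      refine ⟨fun h0 => ?_, ?_, fun v => ?_⟩
      · apply hδ.ne_zero
        rw [AdjoinRoot.mk_eq_zero] at h0
        rw [hp, AdjoinRoot.mk_eq_zero, hK]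
        exact (scale_dvd hfK hsK p).2 h0
      · obtain ⟨y, hy⟩ := hδ.norm
        refine ⟨y, ?_⟩
        rw [← hy, hp]
        exact (aux_norm hfK hsK hK p).symm
      · have h1 := hδ.locally v
        have h2 : constKv (1 : F[X]) v = 1 := by rw [constKv, map_one, map_one]
        have hsv : constKv D v ≠ 0 := by
          intro h0
          exact hsK ((algebraMap (RatFunc F) (v.adicCompletion (RatFunc F))).injective (by rw [map_zero]; exact h0))
        have hfv : (overKv f v).Monic := hfK.map _
        have hKv : overKv (f.scaleRoots D) v = (overKv f v).scaleRoots (constKv D v) := by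
          rw [overKv, hK]
          refine map_scaleRoots _ _ _ ?_
          rw [hfK.leadingCoeff, map_one]
          exact one_ne_zero
        have hodd' : Odd (overKv f v).natDegree := by
          have h3 : (overKv f v).natDegree = f.natDegree := by
            rw [overKv, hfK.natDegree_map, overK, hf.natDegree_map]
          rw [h3]
          exact hodd
        rw [h2, hp, aux_toLv, Polynomial.map_comp, Polynomial.map_mul, map_C, map_X, map_inv₀] at h1
        rw [aux_toLv]
        exact aux_val hfv hodd' hsv hKv _ h1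
    rw [hp]
    exact aux_sq hfK hsK hK p (h _ hsel)

theorem fam_scale {m h : ℕ} {f : F[X][X]} (hf : Fam m h f) (D : F[X]) :
    Fam m (h + D.natDegree) (f.scaleRoots D) := by
  refine ⟨(monic_scaleRoots_iff D).2 hf.monic, by rw [natDegree_scaleRoots, hf.deg], fun i hi => ?_⟩
  rw [coeff_scaleRoots, hf.deg]
  refine natDegree_mul_le.trans ?_
  rw [mul_add]
  exact add_le_add (hf.coeff i hi) (natDegree_pow_le)

theorem scale_inj {D : F[X]} (hD : D ≠ 0) {f₁ f₂ : F[X][X]} (h : f₁.natDegree = f₂.natDegree)
    (he : f₁.scaleRoots D = f₂.scaleRoots D) : f₁ = f₂ := by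
  ext1 i
  have h1 := congrArg (fun p => p.coeff i) he
  simp only [coeff_scaleRoots, h] at h1
  exact mul_right_cancel₀ (pow_ne_zero _ hD) h1

end Pool.Agent.H74.GR
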