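import Pool.Agent.H74.FS.PRA
import Pool.Agent.H40.GC.PLC

set_option autoImplicit false

/-!
# [H74 GR WA] THEOREM G1: choice of the places, the twists

* `HasDeg v d`: `v` is generated by a monic irreducible polynomial of degree `d`.  `card_kv`: then the residue field `F[X] ⧸ v.asIdeal` has `q ^ d` elements (`(p)`, `p` monic of degree `d`: `AdjoinRoot p = F[X] ⧸ span {p}` with the power basis (`AdjoinRoot.powerBasis'`, `finrank = d`), `Module.card_eq_pow_finrank` or
  `Module.natCard_eq_pow_finrank`; or see how `H40/GC`, `H3/GG` count it).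
* `small`: the set of the places of degree `≤ M` is finite: a finset `Z0` with `v ∈ Z0 ↔ ∃ d ≤ M, HasDeg v d` (there are finitely many polynomials of degree `≤ M`: `H94.PC.finite_natDegree_le`; the place of a polynomial is determined by it).
* `choose_places`: `H74.FS.prn`: `q ^ d ≤ 2 d * (Pr F d).card` (`H94.PC.mem_Pr`: monic irreducible of degree `d`), so for large `d` there are at least `2 k` monic irreducible polynomials of degree `d` (`q ≥ 3`: `q ^ d / (2 d) → ∞`; e.g. `q ^ d ≥ 2 ^ d` and `2 ^ d ≥ 4 k d + 1` for `d ≥ 4 k + 5` or so, `Nat.one_add_..`/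
  `tendsto_pow_const_div_const_pow`), `d > M`, `q ^ d ≥ d0` (`Nat.lt_pow_self`).  Take `2 k` of them (`Finset.exists_subset_card_eq`), `k` for `P` and `k` for `Z`, and the places `LT.place p` (injective on monic polynomials; `H94.LT.place`: `asIdeal = Ideal.span {p}`).
* `exists_twist`: `I ⊆ P`, `P.card = Z.card = k`, all places in `P ∪ Z` of degree `d`: choose `Z' ⊆ Z` with `k - I.card` elements, `D = ∏ v ∈ I ∪ Z', p_v` with the monic irreducible generators `p_v` (choose them), monic of degree `k * d`.  `D ∈ w` iff `w ∈ I ∪ Z'` (`w` is prime, `p_v ∈ w` implies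
  `v ≤ w`, so `v = w`: both ideals are maximal).  For `v ∈ I`: `D ∉ v ^ 2 = (p_v ^ 2)`: `D = p_v * D'` with `D' ∉ v` (`mul_dvd_mul_iff_left`).
-/

namespace Pool.Agent.H74.GR

open Polynomial IsDedekindDomain
open Pool.Agent.H40.GC (kv)

variable {F : Type} [Field F]

/-- `v` is generated by a monic irreducible polynomial of degree `d` -/
def HasDeg (v : HeightOneSpectrum F[X]) (d : ℕ) : Prop :=
  ∃ p : F[X], p.Monic ∧ Irreducible p ∧ p.natDegree = d ∧ v.asIdeal = Ideal.span {p}

theorem card_kv [Finite F] {v : HeightOneSpectrum F[X]} {d : ℕ} (h : HasDeg v d) :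
    Nat.card (kv v) = Nat.card F ^ d := by
  obtain ⟨p, hp, _, hd, hv⟩ := h
  have h1 : Nat.card (kv v) = Nat.card (AdjoinRoot p) :=
    Nat.card_congr (Ideal.quotEquivOfEq hv).toEquiv
  have h2 : Module.finrank F (AdjoinRoot p) = p.natDegree := by
    rw [(AdjoinRoot.powerBasis' hp).finrank]
    rfl
  have h3 : Module.Finite F (AdjoinRoot p) := hp.finite_adjoinRoot
  rw [h1, Module.natCard_eq_pow_finrank (K := F), h2, hd]

private theorem gen_unique {p q : F[X]} (hp : p.Monic) (hq : q.Monic)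
    (h : Ideal.span {p} = Ideal.span {q}) : p = q :=
  eq_of_monic_of_associated hp hq (Ideal.span_singleton_eq_span_singleton.1 h)

/-- the place of an irreducible polynomial -/
private noncomputable def plc (Q : F[X]) (hQ : Irreducible Q) : HeightOneSpectrum F[X] where
  asIdeal := Ideal.span {Q}
  isPrime := (Ideal.span_singleton_prime hQ.ne_zero).2 hQ.prime
  ne_bot := by rw [Ne, Ideal.span_singleton_eq_bot]; exact hQ.ne_zero

private theorem plc_hasDeg {Q : F[X]} (hQ : Irreducible Q) (hm : Q.Monic) :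
    HasDeg (plc Q hQ) Q.natDegree := ⟨Q, hm, hQ, rfl, rfl⟩

theorem hasDeg_unique {v : HeightOneSpectrum F[X]} {d d' : ℕ} (h : HasDeg v d) (h' : HasDeg v d') :
    d = d' := by
  obtain ⟨p, hp, _, hd, hv⟩ := h
  obtain ⟨p', hp', _, hd', hv'⟩ := h'
  rw [hv] at hv'
  rw [← hd, ← hd', gen_unique hp hp' hv']

theorem small [Finite F] (M : ℕ) : ∃ Z0 : Finset (HeightOneSpectrum F[X]),
    ∀ v, v ∈ Z0 ↔ ∃ d ≤ M, HasDeg v d := by
  have hfin : {v : HeightOneSpectrum F[X] | ∃ d ≤ M, HasDeg v d}.Finite := by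
    have h1 : {p : F[X] | p.natDegree ≤ M}.Finite := Pool.Agent.H94.PC.finite_natDegree_le F M
    have h2 : Finite {p : F[X] | p.natDegree ≤ M} := h1.to_subtype
    have h3 : ∀ v : {v : HeightOneSpectrum F[X] | ∃ d ≤ M, HasDeg v d},
        ∃ p : F[X], p.natDegree ≤ M ∧ v.1.asIdeal = Ideal.span {p} := by
      rintro ⟨v, d, hd, p, _, _, hp, hv⟩
      exact ⟨p, by omega, hv⟩
    choose g hg1 hg2 using h3
    have h4 : Finite {v : HeightOneSpectrum F[X] | ∃ d ≤ M, HasDeg v d} := by
      refine Finite.of_injective (fun v => (⟨g v, hg1 v⟩ : {p : F[X] | p.natDegree ≤ M})) ?_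
      intro v w hvw
      have h5 : g v = g w := congrArg Subtype.val hvw
      apply Subtype.ext
      apply HeightOneSpectrum.ext
      rw [hg2 v, hg2 w, h5]
    exact Set.toFinite _
  exact ⟨hfin.toFinset, fun v => by rw [Set.Finite.mem_toFinset]; rfl⟩

private theorem sq_le_three_pow (d : ℕ) : d * d ≤ 3 ^ d := by
  induction d with
  | zero => norm_num
  | succ d ih =>
    have h1 : d < 3 ^ d := Nat.lt_pow_self (by norm_num)
    rw [pow_succ]
    nlinarith

theorem choose_places (F : Type) [Field F] [Finite F] (h3 : 3 ≤ Nat.card F) (k M d0 : ℕ) :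
    ∃ (d : ℕ) (P Z : Finset (HeightOneSpectrum F[X])), M < d ∧ d0 ≤ Nat.card F ^ d ∧
      P.card = k ∧ Z.card = k ∧ Disjoint P Z ∧ (∀ v ∈ P, HasDeg v d) ∧ ∀ v ∈ Z, HasDeg v d := by
  classical
  obtain ⟨d, hd⟩ : ∃ d, d = 4 * k + M + d0 + 1 := ⟨_, rfl⟩
  have hd1 : 1 ≤ d := by omega
  have hcard : 2 * k ≤ (Pool.Agent.H94.PC.Pr F d).card := by
    by_contra hcon
    have h1 := Pool.Agent.H74.FS.prn (F := F) h3 hd1
    have h2 : 3 ^ d ≤ Nat.card F ^ d := Nat.pow_le_pow_left h3 d
    have h3' := sq_le_three_pow d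
    have h4 : (Pool.Agent.H94.PC.Pr F d).card + 1 ≤ 2 * k := by omega
    have h5 : 2 * d * ((Pool.Agent.H94.PC.Pr F d).card + 1) ≤ 2 * d * (2 * k) :=
      Nat.mul_le_mul_left _ h4
    have h6 : 2 * d * (2 * k) ≤ d * d := by
      have h7 : 4 * k ≤ d := by omega
      calc 2 * d * (2 * k) = d * (4 * k) := by ring
        _ ≤ d * d := Nat.mul_le_mul_left _ h7
    have h8 : 2 * d * ((Pool.Agent.H94.PC.Pr F d).card + 1) =
        2 * d * (Pool.Agent.H94.PC.Pr F d).card + 2 * d := by ring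
    omega
  obtain ⟨S, hS, hSc⟩ := Finset.exists_subset_card_eq hcard
  obtain ⟨A, hA, hAc⟩ := Finset.exists_subset_card_eq (s := S) (n := k) (by omega)
  have hirr : ∀ p ∈ S, p.Monic ∧ p.natDegree = d ∧ Irreducible p := fun p hp =>
    Pool.Agent.H94.PC.mem_Pr.1 (hS hp)
  obtain ⟨pl, hpl⟩ : ∃ pl : F[X] → HeightOneSpectrum F[X],
      pl = fun p => if h : Irreducible p then plc p h else plc X irreducible_X := ⟨_, rfl⟩
  have hpl1 : ∀ p ∈ S, (pl p).asIdeal = Ideal.span {p} := by
    intro p hp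
    rw [hpl]
    simp only
    rw [dif_pos (hirr p hp).2.2]
    rfl
  have hinj : ∀ p ∈ S, ∀ q ∈ S, pl p = pl q → p = q := by
    intro p hp q hq h
    refine gen_unique (hirr p hp).1 (hirr q hq).1 ?_
    rw [← hpl1 p hp, ← hpl1 q hq, h]
  have hdeg : ∀ p ∈ S, HasDeg (pl p) d := fun p hp =>
    ⟨p, (hirr p hp).1, (hirr p hp).2.2, (hirr p hp).2.1, hpl1 p hp⟩
  have hBc : (S \ A).card = k := by
    rw [Finset.card_sdiff_of_subset hA]
    omega
  refine ⟨d, A.image pl, (S \ A).image pl, by omega, ?_, ?_, ?_, ?_, ?_, ?_⟩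
  · have h1 : d < Nat.card F ^ d := Nat.lt_pow_self (by omega)
    omega
  · rw [Finset.card_image_of_injOn, hAc]
    intro p hp q hq h
    exact hinj p (hA hp) q (hA hq) h
  · rw [Finset.card_image_of_injOn, hBc]
    intro p hp q hq h
    exact hinj p (Finset.sdiff_subset hp) q (Finset.sdiff_subset hq) h
  · rw [Finset.disjoint_left]
    intro v hv hv'
    obtain ⟨p, hp, rfl⟩ := Finset.mem_image.1 hv
    obtain ⟨q, hq, hpq⟩ := Finset.mem_image.1 hv'
    have h1 := hinj q (Finset.sdiff_subset hq) p (hA hp) hpq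
    rw [h1] at hq
    exact (Finset.mem_sdiff.1 hq).2 hp
  · intro v hv
    obtain ⟨p, hp, rfl⟩ := Finset.mem_image.1 hv
    exact hdeg p (hA hp)
  · intro v hv
    obtain ⟨p, hp, rfl⟩ := Finset.mem_image.1 hv
    exact hdeg p (Finset.sdiff_subset hp)

theorem exists_twist {k d : ℕ} {P Z I : Finset (HeightOneSpectrum F[X])} (hP : P.card = k)
    (hZ : Z.card = k) (hPZ : Disjoint P Z) (hPd : ∀ v ∈ P, HasDeg v d) (hZd : ∀ v ∈ Z, HasDeg v d)
    (hI : I ⊆ P) :
    ∃ D : F[X], D.Monic ∧ D.natDegree = k * d ∧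
      (∀ v ∈ I, D ∈ v.asIdeal ∧ D ∉ v.asIdeal ^ 2) ∧ (∀ v ∈ P, v ∉ I → D ∉ v.asIdeal) ∧
      ∀ v, D ∈ v.asIdeal → v ∈ I ∨ v ∈ Z := by
  classical
  have hIc : I.card ≤ k := by
    rw [← hP]
    exact Finset.card_le_card hI
  obtain ⟨Z', hZ', hZc⟩ := Finset.exists_subset_card_eq (s := Z) (n := k - I.card) (by omega)
  have hdis : Disjoint I Z' := Finset.disjoint_of_subset_left hI
    (Finset.disjoint_of_subset_right hZ' hPZ)
  obtain ⟨T, hT⟩ : ∃ T, T = I ∪ Z' := ⟨_, rfl⟩
  have hTc : T.card = k := by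
    rw [hT, Finset.card_union_of_disjoint hdis]
    omega
  have hTd : ∀ v ∈ T, HasDeg v d := by
    intro v hv
    rw [hT, Finset.mem_union] at hv
    rcases hv with hv | hv
    · exact hPd v (hI hv)
    · exact hZd v (hZ' hv)
  have hch : ∀ v : HeightOneSpectrum F[X], ∃ p : F[X], v ∈ T →
      p.Monic ∧ p.natDegree = d ∧ v.asIdeal = Ideal.span {p} := by
    intro v
    by_cases hv : v ∈ T
    · obtain ⟨p, hp, _, hd, hpv⟩ := hTd v hv
      exact ⟨p, fun _ => ⟨hp, hd, hpv⟩⟩
    · exact ⟨0, fun h => absurd h hv⟩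
  choose g hg using hch
  -- the only places which contain a product of generators
  have hmem : ∀ (U : Finset (HeightOneSpectrum F[X])), U ⊆ T → ∀ v : HeightOneSpectrum F[X],
      ∏ u ∈ U, g u ∈ v.asIdeal → v ∈ U := by
    intro U hU v hv
    have hpr := v.isPrime
    obtain ⟨u, hu, huv⟩ := (Ideal.IsPrime.prod_mem_iff (p := v.asIdeal)).1 hv
    have h1 : u.asIdeal ≤ v.asIdeal := by
      rw [(hg u (hU hu)).2.2, Ideal.span_singleton_le_iff_mem]
      exact huv
    have h2 : u.asIdeal = v.asIdeal := u.isMaximal.eq_of_le v.isPrime.ne_top h1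
    have h3 : u = v := HeightOneSpectrum.ext h2
    rw [← h3]
    exact hu
  refine ⟨∏ u ∈ T, g u, monic_prod_of_monic _ _ fun u hu => (hg u hu).1, ?_, ?_, ?_, ?_⟩
  · rw [natDegree_prod_of_monic _ _ fun u hu => (hg u hu).1,
      Finset.sum_congr rfl fun u hu => (hg u hu).2.1, Finset.sum_const, hTc, smul_eq_mul]
  · intro v hv
    have hvT : v ∈ T := by
      rw [hT]
      exact Finset.mem_union_left _ hv
    have hD : ∏ u ∈ T, g u = g v * ∏ u ∈ T.erase v, g u := (Finset.mul_prod_erase T g hvT).symm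
    constructor
    · rw [hD, (hg v hvT).2.2]
      exact Ideal.mul_mem_right _ _ (Ideal.mem_span_singleton_self _)
    · intro h
      rw [hD, (hg v hvT).2.2, Ideal.span_singleton_pow, Ideal.mem_span_singleton, sq] at h
      have h1 : g v ∣ ∏ u ∈ T.erase v, g u :=
        (mul_dvd_mul_iff_left (hg v hvT).1.ne_zero).1 h
      have h2 : ∏ u ∈ T.erase v, g u ∈ v.asIdeal := by
        rw [(hg v hvT).2.2, Ideal.mem_span_singleton]
        exact h1
      have h3 := hmem (T.erase v) (Finset.erase_subset _ _) v h2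
      exact (Finset.mem_erase.1 h3).1 rfl
  · intro v hv hvI h
    have h1 := hmem T subset_rfl v h
    rw [hT, Finset.mem_union] at h1
    rcases h1 with h1 | h1
    · exact hvI h1
    · exact Finset.disjoint_left.1 hPZ hv (hZ' h1)
  · intro v h
    have h1 := hmem T subset_rfl v h
    rw [hT, Finset.mem_union] at h1
    rcases h1 with h1 | h1
    · exact Or.inl h1
    · exact Or.inr (hZ' h1)

end Pool.Agent.H74.GR
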