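import Pool.Agent.H74.GR.WA
import Pool.Agent.H13.SM.Smi
import Pool.Agent.H13.SM.Smj
import Pool.Agent.H13.SM.Smk
import Pool.Agent.H94.LT.Fin

set_option autoImplicit false

/-!
# [H74 GR WC] THEOREM G1: most curves of the family with local conditions are smooth

`P`, `Z'` finite sets of places, `Z'` contains all places of degree `≤ M`, `FamS m h P Z' f`: leading form irreducible, `f` special at `P`, harmless at `Z'` (`H40/GC/PLC`).
PROOF.  `N = ∏ v ∈ P ∪ Z', p_v` with generators `p_v` of `v` (`≠ 0`; `IsPrincipalIdealRing.principal`).  Every irreducible `u` with `natDegree u ≤ M` divides `N`: the place of `u` (normalized: `u * C (leadingCoeff)⁻¹` is monic irreducible of degree `≤ M`) is in `Z'`, and its generator is associated to `u`.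
`H13.SM.smoc h2 m hm M N _ _ (η / 2)`, `2 m / q ^ (M + 1) ≤ η / 2` (`hM`), for `S f := Irreducible (lead m h f) ∧ (∀ v ∈ P, Special f v) ∧ ∀ v ∈ Z', Harmless f v`: it depends only on the leading form and on the coefficients modulo `N` (`f.map (Ideal.Quotient.mk v.asIdeal)` depends only on the coefficients modulo
`v`, `N ∈ v.asIdeal`).  So the number of the `f` with `FamS` and `SingN N f` is at most `η` times the number of the `f` with `FamS`.  (`Fam m h f ∧ S f` is `FamS m h P Z' f` up to reassociation of `∧`.)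
If `FamS m h P Z' f` and `f` is not smooth, there is a singular point `(t, x)` (`H13.SM.sing`); `N(t) ≠ 0`: otherwise `p_v(t) = 0` for some `v ∈ P ∪ Z'`, and `f` modulo `v` is separable (`sep_of`), against `H13.SM.sing_sep`.  So `SingN N f`.
`sep_of`: the residue field `kv v` is finite, so perfect: an irreducible polynomial over it is separable (`Irreducible.separable`, `PerfectField` of finite fields), and `(X - C c) * G` with `G` irreducible, `G(c) ≠ 0` is separable (`Separable.mul`, coprime).  (`v.asIdeal = Ideal.span {p_v}`: rewrite; the statement of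
`sing_sep` is about `Ideal.span {v}`: generalize the ideal.)
-/

namespace Pool.Agent.H74.GR

open Polynomial IsDedekindDomain
open Pool.Agent.H40.GC (kv FamS)
open Pool.Agent.H94.GG (Fam lead Special Harmless Smooth)

variable {F : Type} [Field F]

private theorem sep_irr {K : Type} [Field K] [Finite K] {G : K[X]} (hG : Irreducible G) :
    G.Separable := PerfectField.separable_of_irreducible hG

theorem sep_of [Finite F] {f : F[X][X]} {v : HeightOneSpectrum F[X]}
    (h : Special f v ∨ Harmless f v) : (f.map (Ideal.Quotient.mk v.asIdeal)).Separable := by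
  rcases h with h | h
  · obtain ⟨c, G, hG, -, hc, he⟩ := (Pool.Agent.H40.GC.special_iff f v).1 h
    have h2 : (f.map (Pool.Agent.H40.GC.rv v)).Separable := by
      rw [he]
      refine Separable.mul separable_X_sub_C (sep_irr hG) ?_
      rw [(irreducible_X_sub_C c).coprime_iff_not_dvd, dvd_iff_isRoot]
      exact hc
    exact h2
  · exact sep_irr (K := kv v) ((Pool.Agent.H40.GC.harmless_iff f v).1 h)

private theorem gen_ne (v : HeightOneSpectrum F[X]) :
    ∃ p : F[X], p ≠ 0 ∧ v.asIdeal = Ideal.span {p} := by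
  obtain ⟨p, hp⟩ : ∃ p : F[X], v.asIdeal = Ideal.span {p} :=
    (IsPrincipalIdealRing.principal v.asIdeal).principal
  refine ⟨p, ?_, hp⟩
  rintro rfl
  apply v.ne_bot
  rw [hp, Ideal.span_singleton_eq_bot]

private theorem not_sing (f : F[X][X]) (v : HeightOneSpectrum F[X]) (p : F[X])
    (hp : v.asIdeal = Ideal.span {p})
    (hs : (f.map (Ideal.Quotient.mk v.asIdeal)).Separable)
    (t x : AlgebraicClosure F) (ht : aeval t p = 0) : ¬ H13.SM.SingAt f t x := by
  have key : ∀ I : Ideal F[X], I = Ideal.span {p} → (f.map (Ideal.Quotient.mk I)).Separable →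
      ¬ H13.SM.SingAt f t x := by
    rintro I rfl hs
    exact H13.SM.sing_sep f p hs t x ht
  exact key _ hp hs

private theorem map_eq_of {f f' : F[X][X]} {v : HeightOneSpectrum F[X]} {N : F[X]}
    (hN : N ∈ v.asIdeal) (h : ∀ i, N ∣ f.coeff i - f'.coeff i) :
    f.map (Ideal.Quotient.mk v.asIdeal) = f'.map (Ideal.Quotient.mk v.asIdeal) := by
  refine Polynomial.ext fun i => ?_
  rw [coeff_map, coeff_map]
  exact Ideal.Quotient.eq.2 (v.asIdeal.mem_of_dvd (h i) hN)

theorem smooth_share [Finite F] (h2 : (2 : F) ≠ 0) (m : ℕ) (hm : 3 ≤ m) (M : ℕ) (η : ℝ)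
    (hη : 0 < η) (hM : 2 * (m : ℝ) / (Nat.card F : ℝ) ^ (M + 1) ≤ η / 2)
    (P Z' : Finset (HeightOneSpectrum F[X])) (hZ : ∀ v, (∃ d ≤ M, HasDeg v d) → v ∈ Z') :
    ∃ h0 : ℕ, ∀ h, h0 ≤ h →
      (Nat.card {f : F[X][X] // FamS m h P Z' f ∧ ¬ Smooth f} : ℝ) ≤
        η * (Nat.card {f : F[X][X] // FamS m h P Z' f} : ℝ) := by
  classical
  choose p hp0 hp using (gen_ne (F := F))
  obtain ⟨N, hN⟩ : ∃ N : F[X], N = ∏ v ∈ P ∪ Z', p v := ⟨_, rfl⟩
  have hN0 : N ≠ 0 := by
    rw [hN]
    exact Finset.prod_ne_zero_iff.2 fun v _ => hp0 v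
  have hNm : ∀ v ∈ P ∪ Z', N ∈ v.asIdeal := by
    intro v hv
    rw [hp v, Ideal.mem_span_singleton, hN]
    exact Finset.dvd_prod_of_mem p hv
  have hNd : ∀ u : F[X], Irreducible u → u.natDegree ≤ M → u ∣ N := by
    intro u hu hd
    have hu0 := hu.ne_zero
    have hc0 : u.leadingCoeff⁻¹ ≠ 0 := inv_ne_zero (leadingCoeff_ne_zero.2 hu0)
    have hun : IsUnit (C u.leadingCoeff⁻¹ : F[X]) := isUnit_C.2 (isUnit_iff_ne_zero.2 hc0)
    obtain ⟨v, hv⟩ : ∃ v : HeightOneSpectrum F[X], v.asIdeal = Ideal.span {u} :=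
      ⟨Pool.Agent.H94.LT.place u hu, rfl⟩
    have hdeg : HasDeg v u.natDegree := by
      refine ⟨u * C u.leadingCoeff⁻¹, monic_mul_leadingCoeff_inv hu0,
        (irreducible_mul_isUnit hun).2 hu, natDegree_mul_leadingCoeff_inv _ hu0, ?_⟩
      rw [hv]
      exact (Ideal.span_singleton_mul_right_unit hun u).symm
    have hmem : v ∈ Z' := hZ v ⟨_, hd, hdeg⟩
    have h3 : u ∣ p v := by
      rw [← Ideal.mem_span_singleton, ← hv, hp v]
      exact Ideal.mem_span_singleton_self _
    rw [hN]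
    exact h3.trans (Finset.dvd_prod_of_mem p (Finset.mem_union_right P hmem))
  obtain ⟨h0, hh0⟩ := H13.SM.smoc h2 m hm M N hN0 hNd (η / 2) (by positivity)
  refine ⟨h0, fun h hh => ?_⟩
  have key := hh0 h hh (fun f => Irreducible (lead m h f) ∧ (∀ v ∈ P, Special f v) ∧
    ∀ v ∈ Z', Harmless f v) (by
      rintro f f' - - hl hd ⟨g1, g2, g3⟩
      refine ⟨hl ▸ g1, fun v hv => ?_, fun v hv => ?_⟩
      · have e := map_eq_of (hNm v (Finset.mem_union_left _ hv)) hd
        have g := g2 v hv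
        unfold Special at g ⊢
        rw [← e]
        exact g
      · have e := map_eq_of (hNm v (Finset.mem_union_right _ hv)) hd
        have g := g3 v hv
        unfold Harmless at g ⊢
        rw [← e]
        exact g)
  have hsing : ∀ f : F[X][X], FamS m h P Z' f → ¬ Smooth f → H13.SM.SingN N f := by
    intro f hf hs
    obtain ⟨t, x, htx⟩ := H13.SM.sing f hs
    refine ⟨t, x, ?_, htx⟩
    intro h0'
    rw [hN, map_prod] at h0'
    obtain ⟨v, hv, hv0⟩ := Finset.prod_eq_zero_iff.1 h0'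
    refine not_sing f v (p v) (hp v) (sep_of ?_) t x hv0 htx
    rcases Finset.mem_union.1 hv with hv | hv
    · exact Or.inl (hf.2.2.1 v hv)
    · exact Or.inr (hf.2.2.2 v hv)
  have hc1 : Nat.card {f : F[X][X] // FamS m h P Z' f ∧ ¬ Smooth f} ≤
      Nat.card {f : F[X][X] // Fam m h f ∧ (Irreducible (lead m h f) ∧
        (∀ v ∈ P, Special f v) ∧ ∀ v ∈ Z', Harmless f v) ∧ H13.SM.SingN N f} := by
    have : Finite {f : F[X][X] // Fam m h f ∧ (Irreducible (lead m h f) ∧
        (∀ v ∈ P, Special f v) ∧ ∀ v ∈ Z', Harmless f v) ∧ H13.SM.SingN N f} :=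
      ((H13.SM.fam_fin m h).subset fun f (hf : Fam m h f ∧ (Irreducible (lead m h f) ∧
        (∀ v ∈ P, Special f v) ∧ ∀ v ∈ Z', Harmless f v) ∧ H13.SM.SingN N f) => hf.1).to_subtype
    refine Nat.card_le_card_of_injective
      (fun f => ⟨f.1, f.2.1.1, f.2.1.2, hsing f.1 f.2.1 f.2.2⟩) ?_
    intro f g hfg
    exact Subtype.ext (Subtype.mk.inj hfg)
  have hc2 : Nat.card {f : F[X][X] // Fam m h f ∧ (Irreducible (lead m h f) ∧
      (∀ v ∈ P, Special f v) ∧ ∀ v ∈ Z', Harmless f v)} =
      Nat.card {f : F[X][X] // FamS m h P Z' f} := rfl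
  have hpos : (0 : ℝ) ≤ (Nat.card {f : F[X][X] // FamS m h P Z' f} : ℝ) := Nat.cast_nonneg _
  calc (Nat.card {f : F[X][X] // FamS m h P Z' f ∧ ¬ Smooth f} : ℝ)
      ≤ (Nat.card {f : F[X][X] // Fam m h f ∧ (Irreducible (lead m h f) ∧
        (∀ v ∈ P, Special f v) ∧ ∀ v ∈ Z', Harmless f v) ∧ H13.SM.SingN N f} : ℝ) := by
          exact_mod_cast hc1
    _ ≤ (2 * m / (Nat.card F : ℝ) ^ (M + 1) + η / 2) *
        (Nat.card {f : F[X][X] // FamS m h P Z' f} : ℝ) := by
          rw [← hc2]
          exact key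
    _ ≤ η * (Nat.card {f : F[X][X] // FamS m h P Z' f} : ℝ) := by
          refine mul_le_mul_of_nonneg_right ?_ hpos
          linarith

end Pool.Agent.H74.GR
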