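import Pool.Agent.H74.GR.WB
import Pool.Agent.H74.GR.WC
import Pool.Agent.H74.GR.UE
import Pool.Agent.H74.GR.VB
import Pool.Agent.H40.GC.ENG

set_option autoImplicit false

/-!
# [H74 GR WD] THEOREM G1: assembly

`m = 2 g + 1`, `q = card F`.  `hLat` is the end statement of the chapter LAT.
`good_share`: there are `d`, `k`, `P`, `Z` and `c > 0`, `h0` such that for `h ≥ h0` at least `c * #Fam` of the `f` in `Fam m h` satisfy `FamS m h P (Z0 ∪ Z) f`, `Smooth f` and (strict) no nonsquare `δ` with `IsS0 f δ` and `SqAt f v δ` for all `v ∈ P`.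
  PROOF.  `M` with `2 m / q ^ (M + 1) ≤ 1 / 8` (`q ≥ 3`), `Z0` = the places of degree `≤ M` (`small M`), `eng F h2 hg hLat Z0` gives `C > 0`; `k` with `4 C ≤ 2 ^ k`; `eng` for `a = 2 k` gives `d0`; `choose_places F _ k M d0` gives `d`, `P`, `Z`; `P` is disjoint to `Z0` (`hasDeg_unique`, `d > M`) and to `Z0 ∪ Z`;
  `d0 ≤ card (kv v)` by `card_kv`.  `enc_low` for `P`, `Z0 ∪ Z`; `smooth_share` with `η = 1/4` for `P`, `Z' = Z0 ∪ Z`.  With `A = #FamS`: `#(not smooth) ≤ A / 4`, `2 ^ k * #(smooth, not strict) ≤ C A`, so `#(smooth, not strict) ≤ A / 4`; the rest are good: `#good ≥ A - A/4 - A/4 = A / 2 ≥ c1 / 2 * #Fam`.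
  Take `k ≥ 1`.  (The finite set `{f // FamS ..}` is the union of the three; `fams_fin`, `Nat.card` of subtypes as `Set.ncard`, `Set.ncard_union_le`.)
`g1_main`.  For such `f`: `H13.SM.irr` (`f` irreducible), `H13.SM.ded` (Dedekind), `overK f` irreducible (`H94.TC.irreducible_map`), `g1_choice` (`P`, `IsSquare δ` and `∃ z, δ = z ^ 2` are the same up to `sq`) gives `I ⊆ P`, and `exists_twist` gives for each `I ⊆ P` (choose one) `D_I` monic of degree `k d`; all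
  conditions of `g1_choice` hold (the primes dividing `D_I` outside `I` are in `Z`, so harmless).  `selTriv_scale`: `SelTriv 1 (f.scaleRoots D_I)`; `f` is separable at a place `v ∈ P` (`k ≥ 1`, `sep_of`), so over `K` (`sep_over`), and so is `f.scaleRoots D_I` (`sep_scale`).  So the good set of height `h` is the union over the `2 ^ k` subsets `I ⊆ P` of `G_I = {f | Fam m h f ∧ (overK (f.scaleRoots D_I)).Separable ∧ SelTriv 1 (f.scaleRoots D_I)}`, and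
  `f ↦ f.scaleRoots D_I` is an injection of `G_I` into `B = {f' | Fam m (h + k d) f' ∧ separable ∧ SelTriv 1 f'}` (`fam_scale`, `scale_inj`).  So `#good ≤ 2 ^ k * #B`.  `#Fam m (h + k d) = q ^ (k d * ∑ (m - i)) * #Fam m h` (`fmc_all`, `Mh`).  So for `h' = h + k d ≥ h0 + k d`: `#B ≥ c / 2 ^ k * q ^ (- k d ∑ (m - i)) * #Fam m h'`.
-/

namespace Pool.Agent.H74.GR

open Polynomial IsDedekindDomain
open Pool.Agent.H40.GC (kv FamS LatO Mh)
open Pool.Agent.H94.GG (Fam lead Special Harmless Smooth IsS0 SqAt SelTriv IsSel)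
open Pool.Agent.H80.CC.Plane (overK overKv constKv toL toLv)

private theorem card_three {α : Type} {p p1 p2 p3 : α → Prop} (hfin : {x | p x}.Finite)
    (h1 : ∀ x, p1 x → p x) (h2 : ∀ x, p2 x → p x) (h3 : ∀ x, p3 x → p x)
    (h : ∀ x, p x → p1 x ∨ p2 x ∨ p3 x) : Nat.card {x // p x} ≤
      Nat.card {x // p1 x} + Nat.card {x // p2 x} + Nat.card {x // p3 x} := by
  have e : ∀ q : α → Prop, Nat.card {x // q x} = {x | q x}.ncard := fun q =>
    Nat.card_coe_set_eq {x | q x}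
  rw [e, e, e, e]
  have hf1 : {x | p1 x}.Finite := hfin.subset h1
  have hf2 : {x | p2 x}.Finite := hfin.subset h2
  have hf3 : {x | p3 x}.Finite := hfin.subset h3
  have hs : {x | p x} ⊆ {x | p1 x} ∪ {x | p2 x} ∪ {x | p3 x} := by
    intro x hx
    rcases h x hx with h4 | h4 | h4
    · exact Or.inl (Or.inl h4)
    · exact Or.inl (Or.inr h4)
    · exact Or.inr h4
  have h5 := Set.ncard_le_ncard hs ((hf1.union hf2).union hf3)
  have h6 := Set.ncard_union_le ({x | p1 x} ∪ {x | p2 x}) {x | p3 x}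
  have h7 := Set.ncard_union_le {x | p1 x} {x | p2 x}
  omega

private theorem card_union {α ι : Type} {p : α → Prop} {q : ι → α → Prop} (T : Finset ι) (N : ℕ)
    (hfin : ∀ i ∈ T, {x | q i x}.Finite) (h : ∀ x, p x → ∃ i ∈ T, q i x)
    (hN : ∀ i ∈ T, Nat.card {x // q i x} ≤ N) : Nat.card {x // p x} ≤ T.card * N := by
  have e : ∀ q : α → Prop, Nat.card {x // q x} = {x | q x}.ncard := fun q =>
    Nat.card_coe_set_eq {x | q x}
  rw [e]
  have h1 : {x | p x} ⊆ ⋃ i ∈ T, {x | q i x} := by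
    intro x hx
    obtain ⟨i, hi, hq⟩ := h x hx
    simp only [Set.mem_iUnion]
    exact ⟨i, hi, hq⟩
  have hf : (⋃ i ∈ T, {x | q i x}).Finite := Set.Finite.biUnion T.finite_toSet hfin
  refine (Set.ncard_le_ncard h1 hf).trans ((Finset.set_ncard_biUnion_le _ _).trans ?_)
  refine (Finset.sum_le_card_nsmul _ _ N fun i hi => ?_).trans (le_of_eq ?_)
  · rw [← e]
    exact hN i hi
  · rw [smul_eq_mul]

private theorem fam_fin (F : Type) [Field F] [Finite F] (m h : ℕ) : {f : F[X][X] | Fam m h f}.Finite := by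
  have h1 : Finite {f : F[X][X] // Fam m h f} := by
    apply Nat.finite_of_card_ne_zero
    rw [Pool.Agent.H40.GC.fmc_all]
    exact pow_ne_zero _ Nat.card_pos.ne'
  exact h1

private theorem mh_add (m h e : ℕ) : Mh m (h + e) = Mh m h + e * ∑ i : Fin m, (m - (i : ℕ)) := by
  unfold Pool.Agent.H40.GC.Mh
  rw [Finset.mul_sum, ← Finset.sum_add_distrib]
  refine Finset.sum_congr rfl fun i _ => ?_
  ring

theorem good_share (F : Type) [Field F] [Finite F] (h2 : (2 : F) ≠ 0) {g : ℕ} (hg : 1 ≤ g)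
    (hLat : ∀ (h : ℕ) (f : F[X][X]), 1 ≤ h → Fam (2 * g + 1) h f → Irreducible (lead (2 * g + 1) h f) →
      Smooth f → LatO g h f) :
    ∃ (d k : ℕ) (P Z Z1 : Finset (HeightOneSpectrum F[X])) (c : ℝ) (h0 : ℕ), 0 < c ∧ 1 ≤ k ∧ P.card = k ∧
      Z.card = k ∧ Disjoint P Z ∧ (∀ v ∈ P, HasDeg v d) ∧ (∀ v ∈ Z, HasDeg v d) ∧ Z ⊆ Z1 ∧
      ∀ h, h0 ≤ h → c * (Nat.card {f : F[X][X] // Fam (2 * g + 1) h f} : ℝ) ≤
        (Nat.card {f : F[X][X] // FamS (2 * g + 1) h P Z1 f ∧ Smooth f ∧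
          ∀ δ : AdjoinRoot (overK f), IsS0 f δ → (∀ v ∈ P, SqAt f v δ) → ∃ z, δ = z ^ 2} : ℝ) := by
  classical
  have h3 : 3 ≤ Nat.card F := Pool.Agent.H40.GC.odd_card F h2
  obtain ⟨M, hMdef⟩ : ∃ M, M = 16 * (2 * g + 1) := ⟨_, rfl⟩
  have hM : 2 * (((2 * g + 1 : ℕ) : ℝ)) / (Nat.card F : ℝ) ^ (M + 1) ≤ (1 / 4 : ℝ) / 2 := by
    have h4 : 16 * (2 * g + 1) ≤ Nat.card F ^ (M + 1) := by
      have h5 : M + 1 < Nat.card F ^ (M + 1) := Nat.lt_pow_self (by omega)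
      omega
    have h6 : (16 * ((2 * g + 1 : ℕ) : ℝ)) ≤ (Nat.card F : ℝ) ^ (M + 1) := by exact_mod_cast h4
    have h7 : (0 : ℝ) < (Nat.card F : ℝ) ^ (M + 1) := by
      have h8 : (0 : ℝ) < Nat.card F := by exact_mod_cast (by omega : 0 < Nat.card F)
      positivity
    rw [div_le_iff₀ h7]
    linarith
  obtain ⟨Z0, hZ0⟩ := small (F := F) M
  obtain ⟨C, hC, hCa⟩ := Pool.Agent.H40.GC.eng F h2 hg hLat Z0
  obtain ⟨k₀, hk₀⟩ := pow_unbounded_of_one_lt (4 * C) (one_lt_two : (1 : ℝ) < 2)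
  obtain ⟨k, hk⟩ : ∃ k, k = k₀ + 1 := ⟨_, rfl⟩
  have h2k : 4 * C ≤ (2 : ℝ) ^ k := by
    rw [hk, pow_succ]
    have h4 : (0 : ℝ) < 2 ^ k₀ := by positivity
    linarith
  obtain ⟨d0, hd0⟩ := hCa (2 * k)
  obtain ⟨d, P, Z, hMd, hdq, hPc, hZc, hPZ, hPd, hZd⟩ := choose_places F h3 k M d0
  have hPZ0 : Disjoint P Z0 := by
    rw [Finset.disjoint_left]
    intro v hv hv0
    obtain ⟨d', hd', h4⟩ := (hZ0 v).1 hv0
    have h5 := hasDeg_unique (hPd v hv) h4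
    omega
  have hPZ1 : Disjoint P (Z0 ∪ Z) := Finset.disjoint_union_right.2 ⟨hPZ0, hPZ⟩
  obtain ⟨h01, hh1⟩ := hd0 P Z hPZ hPZ0 (by omega)
    (fun v hv => by rw [card_kv (hPd v hv)]; exact hdq)
    (fun v hv => by rw [card_kv (hZd v hv)]; exact hdq)
  obtain ⟨h02, hh2⟩ := Pool.Agent.H40.GC.enc_low h2 hg hPZ1
  obtain ⟨h03, hh3⟩ := smooth_share h2 (2 * g + 1) (by omega) M (1 / 4) (by norm_num) hM P (Z0 ∪ Z)
    (fun v hv => Finset.mem_union_left _ ((hZ0 v).2 hv))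
  refine ⟨d, k, P, Z, Z0 ∪ Z, (1 / (2 * (2 * g + 1 : ℝ))) ^ (P.card + (Z0 ∪ Z).card + 1) / 2,
    max h01 (max h02 h03), by positivity, by omega, hPc, hZc, hPZ, hPd, hZd,
    Finset.subset_union_right, fun h hh => ?_⟩
  have g1 := hh1 h ((le_max_left _ _).trans hh)
  have g2 := hh2 h ((le_max_left _ _).trans ((le_max_right _ _).trans hh))
  have g3 := hh3 h ((le_max_right _ _).trans ((le_max_right _ _).trans hh))
  rw [hPc] at g1
  have g4 := card_three (p := fun f : F[X][X] => FamS (2 * g + 1) h P (Z0 ∪ Z) f)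
    (p1 := fun f => FamS (2 * g + 1) h P (Z0 ∪ Z) f ∧ ¬ Smooth f)
    (p2 := fun f => FamS (2 * g + 1) h P (Z0 ∪ Z) f ∧ Smooth f ∧
        ∃ δ : AdjoinRoot (overK f), IsS0 f δ ∧ ¬ IsSquare δ ∧ ∀ v ∈ P, SqAt f v δ)
    (p3 := fun f => FamS (2 * g + 1) h P (Z0 ∪ Z) f ∧ Smooth f ∧
          ∀ δ : AdjoinRoot (overK f), IsS0 f δ → (∀ v ∈ P, SqAt f v δ) → ∃ z, δ = z ^ 2)
    (Pool.Agent.H40.GC.fams_fin _ _ _ _) (fun _ hf => hf.1) (fun _ hf => hf.1) (fun _ hf => hf.1)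
    (fun f hf => by
      by_cases hs : Smooth f
      · right
        by_cases hδ : ∃ δ : AdjoinRoot (overK f), IsS0 f δ ∧ ¬ IsSquare δ ∧ ∀ v ∈ P, SqAt f v δ
        · exact Or.inl ⟨hf, hs, hδ⟩
        · refine Or.inr ⟨hf, hs, fun δ h4 h5 => ?_⟩
          by_contra h6
          exact hδ ⟨δ, h4, fun h7 => h6 ((isSquare_iff_exists_sq δ).1 h7), h5⟩
      · exact Or.inl ⟨hf, hs⟩)
  have g5 : (Nat.card {f : F[X][X] // FamS (2 * g + 1) h P (Z0 ∪ Z) f} : ℝ) ≤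
      (Nat.card {f : F[X][X] // FamS (2 * g + 1) h P (Z0 ∪ Z) f ∧ ¬ Smooth f} : ℝ) +
      (Nat.card {f : F[X][X] // FamS (2 * g + 1) h P (Z0 ∪ Z) f ∧ Smooth f ∧
        ∃ δ : AdjoinRoot (overK f), IsS0 f δ ∧ ¬ IsSquare δ ∧ ∀ v ∈ P, SqAt f v δ} : ℝ) +
      (Nat.card {f : F[X][X] // FamS (2 * g + 1) h P (Z0 ∪ Z) f ∧ Smooth f ∧
          ∀ δ : AdjoinRoot (overK f), IsS0 f δ → (∀ v ∈ P, SqAt f v δ) → ∃ z, δ = z ^ 2} : ℝ) := by
    exact_mod_cast g4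
  have hA : (0 : ℝ) ≤ (Nat.card {f : F[X][X] // FamS (2 * g + 1) h P (Z0 ∪ Z) f} : ℝ) :=
    Nat.cast_nonneg _
  have h2p : (0 : ℝ) < 2 ^ k := by positivity
  have g6 : (Nat.card {f : F[X][X] // FamS (2 * g + 1) h P (Z0 ∪ Z) f ∧ Smooth f ∧
        ∃ δ : AdjoinRoot (overK f), IsS0 f δ ∧ ¬ IsSquare δ ∧ ∀ v ∈ P, SqAt f v δ} : ℝ) ≤
      1 / 4 * (Nat.card {f : F[X][X] // FamS (2 * g + 1) h P (Z0 ∪ Z) f} : ℝ) := by
    refine le_of_mul_le_mul_left (g1.trans ?_) h2p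
    have g7 := mul_le_mul_of_nonneg_right h2k hA
    linarith
  linarith

theorem g1_main (F : Type) [Field F] [Finite F] (h2 : (2 : F) ≠ 0) {g : ℕ} (hg : 1 ≤ g)
    (hLat : ∀ (h : ℕ) (f : F[X][X]), 1 ≤ h → Fam (2 * g + 1) h f → Irreducible (lead (2 * g + 1) h f) →
      Smooth f → LatO g h f) :
    ∃ (c : ℝ) (h0 : ℕ), 0 < c ∧ ∀ h, h0 ≤ h →
      c * (Nat.card {f : F[X][X] // Fam (2 * g + 1) h f} : ℝ) ≤
        (Nat.card {f : F[X][X] // Fam (2 * g + 1) h f ∧ (overK f).Separable ∧ SelTriv 1 f} : ℝ) := by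
  classical
  obtain ⟨d, k, P, Z, Z1, c, h0, hc, hk, hPc, hZc, hPZ, hPd, hZd, hZZ1, hmain⟩ :=
    good_share F h2 hg hLat
  have htw : ∀ I : Finset (HeightOneSpectrum F[X]), ∃ D : F[X], I ⊆ P → D.Monic ∧
      D.natDegree = k * d ∧
      (∀ v ∈ I, D ∈ v.asIdeal ∧ D ∉ v.asIdeal ^ 2) ∧ (∀ v ∈ P, v ∉ I → D ∉ v.asIdeal) ∧
      ∀ v, D ∈ v.asIdeal → v ∈ I ∨ v ∈ Z := by
    intro I
    by_cases hI : I ⊆ P
    · obtain ⟨D, hD⟩ := exists_twist hPc hZc hPZ hPd hZd hI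
      exact ⟨D, fun _ => hD⟩
    · exact ⟨1, fun h => absurd h hI⟩
  choose D hD using htw
  obtain ⟨v₀, hv₀⟩ : P.Nonempty := by
    rw [← Finset.card_pos]
    omega
  have hcov : ∀ h, ∀ f : F[X][X], (FamS (2 * g + 1) h P Z1 f ∧ Smooth f ∧
      ∀ δ : AdjoinRoot (overK f), IsS0 f δ → (∀ v ∈ P, SqAt f v δ) → ∃ z, δ = z ^ 2) →
      ∃ I ∈ P.powerset, Fam (2 * g + 1) h f ∧ (overK (f.scaleRoots (D I))).Separable ∧
        SelTriv 1 (f.scaleRoots (D I)) := by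
    rintro h f ⟨⟨hfam, hl, hP, hZ⟩, hs, hδ⟩
    have hf := hfam.monic
    have hirr : Irreducible f := H13.SM.irr (2 * g + 1) h (by omega) f hfam hl
    have hded : IsDedekindDomain (AdjoinRoot f) :=
      H13.SM.ded (2 * g + 1) h (by omega) f hfam hl hs
    have hirrK : Irreducible (overK f) := Pool.Agent.H94.TC.irreducible_map (RatFunc F) f hf
    have hodd : Odd f.natDegree := by
      rw [hfam.deg]
      exact ⟨g, rfl⟩
    obtain ⟨I, hIP, hI⟩ := g1_choice h2 f hfam rfl hl hirrK P hP hδ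
    obtain ⟨hDm, hDd, hD1, hD2, hD3⟩ := hD I hIP
    have hD0 : D I ≠ 0 := hDm.ne_zero
    refine ⟨I, Finset.mem_powerset.2 hIP, hfam, ?_, ?_⟩
    · exact sep_scale hf hD0 (sep_over hf v₀ (sep_of (Or.inl (hP v₀ hv₀))))
    · refine selTriv_scale hf hodd hirr hD0 (hI (D I) hD1 hD2 fun v hv => ?_)
      rcases hD3 v hv with h4 | h4
      · exact Or.inl h4
      · exact Or.inr (hZ v (hZZ1 h4))
  have hq : (0 : ℝ) < (Nat.card F : ℝ) := by exact_mod_cast Nat.card_pos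
  obtain ⟨e, he⟩ : ∃ e, e = k * d := ⟨_, rfl⟩
  obtain ⟨s, hs⟩ : ∃ s, s = ∑ i : Fin (2 * g + 1), (2 * g + 1 - (i : ℕ)) := ⟨_, rfl⟩
  refine ⟨c / 2 ^ k / (Nat.card F : ℝ) ^ (e * s), h0 + e, by positivity, fun h' hh' => ?_⟩
  obtain ⟨h, rfl⟩ : ∃ h, h' = h + e := ⟨h' - e, by omega⟩
  have g1 := hmain h (by omega)
  have g2 : Nat.card {f : F[X][X] // FamS (2 * g + 1) h P Z1 f ∧ Smooth f ∧
      ∀ δ : AdjoinRoot (overK f), IsS0 f δ → (∀ v ∈ P, SqAt f v δ) → ∃ z, δ = z ^ 2} ≤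
      P.powerset.card * Nat.card {f : F[X][X] // Fam (2 * g + 1) (h + e) f ∧
        (overK f).Separable ∧ SelTriv 1 f} := by
    refine card_union (q := fun I f => Fam (2 * g + 1) h f ∧
      (overK (f.scaleRoots (D I))).Separable ∧ SelTriv 1 (f.scaleRoots (D I))) P.powerset _
      (fun I _ => (fam_fin F (2 * g + 1) h).subset fun f hf => hf.1) (hcov h) fun I hI => ?_
    obtain ⟨hDm, hDd, -⟩ := hD I (Finset.mem_powerset.1 hI)
    have hfinB : Finite {f : F[X][X] // Fam (2 * g + 1) (h + e) f ∧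
        (overK f).Separable ∧ SelTriv 1 f} :=
      ((fam_fin F (2 * g + 1) (h + e)).subset fun f hf => hf.1 :
        {f : F[X][X] | Fam (2 * g + 1) (h + e) f ∧ (overK f).Separable ∧ SelTriv 1 f}.Finite)
    refine Nat.card_le_card_of_injective (fun f => ⟨f.1.scaleRoots (D I), ?_, f.2.2.1, f.2.2.2⟩) ?_
    · have h5 := fam_scale f.2.1 (D I)
      rwa [hDd, ← he] at h5
    · intro f₁ f₂ h5
      have h6 := congrArg Subtype.val h5
      exact Subtype.ext (scale_inj hDm.ne_zero (f₁.2.1.deg.trans f₂.2.1.deg.symm) h6)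
  rw [Finset.card_powerset, hPc] at g2
  have g3 : (Nat.card {f : F[X][X] // FamS (2 * g + 1) h P Z1 f ∧ Smooth f ∧
      ∀ δ : AdjoinRoot (overK f), IsS0 f δ → (∀ v ∈ P, SqAt f v δ) → ∃ z, δ = z ^ 2} : ℝ) ≤
      2 ^ k * (Nat.card {f : F[X][X] // Fam (2 * g + 1) (h + e) f ∧
        (overK f).Separable ∧ SelTriv 1 f} : ℝ) := by
    exact_mod_cast g2
  have g4 : (Nat.card {f : F[X][X] // Fam (2 * g + 1) (h + e) f} : ℝ) =
      (Nat.card {f : F[X][X] // Fam (2 * g + 1) h f} : ℝ) * (Nat.card F : ℝ) ^ (e * s) := by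
    rw [Pool.Agent.H40.GC.fmc_all, Pool.Agent.H40.GC.fmc_all, mh_add, ← hs, pow_add]
    push_cast
    ring
  rw [g4]
  have hqs : (0 : ℝ) < (Nat.card F : ℝ) ^ (e * s) := by positivity
  have h2p : (0 : ℝ) < 2 ^ k := by positivity
  have g5 : c / 2 ^ k / (Nat.card F : ℝ) ^ (e * s) *
      ((Nat.card {f : F[X][X] // Fam (2 * g + 1) h f} : ℝ) * (Nat.card F : ℝ) ^ (e * s)) =
      c * (Nat.card {f : F[X][X] // Fam (2 * g + 1) h f} : ℝ) / 2 ^ k := by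
    field_simp
  rw [g5, div_le_iff₀ h2p]
  refine (g1.trans g3).trans (le_of_eq ?_)
  ring

end Pool.Agent.H74.GR
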