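import Pool.Agent.H74.GR.WD
import Pool.Agent.H40.GC.LTO

set_option autoImplicit false

/-!
# [H74 GR WE] THEOREM G1: end statement

`g1_fin`: for every finite field `F` of characteristic not 2 and every genus `g ≥ 1` a positive proportion of the curves `y ^ 2 = f(t, x)` of genus `g` over `F(t)` has `SelTriv 1 f`.
-/

namespace Pool.Agent.H74.GR

open Polynomial IsDedekindDomain
open Pool.Agent.H94.GG (Fam SelTriv)
open Pool.Agent.H80.CC.Plane (overK)

/-- **THEOREM G1.** -/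
theorem g1_fin {F : Type} [Field F] [Finite F] (h2 : (2 : F) ≠ 0) {g : ℕ} (hg : 1 ≤ g) :
    ∃ c : ℝ, 0 < c ∧ ∃ h0 : ℕ, ∀ h ≥ h0,
      c * (Nat.card {f : F[X][X] // Fam (2 * g + 1) h f} : ℝ) ≤
        (Nat.card {f : F[X][X] // Fam (2 * g + 1) h f ∧ (overK f).Separable ∧ SelTriv 1 f} : ℝ) := by
  obtain ⟨c, h0, hc, hh⟩ := g1_main F h2 hg fun h f _ hf hl hs =>
    Pool.Agent.H40.GC.lato hg h f hf hl hs
  exact ⟨c, hc, h0, hh⟩

end Pool.Agent.H74.GR
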